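import Pool.Agent.H252.EL.Iface

set_option autoImplicit false

noncomputable section

namespace Pool.Agent.H389.ELUP

open Filter Topology
open scoped ENNReal NNReal Matrix.Norms.L2Operator ComplexOrder
open Pool.Agent.TH249 (Prj K0 Eqv IsPrj)
open Pool.Agent.H188R3 (IsLim)
open Pool.Agent.H252.EL

/-! ## General C*-algebra facts -/

section gen

variable {B : Type} [CStarAlgebra B]

lemma exists_one_sub (y : B) (h : ‖y‖ ≤ 1) : ∃ y', 1 - star y * y = star y' * y' := by
  let _ := CStarAlgebra.spectralOrder B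
  have _ := CStarAlgebra.spectralOrderedRing B
  have h1 : 0 ≤ star y * y := star_mul_self_nonneg y
  have h2 : ‖star y * y‖ ≤ 1 := by
    rw [CStarRing.norm_star_mul_self]
    nlinarith [norm_nonneg y]
  have h3 : star y * y ≤ 1 := (CStarAlgebra.norm_le_one_iff_of_nonneg _ h1).1 h2
  have h4 : 0 ≤ 1 - star y * y := sub_nonneg.2 h3
  exact (CStarAlgebra.nonneg_iff_eq_star_mul_self).1 h4

lemma norm_le_of_one_sub (y y' : B) (h : 1 - star y * y = star y' * y') : ‖y‖ ≤ 1 := by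
  let _ := CStarAlgebra.spectralOrder B
  have _ := CStarAlgebra.spectralOrderedRing B
  have h1 : 0 ≤ star y * y := star_mul_self_nonneg y
  have h4 : 0 ≤ 1 - star y * y := by
    rw [h]
    exact star_mul_self_nonneg y'
  have h3 : star y * y ≤ 1 := sub_nonneg.1 h4
  have h2 : ‖star y * y‖ ≤ 1 := (CStarAlgebra.norm_le_one_iff_of_nonneg _ h1).2 h3
  rw [CStarRing.norm_star_mul_self] at h2
  nlinarith [norm_nonneg y]

lemma norm_sq_le_one (y : B) (h : ‖y‖ ≤ 1) : ‖star y * y‖ ≤ 1 := by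
  rw [CStarRing.norm_star_mul_self]
  nlinarith [norm_nonneg y]

lemma cut_norm (y : B) (η : ℝ) (hη : 0 ≤ η) : ‖cut η (star y * y) - star y * y‖ ≤ η := by
  have hsa : IsSelfAdjoint (star y * y) := IsSelfAdjoint.star_mul_self y
  have h1 : cut η (star y * y) - star y * y =
      cfc (fun t : ℝ => max (t - η) 0 - t) (star y * y) := by
    rw [cfc_sub (fun t : ℝ => max (t - η) 0) (fun t : ℝ => t) (star y * y)
      (by fun_prop) (by fun_prop)]
    rw [cfc_id' ℝ (star y * y) hsa]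
    rfl
  rw [h1]
  refine norm_cfc_le hη ?_
  intro t ht
  have h0 : 0 ≤ t := spectrum_star_mul_self_nonneg t ht
  rw [Real.norm_eq_abs, abs_le]
  rcases le_total (t - η) 0 with h | h
  · rw [max_eq_right h]
    constructor <;> linarith
  · rw [max_eq_left h]
    constructor <;> linarith

lemma cont_hom {C : Type} [CStarAlgebra C] (f : B →⋆ₐ[ℂ] C) : Continuous f :=
  AddMonoidHomClass.continuous_of_bound f 1 (fun x => by
    simpa using Pool.Agent.H188R3.norm_map_le' f x)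

lemma map_cut {C : Type} [CStarAlgebra C] (f : B →⋆ₐ[ℂ] C) (y : B) (η : ℝ) :
    f (cut η (star y * y)) = cut η (star (f y) * f y) := by
  unfold cut
  have hf : Continuous f := cont_hom f
  have h1 : star (f y) * f y = f (star y * y) := by
    rw [map_mul, map_star]
  rw [h1]
  refine StarAlgHom.map_cfc f (fun t : ℝ => max (t - η) 0) (star y * y) (by fun_prop) hf
    (IsSelfAdjoint.star_mul_self y) ?_
  rw [← h1]
  exact IsSelfAdjoint.star_mul_self (f y)

lemma est (b g₁ g' a' p : B) (ε η M : ℝ) (hb : ‖b‖ ≤ 1) (hg : g₁ * b * star g₁ = p)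
    (h1 : ‖g' - g₁‖ ≤ ε) (hM : ‖g₁‖ + 1 ≤ M) (hε0 : 0 ≤ ε) (hε : ε ≤ 1) (hε2 : 8 * M * ε ≤ 1)
    (h2 : ‖a' - b‖ ≤ 2 * η) (hη0 : 0 ≤ η) (hη : 8 * M ^ 2 * η ≤ 1) :
    ‖g' * a' * star g' - p‖ ≤ 1 / 2 := by
  have hM0 : 0 ≤ M := by linarith [norm_nonneg g₁]
  have hgM : ‖g₁‖ ≤ M := by linarith
  have hg'M : ‖g'‖ ≤ M := by
    have h3 : g' = g₁ + (g' - g₁) := by abel
    calc ‖g'‖ = ‖g₁ + (g' - g₁)‖ := by rw [← h3]
      _ ≤ ‖g₁‖ + ‖g' - g₁‖ := norm_add_le _ _
      _ ≤ M := by linarith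
  have key : g' * a' * star g' - p = g' * (a' - b) * star g' + (g' - g₁) * b * star g' +
      g₁ * b * star (g' - g₁) := by
    rw [← hg, star_sub]
    noncomm_ring
  have e1 : ‖g' * (a' - b) * star g'‖ ≤ M * (2 * η) * M := by
    calc ‖g' * (a' - b) * star g'‖ ≤ ‖g' * (a' - b)‖ * ‖star g'‖ := norm_mul_le _ _
      _ ≤ (‖g'‖ * ‖a' - b‖) * ‖star g'‖ := by
          gcongr
          exact norm_mul_le _ _
      _ ≤ (M * (2 * η)) * M := by
          rw [norm_star]
          gcongr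
  have e2 : ‖(g' - g₁) * b * star g'‖ ≤ ε * 1 * M := by
    calc ‖(g' - g₁) * b * star g'‖ ≤ ‖(g' - g₁) * b‖ * ‖star g'‖ := norm_mul_le _ _
      _ ≤ (‖g' - g₁‖ * ‖b‖) * ‖star g'‖ := by
          gcongr
          exact norm_mul_le _ _
      _ ≤ (ε * 1) * M := by
          rw [norm_star]
          gcongr
  have e3 : ‖g₁ * b * star (g' - g₁)‖ ≤ M * 1 * ε := by
    calc ‖g₁ * b * star (g' - g₁)‖ ≤ ‖g₁ * b‖ * ‖star (g' - g₁)‖ := norm_mul_le _ _
      _ ≤ (‖g₁‖ * ‖b‖) * ‖star (g' - g₁)‖ := by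
          gcongr
          exact norm_mul_le _ _
      _ ≤ (M * 1) * ε := by
          rw [norm_star]
          gcongr
  rw [key]
  calc ‖g' * (a' - b) * star g' + (g' - g₁) * b * star g' + g₁ * b * star (g' - g₁)‖
      ≤ ‖g' * (a' - b) * star g'‖ + ‖(g' - g₁) * b * star g'‖ + ‖g₁ * b * star (g' - g₁)‖ :=
        norm_add₃_le
    _ ≤ M * (2 * η) * M + ε * 1 * M + M * 1 * ε := by linarith
    _ ≤ 1 / 2 := by nlinarith

/-- replacing `P₁` by an equivalent projection -/
lemma transfer (G a P p u : B) (h1 : star u * u = P) (h2 : u * star u = p)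
    (hp : IsStarProjection p) (hG : ‖G * a * star G - P‖ ≤ 1 / 2) :
    ‖(u * G) * a * star (u * G) - p‖ < 1 := by
  have hpp : p * p = p := hp.isIdempotentElem.eq
  have e1 : u * P * star u = p := by
    calc u * P * star u = (u * star u) * (u * star u) := by
          rw [← h1]
          noncomm_ring
      _ = p := by rw [h2, hpp]
  have hu : ‖u‖ ≤ 1 := by
    have h3 : ‖u‖ * ‖u‖ = ‖p‖ := by
      rw [← h2]
      exact (CStarRing.norm_self_mul_star).symm
    have h4 : ‖p‖ * ‖p‖ = ‖p‖ := by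
      have h5 : star p * p = p := by rw [hp.isSelfAdjoint.star_eq, hpp]
      have h6 := CStarRing.norm_star_mul_self (x := p)
      rw [h5] at h6
      exact h6.symm
    have h7 : ‖p‖ ≤ 1 := by
      by_contra hcon
      push Not at hcon
      nlinarith [norm_nonneg p]
    nlinarith [norm_nonneg u]
  have e2 : (u * G) * a * star (u * G) - p = u * (G * a * star G - P) * star u := by
    rw [← e1, star_mul]
    noncomm_ring
  rw [e2]
  calc ‖u * (G * a * star G - P) * star u‖ ≤ ‖u * (G * a * star G - P)‖ * ‖star u‖ :=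
        norm_mul_le _ _
    _ ≤ (‖u‖ * ‖G * a * star G - P‖) * ‖star u‖ := by
        gcongr
        exact norm_mul_le _ _
    _ ≤ (1 * (1 / 2)) * 1 := by
        rw [norm_star]
        gcongr
    _ < 1 := by norm_num

end gen

/-! ## Constant projections -/

/-- the constant projection in `D.A i` -/
def pp (D : Sys) (i : ℕ) (ρ : Bool → ℕ) : D.A i := D.cp i 1 ρ 0 0

lemma pp_apply (D : Sys) (i : ℕ) (ρ : Bool → ℕ) (z : D.Z i) :
    pp D i ρ z = Matrix.diagonal fun a : Fin (D.n i) => if (a : ℕ) < ρ z.1 then (1 : ℂ) else 0 := by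
  show (D.cp i 1 ρ 0 0) z = _
  unfold Sys.cp
  rw [Matrix.diagonal_apply_eq]
  show (Matrix.diagonal fun a : Fin (D.n i) =>
    if ((0 : Fin 1) : ℕ) * D.n i + (a : ℕ) < ρ z.1 then (1 : ℂ) else 0) = _
  congr 1
  funext a
  simp

lemma one_apply (D : Sys) (i : ℕ) (b : Bool) (z : D.Z i) :
    D.one i b z = if z.1 = b then 1 else 0 := rfl

lemma pp_proj (D : Sys) (i : ℕ) (ρ : Bool → ℕ) : IsStarProjection (pp D i ρ) := by
  constructor
  · show pp D i ρ * pp D i ρ = pp D i ρ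
    ext1 z
    rw [ContinuousMap.mul_apply, pp_apply, Matrix.diagonal_mul_diagonal]
    congr 1
    funext a
    split_ifs <;> simp
  · show star (pp D i ρ) = pp D i ρ
    ext1 z
    rw [ContinuousMap.star_apply, pp_apply, Matrix.star_eq_conjTranspose,
      Matrix.diagonal_conjTranspose]
    congr 1
    funext a
    rw [Pi.star_apply]
    split_ifs <;> simp

lemma one_proj (D : Sys) (i : ℕ) (b : Bool) : IsStarProjection (D.one i b) := by
  constructor
  · show D.one i b * D.one i b = D.one i b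
    ext1 z
    rw [ContinuousMap.mul_apply, one_apply]
    split_ifs <;> simp
  · show star (D.one i b) = D.one i b
    ext1 z
    rw [ContinuousMap.star_apply, one_apply]
    split_ifs <;> simp

lemma one_comm (D : Sys) (i : ℕ) (b : Bool) (a : D.A i) : D.one i b * a = a * D.one i b := by
  ext1 z
  rw [ContinuousMap.mul_apply, ContinuousMap.mul_apply, one_apply]
  split_ifs <;> simp

lemma ppone_proj (D : Sys) (i : ℕ) (ρ : Bool → ℕ) (b : Bool) :
    IsStarProjection (pp D i ρ * D.one i b) := by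
  have h1 := (pp_proj D i ρ).isIdempotentElem.eq
  have h2 := (one_proj D i b).isIdempotentElem.eq
  constructor
  · show (pp D i ρ * D.one i b) * (pp D i ρ * D.one i b) = pp D i ρ * D.one i b
    calc (pp D i ρ * D.one i b) * (pp D i ρ * D.one i b)
        = pp D i ρ * (D.one i b * pp D i ρ) * D.one i b := by noncomm_ring
      _ = (pp D i ρ * pp D i ρ) * (D.one i b * D.one i b) := by
          rw [one_comm]
          noncomm_ring
      _ = pp D i ρ * D.one i b := by rw [h1, h2]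
  · show star (pp D i ρ * D.one i b) = pp D i ρ * D.one i b
    rw [star_mul, (pp_proj D i ρ).isSelfAdjoint.star_eq, (one_proj D i b).isSelfAdjoint.star_eq,
      one_comm]

lemma pp_mul (D : Sys) (i : ℕ) (ρ σ : Bool → ℕ) (h : ρ true ≤ σ true) :
    (pp D i σ * D.one i true) * (pp D i ρ * D.one i true) = pp D i ρ * D.one i true := by
  ext1 z
  rw [ContinuousMap.mul_apply, ContinuousMap.mul_apply, ContinuousMap.mul_apply, pp_apply, pp_apply,
    one_apply]
  by_cases hz : z.1 = true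
  · rw [if_pos hz, mul_one, mul_one, Matrix.diagonal_mul_diagonal, hz]
    congr 1
    funext a
    by_cases h1 : (a : ℕ) < ρ true
    · rw [if_pos h1, if_pos (lt_of_lt_of_le h1 h)]
      simp
    · rw [if_neg h1]
      simp
  · rw [if_neg hz]
    simp

/-! ## The comparison on the two components -/

lemma norm_proj_le {B : Type} [CStarAlgebra B] (p : B) (hp : IsStarProjection p) : ‖p‖ ≤ 1 := by
  have hpp : p * p = p := hp.isIdempotentElem.eq
  have h5 : star p * p = p := by rw [hp.isSelfAdjoint.star_eq, hpp]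
  have h6 := CStarRing.norm_star_mul_self (x := p)
  rw [h5] at h6
  by_contra hcon
  push Not at hcon
  nlinarith [norm_nonneg p]

lemma comp_true (hNRM : S_NRM) (D : Sys) (i : ℕ) (ρ σ : Bool → ℕ) (h : ρ true ≤ σ true)
    (y G : D.A i) (hG : ‖G * (star y * y) * star G - pp D i σ‖ < 1) :
    ∃ w : D.A i, w * (star y * y) * star w = pp D i ρ * D.one i true := by
  refine hNRM (D.A i) y (D.one i true * G) (pp D i σ * D.one i true) (pp D i ρ * D.one i true)
    (ppone_proj D i σ true) (ppone_proj D i ρ true) (pp_mul D i ρ σ h) ?_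
  have h2 := (one_proj D i true).isIdempotentElem.eq
  have hst := (one_proj D i true).isSelfAdjoint.star_eq
  have e : D.one i true * G * (star y * y) * star (D.one i true * G) - pp D i σ * D.one i true =
      D.one i true * (G * (star y * y) * star G - pp D i σ) * D.one i true := by
    rw [star_mul, hst]
    have h3 : D.one i true * pp D i σ * D.one i true = pp D i σ * D.one i true := by
      rw [one_comm, mul_assoc, h2]
    rw [← h3, mul_sub, sub_mul]
    simp only [mul_assoc]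
  rw [e]
  have hn := norm_proj_le _ (one_proj D i true)
  calc ‖D.one i true * (G * (star y * y) * star G - pp D i σ) * D.one i true‖
      ≤ ‖D.one i true * (G * (star y * y) * star G - pp D i σ)‖ * ‖D.one i true‖ :=
        norm_mul_le _ _
    _ ≤ (‖D.one i true‖ * ‖G * (star y * y) * star G - pp D i σ‖) * ‖D.one i true‖ := by
        gcongr
        exact norm_mul_le _ _
    _ ≤ (1 * ‖G * (star y * y) * star G - pp D i σ‖) * 1 := by gcongr
    _ < 1 := by linarith

lemma rank_diag (n r : ℕ) :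
    (Matrix.diagonal fun a : Fin n => if (a : ℕ) < r then (1 : ℂ) else 0).rank ≤ r := by
  classical
  rw [Matrix.rank_diagonal]
  have h1 : Function.Injective (fun a : {a : Fin n // (if (a : ℕ) < r then (1 : ℂ) else 0) ≠ 0} =>
      (⟨(a : Fin n), by
        by_contra hcon
        exact a.2 (if_neg hcon)⟩ : Fin r)) := by
    intro a b hab
    apply Subtype.ext
    apply Fin.ext
    have := congrArg Fin.val hab
    exact this
  have h2 := Fintype.card_le_of_injective _ h1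
  rw [Fintype.card_fin] at h2
  exact h2

lemma comp_false (hCMP : S_CMP) (D : Sys) (i : ℕ) (ρ : Bool → ℕ) (a : D.A i)
    (ha : ∃ y, a = star y * y) (η : ℝ) (hη : 0 < η)
    (hq : ∀ y : Cb (D.d i false), ∃ q : Matrix (Fin (D.n i)) (Fin (D.n i)) ℂ,
      IsStarProjection q ∧ ρ false + (D.d i false / 2 + 1) ≤ q.rank ∧
        (a ⟨false, y⟩ - (η : ℂ) • q).PosSemidef) :
    ∃ w : Cb (D.d i false) → Matrix (Fin (D.n i)) (Fin (D.n i)) ℂ, Continuous w ∧
      ∀ y, w y * a ⟨false, y⟩ * star (w y) = pp D i ρ ⟨false, y⟩ := by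
  obtain ⟨y₀, hy₀⟩ := ha
  have hproj := pp_proj D i ρ
  have hc : Continuous fun y : Cb (D.d i false) => a (⟨false, y⟩ : D.Z i) :=
    a.continuous.comp continuous_sigmaMk
  obtain ⟨w, hw, hw2⟩ := hCMP (D.d i false) (Fin (D.n i)) (fun y => a ⟨false, y⟩) hc
    (fun y => by
      show (a (⟨false, y⟩ : D.Z i)).PosSemidef
      rw [hy₀, ContinuousMap.mul_apply, ContinuousMap.star_apply, Matrix.star_eq_conjTranspose]
      exact Matrix.posSemidef_conjTranspose_mul_self _) η (ρ false) (D.d i false / 2 + 1) hη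
    (by omega) hq
    (Matrix.diagonal fun a : Fin (D.n i) => if (a : ℕ) < ρ false then (1 : ℂ) else 0)
    (by
      constructor
      · show _ * _ = _
        rw [Matrix.diagonal_mul_diagonal]
        congr 1
        funext a
        split_ifs <;> simp
      · show star _ = _
        rw [Matrix.star_eq_conjTranspose, Matrix.diagonal_conjTranspose]
        congr 1
        funext a
        rw [Pi.star_apply]
        split_ifs <;> simp) (rank_diag _ _)
  refine ⟨w, hw, fun y => ?_⟩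
  rw [pp_apply]
  exact hw2 y

lemma combine (D : Sys) (i : ℕ) (a p w₁ : D.A i)
    (h₁ : ∀ y, w₁ ⟨true, y⟩ * a ⟨true, y⟩ * star (w₁ ⟨true, y⟩) = p ⟨true, y⟩)
    (w₂ : Cb (D.d i false) → Matrix (Fin (D.n i)) (Fin (D.n i)) ℂ) (hc : Continuous w₂)
    (h₂ : ∀ y, w₂ y * a ⟨false, y⟩ * star (w₂ y) = p ⟨false, y⟩) :
    ∃ w : D.A i, w * a * star w = p := by
  let f : D.Z i → Matrix (Fin (D.n i)) (Fin (D.n i)) ℂ := fun z =>
    match z with
    | ⟨true, y⟩ => w₁ ⟨true, y⟩
    | ⟨false, y⟩ => w₂ y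
  have hf : Continuous f := by
    refine continuous_sigma fun b => ?_
    cases b
    · exact hc
    · exact w₁.continuous.comp continuous_sigmaMk
  refine ⟨⟨f, hf⟩, ?_⟩
  ext1 z
  rw [ContinuousMap.mul_apply, ContinuousMap.mul_apply, ContinuousMap.star_apply]
  obtain ⟨b, y⟩ := z
  cases b
  · exact h₂ y
  · exact h₁ y


/-! ## Stages -/

lemma lift {D : Sys} {L : Type} [CStarAlgebra L] {j : ∀ i, D.A i →⋆ₐ[ℂ] L} (hL : IsLim D.φ j)
    (i k : ℕ) (h : i ≤ k) (a : D.A i) : ∃ a' : D.A k, j k a' = j i a := by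
  induction k, h using Nat.le_induction with
  | base => exact ⟨a, rfl⟩
  | succ k hk ih =>
    obtain ⟨a', ha'⟩ := ih
    exact ⟨D.φ k a', by rw [hL.comp, ha']⟩

lemma n_ge (D : Sys) (hG : D.Good) (i : ℕ) : i + 1 ≤ D.n i := by
  induction i with
  | zero => exact le_refl _
  | succ i ih =>
    rw [Sys.n_succ]
    have h1 := hG.m_pos i
    have h2 := hG.c_pos i
    have h3 := hG.lt i
    have h4 : 2 ≤ D.S i := by omega
    calc i + 1 + 1 ≤ (i + 1) * 2 := by omega
      _ ≤ D.n i * D.S i := Nat.mul_le_mul ih h4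

/-- the ranks of a projection of the limit -/
lemma ranks (hEX : S_EX) (hMASS : S_MASS) (hPRJ : S_PRJ) (hRNK : S_RNK) (D : Sys) (hF : D.Fine)
    (L : Type) [CStarAlgebra L] (j : ∀ i, D.A i →⋆ₐ[ℂ] L) (hL : IsLim D.φ j) (x : L)
    (hx : IsStarProjection x) :
    ∃ N : ℕ, ∀ i, N ≤ i → ∃ ρ : Bool → ℕ, (∀ b, ρ b ≤ D.n i) ∧
      (∃ v : L, star v * v = x ∧ v * star v = j i (pp D i ρ)) ∧
      ∀ τ ∈ TracialStates L, ∀ b, (τ (j 0 (D.one 0 b))).re = 3 / 4 →
        |(τ x).re - (ρ b : ℝ) / D.n i| ≤ 1 / (i + 2) := by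
  obtain ⟨N, hN⟩ := hRNK hEX hMASS hPRJ D hF L j hL 1 (Matrix.of fun _ _ => x)
    (Pool.Agent.TH249.isPrj_of x hx)
  refine ⟨N, fun i hi => ?_⟩
  obtain ⟨ρ, h1, ⟨v, hv1, hv2⟩, -, h3⟩ := hN i hi
  refine ⟨ρ, fun b => by simpa using h1 b, ⟨v 0 0, ?_, ?_⟩, ?_⟩
  · have h := congrFun (congrFun hv1 0) 0
    rw [Matrix.mul_apply, Fin.sum_univ_one, Matrix.conjTranspose_apply] at h
    exact h
  · have h := congrFun (congrFun hv2 0) 0
    rw [Matrix.mul_apply, Fin.sum_univ_one, Matrix.conjTranspose_apply] at h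
    exact h
  · intro τ hτ b hb
    have h := h3 τ hτ b hb
    have e : trM τ (Matrix.of fun (_ _ : Fin 1) => x) = τ x := by
      unfold trM
      rw [Fin.sum_univ_one]
      rfl
    rw [e] at h
    simpa using h

lemma rank_close (hMASS : S_MASS) (hPRJ : S_PRJ) (D : Sys) (hF : D.Fine) (L : Type)
    [CStarAlgebra L] (j : ∀ i, D.A i →⋆ₐ[ℂ] L) (hL : IsLim D.φ j) (i : ℕ) (σ : Bool → ℕ)
    (hσ : ∀ b, σ b ≤ D.n i) (τ : WeakDual ℂ L) (hτ : τ ∈ TracialStates L) (b : Bool)
    (h : (τ (j 0 (D.one 0 b))).re = 3 / 4) :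
    |(τ (j i (pp D i σ))).re - (σ b : ℝ) / D.n i| ≤ 1 / (i + 2) := by
  have h1 := ((hPRJ D hF.toGood i 1).2 σ (fun b => by simpa using hσ b)).2 L j hL τ hτ
  have e : trM τ ((D.cp i 1 σ).map (j i)) = τ (j i (pp D i σ)) := by
    unfold trM
    rw [Fin.sum_univ_one]
    rfl
  rw [e, Fintype.sum_bool] at h1
  obtain ⟨-, -, h3, -, h5⟩ := hMASS D hF L j hL τ hτ
  rw [h3 i true, h3 i false] at h1
  have hn : (1 : ℝ) ≤ D.n i := by
    have := n_ge D hF.toGood i
    have h' : 1 ≤ D.n i := by omega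
    exact_mod_cast h'
  have hx : ∀ b, 0 ≤ (σ b : ℝ) / D.n i ∧ (σ b : ℝ) / D.n i ≤ 1 := by
    intro b
    refine ⟨by positivity, ?_⟩
    rw [div_le_one (by linarith)]
    exact_mod_cast hσ b
  have h1' := congrArg Complex.re h1
  simp only [Complex.add_re, ← Complex.ofReal_mul, Complex.ofReal_re] at h1'
  rw [h1']
  set r : ℝ := ((i : ℝ) + 1) / (i + 2) with hr
  have hr1 : 1 - r = 1 / ((i : ℝ) + 2) := by
    rw [hr]
    field_simp
    ring
  have hr0 : 0 ≤ 1 - r := by
    rw [hr1]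
    positivity
  rw [← hr1]
  obtain ⟨hx1, hx2⟩ := hx true
  obtain ⟨hy1, hy2⟩ := hx false
  set X : ℝ := (σ true : ℝ) / D.n i with hX
  set Y : ℝ := (σ false : ℝ) / D.n i with hY
  cases b
  · have hf : (τ (j 0 (D.one 0 false))).re = 3 / 4 := h
    have ht : (τ (j 0 (D.one 0 true))).re = 1 / 4 := by linarith
    rw [hf, ht]
    have e2 : X * (1 / 2 + (2 * (1 / 4) - 1) * r) + Y * (1 / 2 + (2 * (3 / 4) - 1) * r) - Y =
      (X - Y) * (1 - r) / 2 := by ring
    rw [e2, abs_le]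
    constructor <;> nlinarith
  · have ht : (τ (j 0 (D.one 0 true))).re = 3 / 4 := h
    have hf : (τ (j 0 (D.one 0 false))).re = 1 / 4 := by linarith
    rw [hf, ht]
    have e2 : X * (1 / 2 + (2 * (3 / 4) - 1) * r) + Y * (1 / 2 + (2 * (1 / 4) - 1) * r) - X =
      (Y - X) * (1 - r) / 2 := by ring
    rw [e2, abs_le]
    constructor <;> nlinarith

lemma ev_small (c : ℝ) (hc : 0 < c) : ∀ᶠ i : ℕ in atTop, 2 / ((i : ℝ) + 1) < c := by
  obtain ⟨K, hK⟩ := exists_nat_gt (2 / c)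
  filter_upwards [eventually_ge_atTop K] with i hi
  have h1 : (K : ℝ) ≤ i := by exact_mod_cast hi
  have h2 : 2 / c < (i : ℝ) + 1 := by linarith
  rw [div_lt_iff₀ (by positivity)]
  rw [div_lt_iff₀ hc] at h2
  linarith

/-- approximation of a positive contraction by positive contractions at a finite stage -/
lemma approx {D : Sys} {L : Type} [CStarAlgebra L] {j : ∀ i, D.A i →⋆ₐ[ℂ] L} (hL : IsLim D.φ j)
    (yb : L) (hyb : ‖yb‖ ≤ 1) (η : ℝ) (hη : 0 < η) :
    ∃ (i : ℕ) (y : D.A i), ‖j i y‖ ≤ 1 ∧ ‖star (j i y) * j i y - star yb * yb‖ < η := by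
  set ε : ℝ := η / 8 with hε
  have hε0 : 0 < ε := by positivity
  obtain ⟨i, y₀, hy₀⟩ := hL.dense yb ε hε0
  have h0 : ‖j i y₀‖ ≤ 1 + ε := by
    have e : j i y₀ = yb - (yb - j i y₀) := by abel
    calc ‖j i y₀‖ = ‖yb - (yb - j i y₀)‖ := by rw [← e]
      _ ≤ ‖yb‖ + ‖yb - j i y₀‖ := norm_sub_le _ _
      _ ≤ 1 + ε := by linarith
  set c : ℝ := 1 / (1 + ε) with hc
  have hc0 : 0 < c := by positivity
  have hc1 : c * (1 + ε) = 1 := by
    rw [hc]
    field_simp
  have hc2 : c ≤ 1 := by nlinarith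
  refine ⟨i, (c : ℂ) • y₀, ?_, ?_⟩
  · rw [map_smul, norm_smul, Complex.norm_real, Real.norm_eq_abs, abs_of_pos hc0]
    calc c * ‖j i y₀‖ ≤ c * (1 + ε) := by gcongr
      _ = 1 := hc1
  · rw [map_smul]
    set w : L := (c : ℂ) • j i y₀ with hw
    have hw1 : ‖w‖ ≤ 1 := by
      rw [hw, norm_smul, Complex.norm_real, Real.norm_eq_abs, abs_of_pos hc0]
      calc c * ‖j i y₀‖ ≤ c * (1 + ε) := by gcongr
        _ = 1 := hc1
    have hw2 : ‖w - yb‖ ≤ 2 * ε := by
      have e : w - yb = (j i y₀ - yb) - ((1 - c : ℝ) : ℂ) • j i y₀ := by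
        rw [hw]
        push_cast
        rw [sub_smul, one_smul]
        abel
      rw [e]
      calc ‖(j i y₀ - yb) - ((1 - c : ℝ) : ℂ) • j i y₀‖
          ≤ ‖j i y₀ - yb‖ + ‖((1 - c : ℝ) : ℂ) • j i y₀‖ := norm_sub_le _ _
        _ = ‖yb - j i y₀‖ + (1 - c) * ‖j i y₀‖ := by
            rw [norm_smul, Complex.norm_real, Real.norm_eq_abs, abs_of_nonneg (by linarith),
              norm_sub_rev]
        _ ≤ ε + (1 - c) * (1 + ε) := by
            gcongr
        _ = 2 * ε := by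
            have : (1 - c) * (1 + ε) = 1 + ε - c * (1 + ε) := by ring
            rw [this, hc1]
            ring
    have e : star w * w - star yb * yb = star (w - yb) * w + star yb * (w - yb) := by
      rw [star_sub]
      noncomm_ring
    rw [e]
    calc ‖star (w - yb) * w + star yb * (w - yb)‖
        ≤ ‖star (w - yb) * w‖ + ‖star yb * (w - yb)‖ := norm_add_le _ _
      _ ≤ ‖star (w - yb)‖ * ‖w‖ + ‖star yb‖ * ‖w - yb‖ := by
          gcongr <;> exact norm_mul_le _ _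
      _ ≤ (2 * ε) * 1 + 1 * (2 * ε) := by
          rw [norm_star, norm_star]
          gcongr
      _ < η := by
          rw [hε]
          linarith


/-- the lower bound for the trace gives large spectral projections -/
lemma spec_rank (hSPEC : S_SPEC) (D : Sys) (i : ℕ) (a : D.A i) (ha : ∃ y, a = star y * y)
    (ha' : ∃ y, 1 - a = star y * y) (η : ℝ) (hη : 0 < η) (K : ℕ) (z : D.Z i) (hn : 0 < D.n i)
    (hK : (K : ℝ) + 2 * η * D.n i ≤ D.n i * (ntr (a z)).re) :
    ∃ q : Matrix (Fin (D.n i)) (Fin (D.n i)) ℂ, IsStarProjection q ∧ K ≤ q.rank ∧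
      ((cut η a) z - (η : ℂ) • q).PosSemidef := by
  obtain ⟨q, h1, h2, h3⟩ := (hSPEC (D.Z i) (D.n i) a ha ha' η hη).2 z
  refine ⟨q, h1, ?_, h3⟩
  have hn' : (0 : ℝ) < D.n i := by exact_mod_cast hn
  have e : (D.n i : ℝ) * (ntr (a z)).re = (a z).trace.re := by
    unfold ntr
    rw [Fintype.card_fin]
    have e1 : ((D.n i : ℂ))⁻¹ = (((D.n i : ℝ)⁻¹ : ℝ) : ℂ) := by
      push_cast
      rfl
    rw [e1, Complex.re_ofReal_mul]
    field_simp
  rw [e] at hK
  have h4 : (K : ℝ) ≤ q.rank := by linarith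
  exact_mod_cast h4

/-- the numbers -/
lemma numbers (xf s s' η₁ η n d ρ i : ℝ) (hi : 0 ≤ i) (hη : 2 * η ≤ η₁) (hn : i + 1 ≤ n)
    (hd : d ≤ 2 * s' * n) (hρ : ρ / n ≤ xf + 1 / (i + 2)) (hs : 2 / (i + 1) ≤ s - s') : ρ + (d / 2 + 1) + 2 * η * n ≤ n * (xf + s + η₁) := by
  have hn0 : 0 < n := by linarith
  have h1 : ρ ≤ n * (xf + 1 / (i + 2)) := by
    rw [div_le_iff₀ hn0] at hρ
    linarith
  have h2 : 1 ≤ n * (1 / (i + 1)) := by
    rw [mul_one_div, le_div_iff₀ (by linarith)]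
    linarith
  have h3 : n * (1 / (i + 2)) ≤ n * (1 / (i + 1)) := by
    apply mul_le_mul_of_nonneg_left _ hn0.le
    apply one_div_le_one_div_of_le <;> linarith
  have h4 : n * (2 / (i + 1)) ≤ n * (s - s') := mul_le_mul_of_nonneg_left hs hn0.le
  have h5 : n * (2 / (i + 1)) = n * (1 / (i + 1)) + n * (1 / (i + 1)) := by ring
  nlinarith

/-- the comparison in the block -/
lemma block (hCMP : S_CMP) (hNRM : S_NRM) (hSPEC : S_SPEC) (D : Sys) (hG : D.Good) (i : ℕ)
    (ρ σ : Bool → ℕ) (hρσ : ρ true ≤ σ true) (y G : D.A i) (hy : ‖y‖ ≤ 1) (η : ℝ) (hη : 0 < η)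
    (hG1 : ‖G * cut η (star y * y) * star G - pp D i σ‖ < 1)
    (hK : ∀ t : Cb (D.d i false), ((ρ false + (D.d i false / 2 + 1) : ℕ) : ℝ) + 2 * η * D.n i ≤
      D.n i * (ntr ((star y * y) ⟨false, t⟩)).re) :
    ∃ w : D.A i, w * cut η (star y * y) * star w = pp D i ρ := by
  have hn : 0 < D.n i := by
    have := n_ge D hG i
    omega
  have ha : ∃ y', star y * y = star y' * y' := ⟨y, rfl⟩
  have ha' : ∃ y', 1 - star y * y = star y' * y' := exists_one_sub y hy
  obtain ⟨y₂, hy₂⟩ := (hSPEC (D.Z i) (D.n i) (star y * y) ha ha' η hη).1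
  obtain ⟨w₂, hw₂, hw₂'⟩ := comp_false hCMP D i ρ (cut η (star y * y)) ⟨y₂, hy₂⟩ η hη
    (fun t => spec_rank hSPEC D i (star y * y) ha ha' η hη _ ⟨false, t⟩ hn (hK t))
  have hG2 := hG1
  rw [hy₂] at hG2
  obtain ⟨w₁, hw₁⟩ := comp_true hNRM D i ρ σ hρσ y₂ G hG2
  rw [← hy₂] at hw₁
  refine combine D i _ _ w₁ ?_ w₂ hw₂ hw₂'
  intro t
  have h := DFunLike.congr_fun hw₁ (⟨true, t⟩ : D.Z i)
  rw [ContinuousMap.mul_apply, ContinuousMap.mul_apply, ContinuousMap.star_apply,
    ContinuousMap.mul_apply, one_apply, if_pos rfl, mul_one] at h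
  exact h


theorem s_UP : S_UP := by
  intro hEX hMASS hEXT hUPT hPRJ hRNK hCMP hNRM hRD hSPEC D hF L _ j hL s s' hs hd hWit
  obtain ⟨x, z, b, hx, hz, ⟨yb, hyb⟩, ⟨yb', hyb'⟩, hzb, ht, hf, hnot⟩ := hWit
  subst hyb
  apply hnot
  have hG := hF.toGood
  obtain ⟨τt, hτt, -, ht1⟩ := hEXT D hF L j hL id (fun k => (⟨true, fun _ => 0⟩ : D.Z k))
    strictMono_id
  obtain ⟨τf, hτf, -, hf1⟩ := hEXT D hF L j hL id (fun k => (⟨false, fun _ => 0⟩ : D.Z k))
    strictMono_id
  have ht2 : (τt (j 0 (D.one 0 true))).re = 3 / 4 := ht1 true (fun _ => rfl)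
  have hf2 : (τf (j 0 (D.one 0 false))).re = 3 / 4 := hf1 false (fun _ => rfl)
  have ht3 : (τt (j 0 (D.one 0 false))).re = 1 / 4 := by
    have := (hMASS D hF L j hL τt hτt).2.2.2.2
    linarith
  have hxz := ht τt hτt ht3
  obtain ⟨Nx, hNx⟩ := ranks hEX hMASS hPRJ hRNK D hF L j hL x hx
  obtain ⟨i₁, hi₁⟩ := ranks hEX hMASS hPRJ hRNK D hF L j hL z hz
  obtain ⟨σ₁, hσ₁, ⟨u₁, hu₁, hu₁'⟩, -⟩ := hi₁ i₁ le_rfl
  have hxf' : ∀ τ ∈ TracialStates L, (τ (j 0 (D.one 0 false))).re = 3 / 4 →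
      (τ x).re = (τf x).re := by
    intro τ hτ h
    by_contra hne
    have hpos : 0 < |(τ x).re - (τf x).re| := abs_pos.2 (sub_ne_zero.2 hne)
    obtain ⟨i, hi1, hi2⟩ := ((ev_small _ hpos).and (eventually_ge_atTop Nx)).exists
    obtain ⟨ρ, -, -, h3⟩ := hNx i hi2
    have h4 := h3 τ hτ false h
    have h5 := h3 τf hτf false hf2
    have h6 : |(τ x).re - (τf x).re| ≤ 1 / ((i : ℝ) + 2) + 1 / ((i : ℝ) + 2) := by
      have e : (τ x).re - (τf x).re = ((τ x).re - (ρ false : ℝ) / D.n i) -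
        ((τf x).re - (ρ false : ℝ) / D.n i) := by ring
      rw [e]
      exact (abs_sub _ _).trans (add_le_add h4 h5)
    have h7 : 1 / ((i : ℝ) + 2) ≤ 1 / ((i : ℝ) + 1) := by
      apply one_div_le_one_div_of_le
      · positivity
      · linarith
    have h8 : 2 / ((i : ℝ) + 1) = 1 / ((i : ℝ) + 1) + 1 / ((i : ℝ) + 1) := by ring
    linarith
  obtain ⟨η₁, N₁, hη₁, hN₁⟩ := hUPT hEXT D hF L j hL false (star yb * yb) ((τf x).re + s)
    (fun τ hτ h => by
      have h1 := hf τ hτ h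
      rw [hxf' τ hτ h] at h1
      exact h1)
  obtain ⟨hRD1, hRD2, hRD3, hRD4, hRD5⟩ := hRD hNRM L
  obtain ⟨v₀, hv₀⟩ := hRD4 z yb hz hzb
  have hybn : ‖yb‖ ≤ 1 := norm_le_of_one_sub yb yb' hyb'
  -- the element `g₁`
  obtain ⟨g₁, hg₁⟩ : ∃ g₁ : L, g₁ * (star yb * yb) * star g₁ = j i₁ (pp D i₁ σ₁) := by
    refine ⟨u₁ * v₀, ?_⟩
    have hp := (pp_proj D i₁ σ₁).isIdempotentElem.eq
    calc u₁ * v₀ * (star yb * yb) * star (u₁ * v₀)
        = u₁ * (v₀ * (star yb * yb) * star v₀) * star u₁ := by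
          rw [star_mul]
          noncomm_ring
      _ = (u₁ * star u₁) * (u₁ * star u₁) := by
          rw [hv₀, ← hu₁]
          noncomm_ring
      _ = j i₁ (pp D i₁ σ₁) := by
          rw [hu₁', ← map_mul, hp]
  obtain ⟨M, hM⟩ : ∃ M : ℝ, M = ‖g₁‖ + 1 := ⟨_, rfl⟩
  have hM0 : 0 < M := by
    rw [hM]
    linarith [norm_nonneg g₁]
  obtain ⟨ε, hε0, hε1, hε2⟩ : ∃ ε : ℝ, 0 < ε ∧ ε ≤ 1 ∧ 8 * M * ε ≤ 1 := by
    refine ⟨min 1 (1 / (8 * M)), by positivity, min_le_left _ _, ?_⟩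
    calc 8 * M * min 1 (1 / (8 * M)) ≤ 8 * M * (1 / (8 * M)) := by
          gcongr
          exact min_le_right _ _
      _ = 1 := by field_simp
  obtain ⟨η, hη0, hη1, hη2⟩ : ∃ η : ℝ, 0 < η ∧ 2 * η ≤ η₁ ∧ 8 * M ^ 2 * η ≤ 1 := by
    refine ⟨min (η₁ / 2) (1 / (8 * M ^ 2)), by positivity, ?_, ?_⟩
    · have := min_le_left (η₁ / 2) (1 / (8 * M ^ 2))
      linarith
    · calc 8 * M ^ 2 * min (η₁ / 2) (1 / (8 * M ^ 2)) ≤ 8 * M ^ 2 * (1 / (8 * M ^ 2)) := by
            gcongr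
            exact min_le_right _ _
        _ = 1 := by field_simp
  obtain ⟨i₂, g', hg'⟩ := hL.dense g₁ ε hε0
  obtain ⟨i₃, y₃, hy₃, hy₃'⟩ := approx hL yb hybn η hη0
  -- the stage
  obtain ⟨i, hid, hi1, hi2, hi3, hiN, hix, hsm1, hsm2⟩ := (hd.and ((eventually_ge_atTop i₁).and
    ((eventually_ge_atTop i₂).and ((eventually_ge_atTop i₃).and ((eventually_ge_atTop N₁).and
    ((eventually_ge_atTop Nx).and ((ev_small (s - s') (by linarith)).and
      (ev_small ((τt z).re - (τt x).re) (by linarith))))))))).exists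
  obtain ⟨ρ, hρ, ⟨v, hv1, hv2⟩, hρτ⟩ := hNx i hix
  obtain ⟨P₁, hP₁⟩ := lift hL i₁ i hi1 (pp D i₁ σ₁)
  obtain ⟨G, hG'⟩ := lift hL i₂ i hi2 g'
  obtain ⟨y, hy⟩ := lift hL i₃ i hi3 y₃
  have hP₁p : IsStarProjection P₁ := by
    constructor
    · show P₁ * P₁ = P₁
      apply hL.inj i
      rw [map_mul, hP₁, ← map_mul, (pp_proj D i₁ σ₁).isIdempotentElem.eq]
    · show star P₁ = P₁
      apply hL.inj i
      rw [map_star, hP₁, ← map_star, (pp_proj D i₁ σ₁).isSelfAdjoint.star_eq]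
  obtain ⟨σ, hσ, w, hw1, hw2⟩ := (hPRJ D hG i 1).1 (Matrix.of fun _ _ => P₁)
    (Pool.Agent.TH249.isPrj_of P₁ hP₁p)
  have hσ' : ∀ b, σ b ≤ D.n i := fun b => by simpa using hσ b
  obtain ⟨u', hu1, hu2⟩ : ∃ u' : D.A i, star u' * u' = P₁ ∧ u' * star u' = pp D i σ := by
    refine ⟨w 0 0, ?_, ?_⟩
    · have h := congrFun (congrFun hw1 0) 0
      rw [Matrix.mul_apply, Fin.sum_univ_one, Matrix.conjTranspose_apply] at h
      exact h
    · have h := congrFun (congrFun hw2 0) 0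
      rw [Matrix.mul_apply, Fin.sum_univ_one, Matrix.conjTranspose_apply] at h
      exact h
  -- the traces of `z`
  have hzt : τt z = τt (j i (pp D i σ)) := by
    have htr := hτt.2.2
    calc τt z = τt (star u₁ * u₁) := by rw [hu₁]
      _ = τt (u₁ * star u₁) := htr _ _
      _ = τt (star (j i u') * j i u') := by
          rw [hu₁', ← map_star, ← map_mul, hu1, hP₁]
      _ = τt (j i u' * star (j i u')) := htr _ _
      _ = τt (j i (pp D i σ)) := by rw [← map_star, ← map_mul, hu2]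
  have hρσ : ρ true ≤ σ true := by
    have h1 := hρτ τt hτt true ht2
    have h2 := rank_close hMASS hPRJ D hF L j hL i σ hσ' τt hτt true ht2
    rw [← hzt] at h2
    have h7 : 1 / ((i : ℝ) + 2) ≤ 1 / ((i : ℝ) + 1) := by
      apply one_div_le_one_div_of_le
      · positivity
      · linarith
    have h8 : 2 / ((i : ℝ) + 1) = 1 / ((i : ℝ) + 1) + 1 / ((i : ℝ) + 1) := by ring
    rw [abs_le] at h1 h2
    have h3 : (ρ true : ℝ) / D.n i ≤ (σ true : ℝ) / D.n i := by linarith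
    have hn : (0 : ℝ) < D.n i := by
      have := n_ge D hG i
      have h' : 0 < D.n i := by omega
      exact_mod_cast h'
    rw [div_le_div_iff_of_pos_right hn] at h3
    exact_mod_cast h3
  have hyn : ‖y‖ ≤ 1 := by
    rw [← Pool.Agent.H188R3.norm_map_inj (j i) (hL.inj i) y, hy]
    exact hy₃
  have hjy : ‖star (j i y) * j i y - star yb * yb‖ < η := by
    rw [hy]
    exact hy₃'
  have hGest : ‖G * cut η (star y * y) * star G - P₁‖ ≤ 1 / 2 := by
    rw [← Pool.Agent.H188R3.norm_map_inj (j i) (hL.inj i)]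
    rw [map_sub, map_mul, map_mul, map_star]
    refine est (star yb * yb) g₁ (j i G) (j i (cut η (star y * y))) (j i P₁) ε η M
      (norm_sq_le_one yb hybn) (by rw [hg₁, hP₁]) ?_ hM.ge hε0.le hε1 hε2 ?_ hη0.le hη2
    · rw [hG', norm_sub_rev]
      exact hg'.le
    · have e : j i (cut η (star y * y)) - star yb * yb =
          j i (cut η (star y * y) - star y * y) + (star (j i y) * j i y - star yb * yb) := by
        rw [map_sub, map_mul, map_star]
        abel
      rw [e]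
      calc ‖j i (cut η (star y * y) - star y * y) + (star (j i y) * j i y - star yb * yb)‖
          ≤ ‖j i (cut η (star y * y) - star y * y)‖ + ‖star (j i y) * j i y - star yb * yb‖ :=
            norm_add_le _ _
        _ ≤ η + η := by
            rw [Pool.Agent.H188R3.norm_map_inj (j i) (hL.inj i)]
            exact add_le_add (cut_norm y η hη0.le) hjy.le
        _ = 2 * η := by ring
  have hGest2 := transfer G (cut η (star y * y)) P₁ (pp D i σ) u' hu1 hu2 (pp_proj D i σ) hGest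
  obtain ⟨w, hw⟩ := block hCMP hNRM hSPEC D hG i ρ σ hρσ y (u' * G) hyn η hη0 hGest2 (by
    intro t
    have h1 := hN₁ i hiN (star y * y) (by
      rw [map_mul, map_star]
      linarith) (⟨false, t⟩ : D.Z i) rfl
    have h2 := hρτ τf hτf false hf2
    rw [abs_le] at h2
    have h3 : ((i : ℝ) + 1) ≤ D.n i := by
      have := n_ge D hG i
      exact_mod_cast this
    have h4 := numbers (τf x).re s s' η₁ η (D.n i) (D.d i false) (ρ false) i (Nat.cast_nonneg i)
      hη1 h3 hid (by linarith) hsm1.le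
    have h5 : (((D.d i false / 2 : ℕ)) : ℝ) ≤ (D.d i false : ℝ) / 2 := by
      have := @Nat.cast_div_le ℝ _ _ _ (D.d i false) 2
      simpa using this
    have h6 : (D.n i : ℝ) * ((τf x).re + s + η₁) ≤
        D.n i * (ntr ((star y * y) (⟨false, t⟩ : D.Z i))).re := by
      apply mul_le_mul_of_nonneg_left h1
      linarith [(Nat.cast_nonneg i : (0 : ℝ) ≤ i)]
    rw [Nat.cast_add, Nat.cast_add, Nat.cast_one]
    linarith)
  -- the chain
  have c1 : CLE x (j i (pp D i ρ)) := by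
    have h1 : IsStarProjection (star (star v) * star v) := by
      rw [star_star, hv2]
      constructor
      · show _ * _ = _
        rw [← map_mul, (pp_proj D i ρ).isIdempotentElem.eq]
      · show star _ = _
        rw [← map_star, (pp_proj D i ρ).isSelfAdjoint.star_eq]
    have h2 := hRD5 (star v) h1
    rw [star_star, hv1, hv2] at h2
    exact h2
  have c2 : CLE (j i (pp D i ρ)) (j i (cut η (star y * y))) := by
    have h2 := hRD3 (j i w) (j i (cut η (star y * y)))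
    rw [← map_star, ← map_mul, ← map_mul, hw] at h2
    exact h2
  have c3 : CLE (j i (cut η (star y * y))) (star yb * yb) := by
    rw [map_cut]
    exact hRD1 (j i y) yb η hη0 hjy
  exact hRD2 _ _ _ c1 (hRD2 _ _ _ c2 c3)


end Pool.Agent.H389.ELUP
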