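import Mathlib

/-!
# Orbits of groups generated by reflections on the sphere

`SD`: a nonempty closed subset of the unit sphere of a Euclidean space which is invariant under
the reflections in all differences of a spanning set `P ∋ 0` with `0` in the closure of
`P \ {0}` is the whole sphere.
-/

open scoped InnerProductSpace
open Filter Topology

namespace Pool.Agent.H389.Sphere

variable {E : Type*} [NormedAddCommGroup E] [InnerProductSpace ℝ E]

/-- The reflection in the vector `d` (the identity for `d = 0`). -/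
noncomputable def rf (d x : E) : E := x - (2 * ⟪x, d⟫_ℝ / ⟪d, d⟫_ℝ) • d

theorem rf_zero (x : E) : rf 0 x = x := by simp [rf]

theorem inner_self_ne {d : E} (hd : d ≠ 0) : ⟪d, d⟫_ℝ ≠ 0 := by
  simpa using hd

theorem rf_add (d x y : E) : rf d (x + y) = rf d x + rf d y := by
  simp only [rf, inner_add_left]
  rw [mul_add, add_div, add_smul]
  abel

theorem rf_smul_right (d x : E) (c : ℝ) : rf d (c • x) = c • rf d x := by
  simp only [rf, inner_smul_left, smul_sub, smul_smul, RCLike.conj_to_real]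
  congr 2
  ring

theorem rf_smul_left (d x : E) {c : ℝ} (hc : c ≠ 0) : rf (c • d) x = rf d x := by
  by_cases hd : d = 0
  · simp [hd, rf]
  have h := inner_self_ne hd
  simp only [rf, inner_smul_left, inner_smul_right, smul_smul, RCLike.conj_to_real]
  congr 2
  field_simp

theorem inner_rf_rf (d x y : E) : ⟪rf d x, rf d y⟫_ℝ = ⟪x, y⟫_ℝ := by
  by_cases hd : d = 0
  · simp [hd, rf]
  have h := inner_self_ne hd
  simp only [rf, inner_sub_left, inner_sub_right, inner_smul_left, inner_smul_right,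
    RCLike.conj_to_real]
  rw [real_inner_comm y d]
  field_simp
  ring

theorem rf_rf (d x : E) : rf d (rf d x) = x := by
  by_cases hd : d = 0
  · simp [hd, rf]
  have h := inner_self_ne hd
  simp only [rf, inner_sub_left, inner_smul_left, RCLike.conj_to_real]
  rw [sub_sub, ← add_smul]
  have : 2 * ⟪x, d⟫_ℝ / ⟪d, d⟫_ℝ +
      2 * (⟪x, d⟫_ℝ - 2 * ⟪x, d⟫_ℝ / ⟪d, d⟫_ℝ * ⟪d, d⟫_ℝ) / ⟪d, d⟫_ℝ = 0 := by
    field_simp
    ring
  rw [this]
  simp

theorem rf_conj (d d' x : E) : rf (rf d d') x = rf d (rf d' (rf d x)) := by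
  have h1 : ⟪rf d d', rf d d'⟫_ℝ = ⟪d', d'⟫_ℝ := inner_rf_rf _ _ _
  have h2 : ⟪x, rf d d'⟫_ℝ = ⟪rf d x, d'⟫_ℝ := by
    rw [← inner_rf_rf d x (rf d d'), rf_rf]
  have h3 : rf d (rf d' (rf d x)) = rf d (rf d x + (-(2 * ⟪rf d x, d'⟫_ℝ / ⟪d', d'⟫_ℝ)) • d') := by
    congr 1
    simp [rf, sub_eq_add_neg]
  rw [h3, rf_add, rf_smul_right, rf_rf]
  conv_lhs => rw [rf, h1, h2]
  rw [neg_smul, sub_eq_add_neg]

theorem norm_rf (d x : E) : ‖rf d x‖ = ‖x‖ := by
  have := inner_rf_rf d x x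
  rw [real_inner_self_eq_norm_sq, real_inner_self_eq_norm_sq] at this
  exact (sq_eq_sq₀ (norm_nonneg _) (norm_nonneg _)).1 this

/-- If `‖f‖ = ‖f'‖` then the reflection in `f - f'` maps `f` to `f'`. -/
theorem rf_sub (f f' : E) (h : ‖f‖ = ‖f'‖) : rf (f - f') f = f' := by
  by_cases hd : f - f' = 0
  · rw [hd, rf_zero]
    exact sub_eq_zero.1 hd
  have h0 := inner_self_ne hd
  have h1 : ⟪f - f', f - f'⟫_ℝ = 2 * ⟪f, f - f'⟫_ℝ := by
    simp only [inner_sub_left, inner_sub_right]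
    rw [real_inner_comm f' f, real_inner_self_eq_norm_sq, real_inner_self_eq_norm_sq, h]
    ring
  rw [rf, ← h1, div_self h0]
  simp

theorem continuousAt_rf {d : E} (hd : d ≠ 0) (a : E) : ContinuousAt (fun d => rf d a) d := by
  unfold rf
  have h := inner_self_ne hd
  have h1 : ContinuousAt (fun d : E => ⟪a, d⟫_ℝ) d := by fun_prop
  have h2 : ContinuousAt (fun d : E => ⟪d, d⟫_ℝ) d := by fun_prop
  exact continuousAt_const.sub (((continuousAt_const.mul h1).div h2 h).smul continuousAt_id)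

/-- The vectors whose reflection preserves `A`. -/
def DD (A : Set E) : Set E := {d | ∀ a ∈ A, rf d a ∈ A}

theorem zero_mem_DD (A : Set E) : (0 : E) ∈ DD A := fun a ha => by rwa [rf_zero]

theorem smul_mem_DD {A : Set E} {d : E} (hd : d ∈ DD A) (c : ℝ) : c • d ∈ DD A := by
  by_cases hc : c = 0
  · rw [hc, zero_smul]
    exact zero_mem_DD A
  · intro a ha
    rw [rf_smul_left _ _ hc]
    exact hd a ha

theorem neg_mem_DD {A : Set E} {d : E} (hd : d ∈ DD A) : -d ∈ DD A := by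
  have := smul_mem_DD hd (-1)
  simpa using this

theorem of_smul_mem_DD {A : Set E} {d : E} {c : ℝ} (hc : c ≠ 0) (hd : c • d ∈ DD A) :
    d ∈ DD A := by
  have := smul_mem_DD hd c⁻¹
  rwa [smul_smul, inv_mul_cancel₀ hc, one_smul] at this

theorem rf_mem_DD {A : Set E} {d d' : E} (hd : d ∈ DD A) (hd' : d' ∈ DD A) : rf d d' ∈ DD A := by
  intro a ha
  rw [rf_conj]
  exact hd _ (hd' _ (hd _ ha))

theorem isClosed_DD {A : Set E} (hA : IsClosed A) : IsClosed (DD A) := by
  refine isSeqClosed_iff_isClosed.1 ?_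
  intro x d hx hd
  by_cases h0 : d = 0
  · rw [h0]
    exact zero_mem_DD A
  intro a ha
  have h1 : Tendsto (fun k => rf (x k) a) atTop (𝓝 (rf d a)) :=
    ((continuousAt_rf h0 a).tendsto).comp hd
  exact hA.mem_of_tendsto h1 (Eventually.of_forall fun k => hx k a ha)

/-! ### The closure of the latitudes -/

theorem latitudes {T : Set ℝ} (hT : ∀ t ∈ T, 0 ≤ t → t ≤ 1 → ∀ c, 0 ≤ c → c ≤ 1 →
    c * (2 * t * √(1 - t ^ 2)) ∈ T) {t₀ : ℝ} (h0 : t₀ ∈ T) (h1 : 0 < t₀) (h2 : t₀ < 1) :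
    ∀ t, 0 ≤ t → t ≤ 1 → t ∈ T := by
  -- first an initial interval
  have hb : ∃ b > 0, ∀ t, 0 ≤ t → t ≤ b → t ∈ T := by
    have h3 : 0 < 1 - t₀ ^ 2 := by nlinarith
    have h4 : 0 < √(1 - t₀ ^ 2) := Real.sqrt_pos.2 h3
    refine ⟨2 * t₀ * √(1 - t₀ ^ 2), by positivity, ?_⟩
    intro t ht ht'
    have h5 : 0 < 2 * t₀ * √(1 - t₀ ^ 2) := by positivity
    have := hT t₀ h0 h1.le h2.le (t / (2 * t₀ * √(1 - t₀ ^ 2))) (by positivity)
      ((div_le_one h5).2 ht')
    rwa [div_mul_cancel₀ _ h5.ne'] at this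
  -- a large interval
  have key : ∀ b > 0, b ^ 2 ≤ 1 / 2 → (∀ t, 0 ≤ t → t ≤ b → t ∈ T) →
      ∀ t, 0 ≤ t → t ≤ √2 * b → t ∈ T := by
    intro b hb hb2 hbT t ht ht'
    have h3 : (1 : ℝ) / 2 ≤ 1 - b ^ 2 := by linarith
    have h4 : √2 ≤ 2 * √(1 - b ^ 2) := by
      have : √(1 / 2) ≤ √(1 - b ^ 2) := Real.sqrt_le_sqrt h3
      have h5 : √2 = 2 * √(1 / 2) := by
        rw [show (2 : ℝ) = 2 ^ 2 * (1 / 2) by norm_num]
        rw [Real.sqrt_mul (by norm_num), Real.sqrt_sq (by norm_num)]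
        norm_num
      rw [h5]
      linarith
    have h6 : 0 < √(1 - b ^ 2) := Real.sqrt_pos.2 (by linarith)
    have h5 : 0 < 2 * b * √(1 - b ^ 2) := by positivity
    have h7 : t ≤ 2 * b * √(1 - b ^ 2) := by nlinarith
    have hb1 : b ≤ 1 := by nlinarith
    have := hT b (hbT b hb.le le_rfl) hb.le hb1 (t / (2 * b * √(1 - b ^ 2))) (by positivity)
      ((div_le_one h5).2 h7)
    rwa [div_mul_cancel₀ _ h5.ne'] at this
  have hfin : ∃ b > 0, 1 / 2 < b ^ 2 ∧ ∀ t, 0 ≤ t → t ≤ b → t ∈ T := by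
    obtain ⟨b, hb, hbT⟩ := hb
    by_contra hcon
    push Not at hcon
    have : ∀ k : ℕ, ∀ t, 0 ≤ t → t ≤ (√2) ^ k * b → t ∈ T := by
      intro k
      induction k with
      | zero => simpa using hbT
      | succ k ih =>
        have hpos : 0 < (√2) ^ k * b := by positivity
        have hle : ((√2) ^ k * b) ^ 2 ≤ 1 / 2 := by
          by_contra hlt
          push Not at hlt
          obtain ⟨t, ht, ht', htT⟩ := hcon _ hpos hlt
          exact htT (ih t ht ht')
        intro t ht ht'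
        refine key _ hpos hle ih t ht ?_
        rw [pow_succ] at ht'
        linarith
    have h2' : (1 : ℝ) < √2 := by
      rw [show (1 : ℝ) = √1 by simp]
      exact Real.sqrt_lt_sqrt (by norm_num) (by norm_num)
    obtain ⟨k, hk⟩ := pow_unbounded_of_one_lt (1 / b) h2'
    have hk' : 1 < (√2) ^ k * b := by
      rw [div_lt_iff₀ hb] at hk
      linarith
    obtain ⟨t, ht, ht', htT⟩ := hcon ((√2) ^ k * b) (by positivity) (by nlinarith)
    exact htT (this k t ht ht')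
  obtain ⟨b, hb, hb2, hbT⟩ := hfin
  have hs : √(1 / 2) ∈ T := by
    refine hbT _ (Real.sqrt_nonneg _) ?_
    rw [Real.sqrt_le_left hb.le]
    exact hb2.le
  intro t ht ht'
  have hsq : (√(1 / 2)) ^ 2 = (1 / 2 : ℝ) := Real.sq_sqrt (by norm_num)
  have hs1 : √(1 / 2) ≤ (1 : ℝ) := by
    rw [Real.sqrt_le_left (by norm_num)]
    norm_num
  have := hT _ hs (Real.sqrt_nonneg _) hs1 t ht ht'
  rw [hsq] at this
  have h3 : 2 * √(1 / 2) * √(1 - 1 / 2 : ℝ) = 1 := by
    rw [show (1 - 1 / 2 : ℝ) = 1 / 2 by norm_num, mul_assoc, ← sq, hsq]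
    norm_num
  rwa [h3, mul_one] at this


/-! ### Rotating and extending -/

theorem rf_of_orth {d x : E} (h : ⟪x, d⟫_ℝ = 0) : rf d x = x := by
  simp [rf, h]

theorem rot {A : Set E} {F : Submodule ℝ E} (hF : ∀ f ∈ F, f ∈ DD A) {e : E}
    (he : ∀ f ∈ F, ⟪f, e⟫_ℝ = 0) {g f : E} (hg : g ∈ F) (hf : f ∈ F) (hn : ‖g‖ = ‖f‖) {s : ℝ}
    (h : g + s • e ∈ DD A) : f + s • e ∈ DD A := by
  have h1 := rf_mem_DD (hF _ (F.sub_mem hg hf)) h
  rw [rf_add, rf_sub g f hn, rf_smul_right, rf_of_orth] at h1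
  · exact h1
  · rw [real_inner_comm]
    exact he _ (F.sub_mem hg hf)

theorem extend {A : Set E} {F : Submodule ℝ E} (hF : ∀ f ∈ F, f ∈ DD A)
    {u v : E} (hu : u ∈ F) (hv : v ∈ F) (hu1 : ‖u‖ = 1) (hv1 : ‖v‖ = 1) (huv : ⟪u, v⟫_ℝ = 0)
    {f₀ e₀ : E} (hf₀ : f₀ ∈ F) (hf0 : f₀ ≠ 0) (he₀ : ∀ f ∈ F, ⟪f, e₀⟫_ℝ = 0) (he0 : e₀ ≠ 0)
    (hd : f₀ + e₀ ∈ DD A) :
    ∀ f ∈ F, ∀ t : ℝ, f + t • e₀ ∈ DD A := by
  have hn0 : 0 < ‖e₀‖ := norm_pos_iff.2 he0
  have hm0 : 0 < ‖f₀‖ := norm_pos_iff.2 hf0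
  set e : E := (‖e₀‖)⁻¹ • e₀ with he_def
  have he1 : ‖e‖ = 1 := by
    rw [he_def, norm_smul, norm_inv, norm_norm, inv_mul_cancel₀ hn0.ne']
  have he : ∀ f ∈ F, ⟪f, e⟫_ℝ = 0 := by
    intro f hf
    rw [he_def, inner_smul_right, he₀ f hf, mul_zero]
  have hee : ⟪e, e⟫_ℝ = 1 := by rw [real_inner_self_eq_norm_sq, he1]; norm_num
  have huu : ⟪u, u⟫_ℝ = 1 := by rw [real_inner_self_eq_norm_sq, hu1]; norm_num
  have hvv : ⟪v, v⟫_ℝ = 1 := by rw [real_inner_self_eq_norm_sq, hv1]; norm_num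
  have hvu : ⟪v, u⟫_ℝ = 0 := by rw [real_inner_comm]; exact huv
  have hee₀ : e₀ = ‖e₀‖ • e := by
    rw [he_def, smul_smul, mul_inv_cancel₀ hn0.ne', one_smul]
  let T : Set ℝ := {t | ∀ f ∈ F, ‖f‖ ^ 2 + t ^ 2 = 1 → f + t • e ∈ DD A}
  have hT : ∀ t ∈ T, 0 ≤ t → t ≤ 1 → ∀ c, 0 ≤ c → c ≤ 1 →
      c * (2 * t * √(1 - t ^ 2)) ∈ T := by
    intro t ht ht0 ht1 c hc0 hc1 f hf hfn
    set s := c * (2 * t * √(1 - t ^ 2)) with hs
    have hr : √(1 - t ^ 2) ^ 2 = 1 - t ^ 2 := Real.sq_sqrt (by nlinarith)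
    have hc : √(1 - c ^ 2) ^ 2 = 1 - c ^ 2 := Real.sq_sqrt (by nlinarith)
    set r := √(1 - t ^ 2) with hr_def
    set c' := √(1 - c ^ 2) with hc'_def
    have hx : r • u + t • e ∈ DD A := by
      apply ht _ (F.smul_mem _ hu)
      rw [norm_smul, hu1, mul_one, Real.norm_eq_abs, sq_abs, hr]
      ring
    have hf' : c • u + c' • v ∈ F := F.add_mem (F.smul_mem _ hu) (F.smul_mem _ hv)
    have hxx : ⟪r • u + t • e, r • u + t • e⟫_ℝ = 1 := by
      simp only [inner_add_left, inner_add_right, inner_smul_left, inner_smul_right,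
        RCLike.conj_to_real, hee, huu, he u hu, real_inner_comm u e]
      nlinarith
    have hfx : ⟪c • u + c' • v, r • u + t • e⟫_ℝ = c * r := by
      simp only [inner_add_left, inner_add_right, inner_smul_left, inner_smul_right,
        RCLike.conj_to_real, huu, he u hu, he v hv, hvu]
      ring
    have h1 := rf_mem_DD hx (hF _ hf')
    set g : E := c • u + c' • v - (2 * (c * r) * r) • u with hg
    have h2 : rf (r • u + t • e) (c • u + c' • v) = g - s • e := by
      rw [rf, hxx, hfx, hg, hs, div_one, smul_add, smul_smul, smul_smul]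
      rw [show c * (2 * t * r) = 2 * (c * r) * t by ring]
      abel
    rw [h2] at h1
    have hgF : g ∈ F := F.sub_mem hf' (F.smul_mem _ hu)
    have hgn : ‖g‖ ^ 2 + s ^ 2 = 1 := by
      rw [← real_inner_self_eq_norm_sq, hg, hs]
      simp only [inner_add_left, inner_add_right, inner_sub_left, inner_sub_right,
        inner_smul_left, inner_smul_right, RCLike.conj_to_real, huu, hvv, hvu, huv]
      have : c ^ 2 + c' ^ 2 = 1 := by rw [hc]; ring
      have hr' : r ^ 2 + t ^ 2 = 1 := by rw [hr]; ring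
      linear_combination this + (4 * c ^ 2 * r ^ 2) * hr'
    have h3 := neg_mem_DD h1
    rw [neg_sub, sub_eq_add_neg, add_comm] at h3
    refine rot hF he (F.neg_mem hgF) hf ?_ h3
    rw [norm_neg]
    have : ‖g‖ ^ 2 = ‖f‖ ^ 2 := by linarith
    exact (sq_eq_sq₀ (norm_nonneg _) (norm_nonneg _)).1 this
  set N := √(‖f₀‖ ^ 2 + ‖e₀‖ ^ 2) with hN_def
  have hN : N ^ 2 = ‖f₀‖ ^ 2 + ‖e₀‖ ^ 2 := Real.sq_sqrt (by positivity)
  have hN0 : 0 < N := Real.sqrt_pos.2 (by positivity)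
  have ht0 : ‖e₀‖ / N ∈ T := by
    intro f hf hfn
    have h1 := smul_mem_DD hd N⁻¹
    rw [smul_add] at h1
    nth_rewrite 1 [hee₀] at h1
    rw [smul_smul] at h1
    rw [div_eq_inv_mul]
    refine rot hF he (F.smul_mem _ hf₀) hf ?_ h1
    rw [norm_smul, norm_inv, Real.norm_eq_abs, abs_of_pos hN0]
    have : (N⁻¹ * ‖f₀‖) ^ 2 = ‖f‖ ^ 2 := by
      have h5 : ‖f‖ ^ 2 = 1 - (‖e₀‖ / N) ^ 2 := by linarith
      rw [h5, mul_pow, div_pow, inv_pow]
      field_simp
      linarith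
    exact (sq_eq_sq₀ (by positivity) (norm_nonneg _)).1 this
  have hall := latitudes hT ht0 (by positivity) (by
    rw [div_lt_one hN0]
    nlinarith)
  have hmain : ∀ f ∈ F, ∀ t : ℝ, 0 ≤ t → f + t • e₀ ∈ DD A := by
    intro f hf t ht
    by_cases hz : ‖f‖ ^ 2 + (t * ‖e₀‖) ^ 2 = 0
    · have h1 : ‖f‖ ^ 2 = 0 := by nlinarith [sq_nonneg ‖f‖, sq_nonneg (t * ‖e₀‖)]
      have h2 : (t * ‖e₀‖) ^ 2 = 0 := by nlinarith [sq_nonneg ‖f‖, sq_nonneg (t * ‖e₀‖)]
      have h3 : f = 0 := by simpa using h1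
      have h4 : t = 0 := by
        have := pow_eq_zero_iff (two_ne_zero) |>.1 h2
        rcases mul_eq_zero.1 this with h | h
        · exact h
        · exact absurd h hn0.ne'
      rw [h3, h4]
      simpa using zero_mem_DD A
    · have hpos : 0 < ‖f‖ ^ 2 + (t * ‖e₀‖) ^ 2 :=
        lt_of_le_of_ne (by positivity) (Ne.symm hz)
      set N' := √(‖f‖ ^ 2 + (t * ‖e₀‖) ^ 2) with hN'_def
      have hN' : N' ^ 2 = ‖f‖ ^ 2 + (t * ‖e₀‖) ^ 2 := Real.sq_sqrt hpos.le
      have hN'0 : 0 < N' := Real.sqrt_pos.2 hpos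
      apply of_smul_mem_DD (c := N'⁻¹) (inv_ne_zero hN'0.ne')
      have hle : t * ‖e₀‖ / N' ≤ 1 := by
        rw [div_le_one hN'0]
        nlinarith [sq_nonneg ‖f‖, mul_nonneg ht hn0.le]
      have h5 := hall (t * ‖e₀‖ / N') (by positivity) hle (N'⁻¹ • f) (F.smul_mem _ hf) (by
        rw [norm_smul, norm_inv, Real.norm_eq_abs, abs_of_pos hN'0, mul_pow, div_pow, inv_pow]
        field_simp
        linarith)
      rw [smul_add]
      nth_rewrite 1 [hee₀]
      rw [smul_smul, smul_smul]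
      convert h5 using 3
      field_simp
  intro f hf t
  rcases le_total 0 t with ht | ht
  · exact hmain f hf t ht
  · have := neg_mem_DD (hmain (-f) (F.neg_mem hf) (-t) (by linarith))
    rw [neg_add, neg_neg, neg_smul, neg_neg] at this
    exact this

/-! ### A plane from an accumulation point -/

theorem chain {A : Set E} {d e : E} (hd : ‖d‖ = 1) (he : ‖e‖ = 1) (hde : ⟪d, e⟫_ℝ = 0) {θ : ℝ}
    (h0 : d ∈ DD A) (h1 : Real.cos θ • d + Real.sin θ • e ∈ DD A) (m : ℕ) :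
    Real.cos (m * θ) • d + Real.sin (m * θ) • e ∈ DD A := by
  have hdd : ⟪d, d⟫_ℝ = 1 := by rw [real_inner_self_eq_norm_sq, hd]; norm_num
  have hee : ⟪e, e⟫_ℝ = 1 := by rw [real_inner_self_eq_norm_sq, he]; norm_num
  have hed : ⟪e, d⟫_ℝ = 0 := by rw [real_inner_comm]; exact hde
  suffices h : ∀ m : ℕ, Real.cos (m * θ) • d + Real.sin (m * θ) • e ∈ DD A ∧
      Real.cos ((m + 1 : ℕ) * θ) • d + Real.sin ((m + 1 : ℕ) * θ) • e ∈ DD A from (h m).1
  intro m
  induction m with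
  | zero =>
    refine ⟨by simpa using h0, by simpa using h1⟩
  | succ m ih =>
    refine ⟨ih.2, ?_⟩
    have h2 := neg_mem_DD (rf_mem_DD ih.2 ih.1)
    set a := ((m + 1 : ℕ) : ℝ) * θ with ha
    have hm : (m : ℝ) * θ = a - θ := by rw [ha]; push_cast; ring
    have hm2 : ((m + 1 + 1 : ℕ) : ℝ) * θ = a + θ := by rw [ha]; push_cast; ring
    rw [hm2]
    rw [hm] at h2
    convert h2 using 1
    have hvv : ⟪Real.cos a • d + Real.sin a • e, Real.cos a • d + Real.sin a • e⟫_ℝ = 1 := by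
      simp only [inner_add_left, inner_add_right, inner_smul_left, inner_smul_right,
        RCLike.conj_to_real, hdd, hee, hde, hed]
      have := Real.sin_sq_add_cos_sq a
      linear_combination this
    have huv : ⟪Real.cos (a - θ) • d + Real.sin (a - θ) • e,
        Real.cos a • d + Real.sin a • e⟫_ℝ = Real.cos θ := by
      simp only [inner_add_left, inner_add_right, inner_smul_left, inner_smul_right,
        RCLike.conj_to_real, hdd, hee, hde, hed]
      rw [Real.cos_sub, Real.sin_sub]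
      have := Real.sin_sq_add_cos_sq a
      linear_combination (Real.cos θ) * this
    rw [rf, hvv, huv, div_one, smul_add, smul_smul, smul_smul, neg_sub]
    have hc : Real.cos (a + θ) = 2 * Real.cos θ * Real.cos a - Real.cos (a - θ) := by
      rw [Real.cos_sub, Real.cos_add]; ring
    have hs : Real.sin (a + θ) = 2 * Real.cos θ * Real.sin a - Real.sin (a - θ) := by
      rw [Real.sin_sub, Real.sin_add]; ring
    rw [hc, hs]
    module

theorem plane [FiniteDimensional ℝ E] {A : Set E} (hA : IsClosed A) {d : ℕ → E} {d' : E}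
    (hd : ∀ k, d k ∈ DD A) (hd' : ‖d'‖ = 1) (hn : ∀ k, ‖d k‖ = 1)
    (hne : ∀ k, d k ≠ d' ∧ d k ≠ -d') (hlim : Tendsto d atTop (𝓝 d')) :
    ∃ e, ‖e‖ = 1 ∧ ⟪d', e⟫_ℝ = 0 ∧ ∀ a b : ℝ, a • d' + b • e ∈ DD A := by
  have hdd : ⟪d', d'⟫_ℝ = 1 := by rw [real_inner_self_eq_norm_sq, hd']; norm_num
  have hkk : ∀ k, ⟪d k, d k⟫_ℝ = 1 := fun k => by
    rw [real_inner_self_eq_norm_sq, hn]; norm_num
  have hcl := isClosed_DD hA
  have hmem : d' ∈ DD A := hcl.mem_of_tendsto hlim (Eventually.of_forall hd)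
  set c : ℕ → ℝ := fun k => ⟪d', d k⟫_ℝ with hc
  have hc1 : ∀ k, c k < 1 := by
    intro k
    refine lt_of_le_of_ne ?_ ?_
    · have := real_inner_le_norm d' (d k)
      rw [hd', hn k] at this
      simpa using this
    · intro h
      exact (hne k).1 ((inner_eq_one_iff_of_norm_eq_one hd' (hn k)).1 h).symm
  have hc2 : ∀ k, -1 < c k := by
    intro k
    refine lt_of_le_of_ne ?_ ?_
    · have := neg_le_of_abs_le (abs_real_inner_le_norm d' (d k))
      rw [hd', hn k] at this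
      simpa using this
    · intro h
      have h1 : ⟪d', -d k⟫_ℝ = 1 := by
        rw [inner_neg_right]
        have : ⟪d', d k⟫_ℝ = -1 := h.symm
        rw [this]; norm_num
      have h2 := (inner_eq_one_iff_of_norm_eq_one (𝕜 := ℝ) hd' (by rw [norm_neg]; exact hn k)).1 h1
      exact (hne k).2 (by rw [h2, neg_neg])
  have hcsq : ∀ k, 0 < 1 - c k ^ 2 := fun k => by nlinarith [hc1 k, hc2 k]
  set r : ℕ → ℝ := fun k => √(1 - c k ^ 2) with hr
  have hr0 : ∀ k, 0 < r k := fun k => Real.sqrt_pos.2 (hcsq k)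
  have hrsq : ∀ k, r k ^ 2 = 1 - c k ^ 2 := fun k => Real.sq_sqrt (hcsq k).le
  set e : ℕ → E := fun k => (r k)⁻¹ • (d k - c k • d') with he
  have hdk : ∀ k, d k = c k • d' + r k • e k := by
    intro k
    simp only [he]
    rw [smul_smul, mul_inv_cancel₀ (hr0 k).ne', one_smul]
    abel
  have hed : ∀ k, ⟪d', e k⟫_ℝ = 0 := by
    intro k
    simp only [he]
    rw [inner_smul_right, inner_sub_right, inner_smul_right, hdd]
    simp [hc]
  have hen : ∀ k, ‖e k‖ = 1 := by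
    intro k
    have h1 : ⟪e k, e k⟫_ℝ = 1 := by
      simp only [he]
      rw [inner_smul_left, inner_smul_right, inner_sub_left, inner_sub_right, inner_sub_right,
        inner_smul_left, inner_smul_left, inner_smul_right, inner_smul_right, hdd, hkk k,
        real_inner_comm d' (d k)]
      simp only [RCLike.conj_to_real]
      have h3 := hrsq k
      have h4 := (hr0 k).ne'
      have h5 : ⟪d', d k⟫_ℝ = c k := rfl
      rw [h5]
      field_simp
      linarith
    rw [real_inner_self_eq_norm_sq] at h1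
    nlinarith [norm_nonneg (e k)]
  obtain ⟨e', he', φ, hφ, hφlim⟩ := (isCompact_sphere (0 : E) 1).tendsto_subseq (x := e)
    (fun k => by simpa using hen k)
  have he'1 : ‖e'‖ = 1 := by simpa using he'
  have hde' : ⟪d', e'⟫_ℝ = 0 := by
    have h1 : Tendsto (fun k => ⟪d', e (φ k)⟫_ℝ) atTop (𝓝 ⟪d', e'⟫_ℝ) :=
      (tendsto_const_nhds).inner hφlim
    have h2 : Tendsto (fun k => ⟪d', e (φ k)⟫_ℝ) atTop (𝓝 0) := by
      simp only [hed]
      exact tendsto_const_nhds
    exact tendsto_nhds_unique h1 h2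
  set θ : ℕ → ℝ := fun k => Real.arccos (c k) with hθ
  have hθ0 : ∀ k, 0 < θ k := fun k => Real.arccos_pos.2 (hc1 k)
  have hclim : Tendsto c atTop (𝓝 1) := by
    have h1 : Tendsto c atTop (𝓝 ⟪d', d'⟫_ℝ) := (tendsto_const_nhds).inner hlim
    rwa [hdd] at h1
  have hθlim : Tendsto θ atTop (𝓝 0) := by
    have h1 : Tendsto θ atTop (𝓝 (Real.arccos 1)) :=
      (Real.continuous_arccos.tendsto 1).comp hclim
    rwa [Real.arccos_one] at h1
  have hch : ∀ k, ∀ m : ℕ, Real.cos (m * θ k) • d' + Real.sin (m * θ k) • e k ∈ DD A := by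
    intro k m
    refine chain hd' (hen k) (hed k) hmem ?_ m
    have h1 : Real.cos (θ k) = c k := Real.cos_arccos (hc2 k).le (hc1 k).le
    have h2 : Real.sin (θ k) = r k := by rw [hθ]; exact Real.sin_arccos _
    rw [h1, h2, ← hdk k]
    exact hd k
  have hang : ∀ x : ℝ, 0 ≤ x → Real.cos x • d' + Real.sin x • e' ∈ DD A := by
    intro x hx
    have h1 : Tendsto (fun k => (⌊x / θ k⌋₊ : ℝ) * θ k) atTop (𝓝 x) := by
      have h3 : Tendsto (fun k => x - θ k) atTop (𝓝 x) := by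
        have := (tendsto_const_nhds (x := x)).sub hθlim
        simpa using this
      refine tendsto_of_tendsto_of_tendsto_of_le_of_le h3 (tendsto_const_nhds (x := x)) ?_ ?_
      · intro k
        have h4 := Nat.lt_floor_add_one (x / θ k)
        rw [div_lt_iff₀ (hθ0 k)] at h4
        simp only
        nlinarith [hθ0 k]
      · intro k
        have h4 := Nat.floor_le (div_nonneg hx (hθ0 k).le)
        rw [le_div_iff₀ (hθ0 k)] at h4
        exact h4
    have h2 := h1.comp hφ.tendsto_atTop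
    have h3 : Tendsto (fun k => Real.cos ((⌊x / θ (φ k)⌋₊ : ℝ) * θ (φ k)) • d' +
        Real.sin ((⌊x / θ (φ k)⌋₊ : ℝ) * θ (φ k)) • e (φ k)) atTop
        (𝓝 (Real.cos x • d' + Real.sin x • e')) := by
      refine Tendsto.add (Tendsto.smul ?_ tendsto_const_nhds) (Tendsto.smul ?_ hφlim)
      · exact (Real.continuous_cos.tendsto x).comp h2
      · exact (Real.continuous_sin.tendsto x).comp h2
    exact hcl.mem_of_tendsto h3 (Eventually.of_forall fun k => hch (φ k) _)
  refine ⟨e', he'1, hde', ?_⟩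
  intro a b
  set z : ℂ := ⟨a, b⟩ with hz
  have ha : a = ‖z‖ * Real.cos (Complex.arg z + 2 * Real.pi) := by
    rw [Real.cos_add_two_pi, Complex.norm_mul_cos_arg]
  have hb : b = ‖z‖ * Real.sin (Complex.arg z + 2 * Real.pi) := by
    rw [Real.sin_add_two_pi, Complex.norm_mul_sin_arg]
  have h1 := smul_mem_DD (hang (Complex.arg z + 2 * Real.pi) (by
    have := Complex.neg_pi_lt_arg z
    have := Real.pi_pos
    linarith)) ‖z‖
  rw [smul_add, smul_smul, smul_smul, ← ha, ← hb] at h1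
  exact h1

/-! ### The main statement -/

theorem SD [FiniteDimensional ℝ E] {A : Set E} (hA : IsClosed A) (hA1 : ∀ a ∈ A, ‖a‖ = 1)
    (hne : A.Nonempty) {P : Set E} (hP0 : (0 : E) ∈ P) (hPs : Submodule.span ℝ P = ⊤)
    (hacc : ∀ ε > 0, ∃ p ∈ P, p ≠ 0 ∧ ‖p‖ < ε)
    (hinv : ∀ p ∈ P, ∀ p' ∈ P, ∀ a ∈ A, rf (p - p') a ∈ A) : ∀ x : E, ‖x‖ = 1 → x ∈ A := by
  have hPD : ∀ p ∈ P, ∀ p' ∈ P, p - p' ∈ DD A := fun p hp p' hp' a ha => hinv p hp p' hp' a ha
  have hPD0 : ∀ p ∈ P, p ∈ DD A := fun p hp => by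
    have := hPD p hp 0 hP0
    rwa [sub_zero] at this
  suffices hall : ∀ d : E, d ∈ DD A by
    obtain ⟨a, ha⟩ := hne
    intro x hx
    have := hall (a - x) a ha
    rwa [rf_sub a x (by rw [hA1 a ha, hx])] at this
  obtain ⟨p, hp, hp0, -⟩ := hacc 1 one_pos
  by_cases hcol : P ⊆ (Submodule.span ℝ {p} : Set E)
  · have htop : Submodule.span ℝ {p} = ⊤ := by
      rw [eq_top_iff, ← hPs]
      exact Submodule.span_le.2 hcol
    intro d
    have hd : d ∈ Submodule.span ℝ {p} := by rw [htop]; trivial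
    obtain ⟨c, rfl⟩ := Submodule.mem_span_singleton.1 hd
    exact smul_mem_DD (hPD0 p hp) c
  · -- a plane
    obtain ⟨q, hq, hqp⟩ := Set.not_subset.1 hcol
    have hq0 : q ≠ 0 := by
      rintro rfl
      exact hqp (Submodule.zero_mem _)
    have hex : ∃ q ∈ P, q ≠ 0 ∧ ∀ ε > 0, ∃ p' ∈ P, ‖p'‖ < ε ∧ p' ∉ Submodule.span ℝ {q} := by
      by_contra hcon
      push Not at hcon
      obtain ⟨ε₁, hε₁, h1⟩ := hcon p hp hp0
      obtain ⟨ε₂, hε₂, h2⟩ := hcon q hq hq0
      obtain ⟨x, hx, hx0, hxn⟩ := hacc (min ε₁ ε₂) (lt_min hε₁ hε₂)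
      obtain ⟨a, ha⟩ := Submodule.mem_span_singleton.1 (h1 x hx (hxn.trans_le (min_le_left _ _)))
      obtain ⟨b, hb⟩ := Submodule.mem_span_singleton.1 (h2 x hx (hxn.trans_le (min_le_right _ _)))
      have hb0 : b ≠ 0 := by
        rintro rfl
        exact hx0 (by rw [← hb, zero_smul])
      apply hqp
      have : q = (b⁻¹ * a) • p := by
        rw [mul_smul, ha, ← hb, smul_smul, inv_mul_cancel₀ hb0, one_smul]
      rw [this]
      exact Submodule.smul_mem _ _ (Submodule.mem_span_singleton_self p)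
    obtain ⟨q, hq, hq0, hqacc⟩ := hex
    have hseq : ∀ k : ℕ, ∃ p' ∈ P, ‖p'‖ < 1 / ((k : ℝ) + 1) ∧ p' ∉ Submodule.span ℝ {q} :=
      fun k => hqacc _ (by positivity)
    choose s hsP hsn hsq using hseq
    have hslim : Tendsto s atTop (𝓝 0) := by
      rw [tendsto_zero_iff_norm_tendsto_zero]
      exact squeeze_zero (fun k => norm_nonneg _) (fun k => (hsn k).le)
        tendsto_one_div_add_atTop_nhds_zero_nat
    have hqs : ∀ k, q - s k ∉ Submodule.span ℝ {q} := by
      intro k hk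
      apply hsq k
      have := Submodule.sub_mem _ (Submodule.mem_span_singleton_self q) hk
      rwa [sub_sub_cancel] at this
    have hqs0 : ∀ k, q - s k ≠ 0 := fun k h => hqs k (by rw [h]; exact Submodule.zero_mem _)
    have hqs' : ∀ k, 0 < ‖q - s k‖ := fun k => norm_pos_iff.2 (hqs0 k)
    have hqn : 0 < ‖q‖ := norm_pos_iff.2 hq0
    obtain ⟨e, he1, hqe, hpl⟩ := plane hA (d := fun k => (‖q - s k‖)⁻¹ • (q - s k))
      (d' := (‖q‖)⁻¹ • q) (fun k => smul_mem_DD (hPD q hq _ (hsP k)) _)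
      (by rw [norm_smul, norm_inv, norm_norm, inv_mul_cancel₀ hqn.ne'])
      (fun k => by
        rw [norm_smul, norm_inv, norm_norm, inv_mul_cancel₀ (hqs' k).ne'])
      (fun k => by
        constructor
        · intro h
          apply hqs k
          have : q - s k = (‖q - s k‖ * (‖q‖)⁻¹) • q := by
            rw [mul_smul, ← h, smul_smul, mul_inv_cancel₀ (hqs' k).ne', one_smul]
          rw [this]
          exact Submodule.smul_mem _ _ (Submodule.mem_span_singleton_self q)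
        · intro h
          apply hqs k
          have : q - s k = -((‖q - s k‖ * (‖q‖)⁻¹) • q) := by
            rw [mul_smul, ← smul_neg, ← h, smul_smul, mul_inv_cancel₀ (hqs' k).ne', one_smul]
          rw [this]
          exact Submodule.neg_mem _ (Submodule.smul_mem _ _ (Submodule.mem_span_singleton_self q)))
      (by
        have h1 : Tendsto (fun k => q - s k) atTop (𝓝 q) := by
          have := (tendsto_const_nhds (x := q)).sub hslim
          simpa using this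
        exact (h1.norm.inv₀ hqn.ne').smul h1)
    set u : E := (‖q‖)⁻¹ • q with hu
    have hu1 : ‖u‖ = 1 := by rw [hu, norm_smul, norm_inv, norm_norm, inv_mul_cancel₀ hqn.ne']
    -- a maximal subspace
    let F₀ : Submodule ℝ E := Submodule.span ℝ {u, e}
    have hF₀ : ∀ f ∈ F₀, f ∈ DD A := by
      intro f hf
      obtain ⟨a, b, rfl⟩ := Submodule.mem_span_pair.1 hf
      exact hpl a b
    let S : Set (Submodule ℝ E) := {F | F₀ ≤ F ∧ ∀ f ∈ F, f ∈ DD A}
    obtain ⟨F, hFS, hFmax⟩ := set_has_maximal_iff_noetherian.2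
      (inferInstance : IsNoetherian ℝ E) S ⟨F₀, le_rfl, hF₀⟩
    have huF : u ∈ F := hFS.1 (Submodule.subset_span (by simp))
    have heF : e ∈ F := hFS.1 (Submodule.subset_span (by simp))
    by_cases hFtop : F = ⊤
    · intro d
      exact hFS.2 d (by rw [hFtop]; trivial)
    exfalso
    -- Lemma P
    have hP1 : ∃ p₁ ∈ P, p₁ ∉ F := by
      by_contra hcon
      push Not at hcon
      exact hFtop (by rw [eq_top_iff, ← hPs]; exact Submodule.span_le.2 hcon)
    obtain ⟨p₁, hp₁, hp₁F⟩ := hP1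
    have hP2 : ∃ p₂ ∈ P, p₂ ∉ Fᗮ := by
      by_contra hcon
      push Not at hcon
      have htop : Fᗮ = ⊤ := by rw [eq_top_iff, ← hPs]; exact Submodule.span_le.2 hcon
      have hu2 : u ∈ Fᗮ := by rw [htop]; trivial
      have := Submodule.inner_right_of_mem_orthogonal huF hu2
      rw [real_inner_self_eq_norm_sq, hu1] at this
      norm_num at this
    obtain ⟨p₂, hp₂, hp₂F⟩ := hP2
    have hd : ∃ d ∈ DD A, d ∉ F ∧ d ∉ Fᗮ := by
      by_cases h1 : p₁ ∈ Fᗮ
      · by_cases h2 : p₂ ∈ F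
        · refine ⟨p₁ - p₂, hPD _ hp₁ _ hp₂, fun h => hp₁F ?_, fun h => hp₂F ?_⟩
          · have := F.add_mem h h2
            rwa [sub_add_cancel] at this
          · have := Submodule.sub_mem _ h1 h
            rwa [sub_sub_cancel] at this
        · exact ⟨p₂, hPD0 _ hp₂, h2, hp₂F⟩
      · exact ⟨p₁, hPD0 _ hp₁, hp₁F, h1⟩
    obtain ⟨d, hdD, hdF, hdF'⟩ := hd
    obtain ⟨f₀, hf₀, e₀, he₀, hde⟩ := F.exists_add_mem_mem_orthogonal d
    have hext := extend (A := A) hFS.2 huF heF hu1 he1 hqe hf₀ (by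
      rintro rfl
      exact hdF' (by rw [hde, zero_add]; exact he₀)) (fun f hf =>
        Submodule.inner_right_of_mem_orthogonal hf he₀) (by
      rintro rfl
      exact hdF (by rw [hde, add_zero]; exact hf₀)) (by rw [← hde]; exact hdD)
    have hlt : F < F ⊔ Submodule.span ℝ {e₀} := by
      refine lt_of_le_of_ne le_sup_left ?_
      intro h
      apply hdF
      have : e₀ ∈ F := by
        rw [h]
        exact Submodule.mem_sup_right (Submodule.mem_span_singleton_self e₀)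
      rw [hde]
      exact F.add_mem hf₀ this
    refine hFmax (F ⊔ Submodule.span ℝ {e₀}) ⟨hFS.1.trans le_sup_left, ?_⟩ hlt
    intro f hf
    obtain ⟨g, hg, y, hy, rfl⟩ := Submodule.mem_sup.1 hf
    obtain ⟨t, rfl⟩ := Submodule.mem_span_singleton.1 hy
    exact hext g hg t

end Pool.Agent.H389.Sphere
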