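import Mathlib
import Pool.Agent.H389.Sphere

/-!
# Groups generated by reflections in a Lorentzian space: the step lemma

`G` is a group of isometries of a Lorentzian form `B`, and `Φ` is a `G`-stable set of vectors of
norm `1` whose reflections lie in `G`.  `Lam B Φ` is the set of the light-like vectors which are
limits of multiples of roots.
-/

open Filter Topology

set_option linter.unusedSectionVars false

namespace Pool.Agent.H389.Lorentz

section Form

variable {V : Type*} [AddCommGroup V] [Module ℝ V]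

/-- A Lorentzian form. -/
structure IsLor (B : LinearMap.BilinForm ℝ V) : Prop where
  symm : ∀ x y, B x y = B y x
  ex : ∃ c, B c c < 0 ∧ ∀ x, B x c = 0 → x ≠ 0 → 0 < B x x

variable {B : LinearMap.BilinForm ℝ V}

theorem IsLor.timelike (hB : IsLor B) {c x : V} (hc : B c c < 0) (hx : B x c = 0) (hx0 : x ≠ 0) :
    0 < B x x := by
  obtain ⟨c₀, hc₀, h⟩ := hB.ex
  have hcc : B c x = 0 := by rw [hB.symm]; exact hx
  by_cases hz : B c c₀ • x - B x c₀ • c = 0
  · have h1 : B (B c c₀ • x - B x c₀ • c) c = 0 := by rw [hz]; simp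
    simp only [map_sub, map_smul, LinearMap.sub_apply, LinearMap.smul_apply, smul_eq_mul, hx,
      mul_zero, zero_sub, neg_eq_zero] at h1
    rcases mul_eq_zero.1 h1 with h2 | h2
    · exact h x h2 hx0
    · exact absurd h2 hc.ne
  · have h1 := h (B c c₀ • x - B x c₀ • c) (by
      simp only [map_sub, map_smul, LinearMap.sub_apply, LinearMap.smul_apply, smul_eq_mul]
      ring) hz
    simp only [map_sub, map_smul, LinearMap.sub_apply, LinearMap.smul_apply, smul_eq_mul, hx,
      hcc, mul_zero, sub_zero, zero_sub] at h1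
    have h2 : 0 < B c c₀ ^ 2 * B x x + B x c₀ ^ 2 * B c c := by nlinarith
    by_contra hcon
    push Not at hcon
    nlinarith [sq_nonneg (B c c₀), sq_nonneg (B x c₀),
      mul_nonneg (sq_nonneg (B c c₀)) (neg_nonneg.2 hcon),
      mul_nonneg (sq_nonneg (B x c₀)) (neg_nonneg.2 hc.le)]

/-- A vector orthogonal to a light-like vector is a multiple of it or space-like. -/
theorem IsLor.light (hB : IsLor B) {ξ v : V} (hξ : ξ ≠ 0) (hξξ : B ξ ξ = 0) (hv : B v ξ = 0) :
    (∃ t : ℝ, v = t • ξ) ∨ 0 < B v v := by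
  obtain ⟨c, hc, h⟩ := hB.ex
  have hξc : B ξ c ≠ 0 := by
    intro h1
    have := h ξ h1 hξ
    rw [hξξ] at this
    exact lt_irrefl _ this
  by_cases hz : v - (B v c / B ξ c) • ξ = 0
  · exact Or.inl ⟨_, sub_eq_zero.1 hz⟩
  · right
    have h1 := h (v - (B v c / B ξ c) • ξ) (by
      simp only [map_sub, map_smul, LinearMap.sub_apply, LinearMap.smul_apply, smul_eq_mul]
      field_simp
      ring) hz
    have h2 : B ξ v = 0 := by rw [hB.symm]; exact hv
    simp only [map_sub, map_smul, LinearMap.sub_apply, LinearMap.smul_apply, smul_eq_mul, hv,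
      h2, hξξ, mul_zero, sub_zero] at h1
    exact h1

theorem IsLor.prop (hB : IsLor B) {ξ η : V} (hξ : ξ ≠ 0) (hξξ : B ξ ξ = 0) (hηη : B η η = 0)
    (h : B η ξ = 0) : ∃ t : ℝ, η = t • ξ := by
  rcases hB.light hξ hξξ h with h1 | h1
  · exact h1
  · rw [hηη] at h1
    exact absurd h1 (lt_irrefl _)

theorem IsLor.nondeg (hB : IsLor B) {x : V} (h : ∀ y, B x y = 0) : x = 0 := by
  obtain ⟨c, hc, h1⟩ := hB.ex
  by_contra hx
  have := h1 x (h c) hx
  rw [h x] at this
  exact lt_irrefl _ this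

/-- The hypotheses on the group and the roots. -/
structure RootData (B : LinearMap.BilinForm ℝ V) (G : Subgroup (V ≃ₗ[ℝ] V)) (Φ : Set V) :
    Prop where
  isom : ∀ g ∈ G, ∀ x y, B (g x) (g y) = B x y
  one : ∀ α ∈ Φ, B α α = 1
  stab : ∀ g ∈ G, ∀ α ∈ Φ, g α ∈ Φ
  refl : ∀ α ∈ Φ, ∃ g ∈ G, ∀ x, g x = x - (2 * B x α) • α

end Form

variable {V : Type*} [NormedAddCommGroup V] [NormedSpace ℝ V]

/-- The light-like limits of multiples of roots. -/
def Lam (B : LinearMap.BilinForm ℝ V) (Φ : Set V) : Set V :=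
  {ξ | ξ ≠ 0 ∧ B ξ ξ = 0 ∧ ∃ (α : ℕ → V) (s : ℕ → ℝ), (∀ k, α k ∈ Φ) ∧
    Tendsto (fun k => s k • α k) atTop (𝓝 ξ)}

theorem Lam.smul {B : LinearMap.BilinForm ℝ V} {Φ : Set V} {ξ : V} (h : ξ ∈ Lam B Φ) {t : ℝ}
    (ht : t ≠ 0) : t • ξ ∈ Lam B Φ := by
  obtain ⟨h0, h1, α, s, hα, hlim⟩ := h
  refine ⟨smul_ne_zero ht h0, by simp [h1], α, fun k => t * s k, hα, ?_⟩
  simp only [mul_smul]
  exact hlim.const_smul t

variable [FiniteDimensional ℝ V]

theorem continuous_form (B : LinearMap.BilinForm ℝ V) : Continuous fun p : V × V => B p.1 p.2 := by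
  let B' : V →ₗ[ℝ] (V →L[ℝ] ℝ) :=
    (LinearMap.toContinuousLinearMap (𝕜 := ℝ) (E := V) (F' := ℝ)).toLinearMap ∘ₗ B
  have h : ∀ x y, B x y = (LinearMap.toContinuousLinearMap B') x y := fun x y => rfl
  simp only [h]
  fun_prop

theorem tendsto_form (B : LinearMap.BilinForm ℝ V) {ι : Type*} {l : Filter ι} {x y : ι → V}
    {x' y' : V} (hx : Tendsto x l (𝓝 x')) (hy : Tendsto y l (𝓝 y')) :
    Tendsto (fun i => B (x i) (y i)) l (𝓝 (B x' y')) :=
  ((continuous_form B).tendsto (x', y')).comp (hx.prodMk_nhds hy)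

theorem continuous_equiv (g : V ≃ₗ[ℝ] V) : Continuous g :=
  LinearMap.continuous_of_finiteDimensional (g : V →ₗ[ℝ] V)

theorem Lam.map {B : LinearMap.BilinForm ℝ V} {G : Subgroup (V ≃ₗ[ℝ] V)} {Φ : Set V}
    (hD : RootData B G Φ) {ξ : V} (h : ξ ∈ Lam B Φ) {g : V ≃ₗ[ℝ] V} (hg : g ∈ G) :
    g ξ ∈ Lam B Φ := by
  obtain ⟨h0, h1, α, s, hα, hlim⟩ := h
  refine ⟨by simpa using h0, by rw [hD.isom g hg, h1], fun k => g (α k), s,
    fun k => hD.stab g hg _ (hα k), ?_⟩
  have := ((continuous_equiv g).tendsto ξ).comp hlim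
  refine this.congr fun k => ?_
  simp

/-- The scalars tend to zero. -/
theorem scal_tendsto {B : LinearMap.BilinForm ℝ V} {G : Subgroup (V ≃ₗ[ℝ] V)} {Φ : Set V}
    (hD : RootData B G Φ) {ξ : V} (hξξ : B ξ ξ = 0) {α : ℕ → V} {s : ℕ → ℝ}
    (hα : ∀ k, α k ∈ Φ) (hlim : Tendsto (fun k => s k • α k) atTop (𝓝 ξ)) :
    Tendsto s atTop (𝓝 0) := by
  have h1 := tendsto_form B hlim hlim
  rw [hξξ] at h1
  have h2 : Tendsto (fun k => s k ^ 2) atTop (𝓝 0) := by
    refine h1.congr fun k => ?_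
    simp only [map_smul, LinearMap.smul_apply, smul_eq_mul, hD.one _ (hα k)]
    ring
  have h3 : Tendsto (fun k => √(s k ^ 2)) atTop (𝓝 √0) :=
    (Real.continuous_sqrt.tendsto 0).comp h2
  simp only [Real.sqrt_sq_eq_abs, Real.sqrt_zero] at h3
  exact (tendsto_zero_iff_abs_tendsto_zero _).2 h3

theorem scal_ne {ξ : V} (hξ : ξ ≠ 0) {α : ℕ → V} {s : ℕ → ℝ}
    (hlim : Tendsto (fun k => s k • α k) atTop (𝓝 ξ)) : ∀ᶠ k in atTop, s k ≠ 0 := by
  have := hlim.eventually_ne hξ
  filter_upwards [this] with k hk h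
  exact hk (by rw [h, zero_smul])

variable {B : LinearMap.BilinForm ℝ V} {G : Subgroup (V ≃ₗ[ℝ] V)} {Φ : Set V}

/-- The step lemma: one can get from near `y ⊥ ξ` to near the point `w` of `y + ℝ ξ` which is
orthogonal to `η`, arriving in `η^⊥`. -/
theorem step (hB : IsLor B) (hD : RootData B G Φ) {ξ η y : V} (hξ : ξ ∈ Lam B Φ)
    (hηη : B η η = 0) (hξη : B ξ η ≠ 0) (hy : B y ξ = 0) :
    ∃ (g : ℕ → V ≃ₗ[ℝ] V) (z : ℕ → V), (∀ k, g k ∈ G) ∧
      Tendsto z atTop (𝓝 (y - (B y η / B ξ η) • ξ)) ∧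
      Tendsto (fun k => g k (z k)) atTop (𝓝 y) ∧
      ∀ k, B (z k) η = 0 ∧ B (z k) (z k) = B y y := by
  obtain ⟨h0, hξξ, α, s, hα, hlim⟩ := hξ
  have hs := scal_tendsto hD hξξ hα hlim
  have hs0 := scal_ne h0 hlim
  have hηξ : B η ξ ≠ 0 := by rwa [hB.symm]
  have hξy : B ξ y = 0 := by rwa [hB.symm]
  have hB1 : ∀ x, Tendsto (fun k => B x (s k • α k)) atTop (𝓝 (B x ξ)) := fun x =>
    tendsto_form B tendsto_const_nhds hlim
  have hne : ∀ᶠ k in atTop, B η (s k • α k) ≠ 0 := (hB1 η).eventually_ne hηξ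
  set a : ℝ := -(B y η / B ξ η) with ha
  set w : V := y - (B y η / B ξ η) • ξ with hw
  have hwη : B w η = 0 := by
    rw [hw]
    simp only [map_sub, map_smul, LinearMap.sub_apply, LinearMap.smul_apply, smul_eq_mul]
    field_simp
    ring
  have hηw : B η w = 0 := by rwa [hB.symm]
  have hwξ : B w ξ = 0 := by
    rw [hw]
    simp only [map_sub, map_smul, LinearMap.sub_apply, LinearMap.smul_apply, smul_eq_mul, hy, hξξ]
    ring
  have hww : B w w = B y y := by
    rw [hw]
    simp only [map_sub, map_smul, LinearMap.sub_apply, LinearMap.smul_apply, smul_eq_mul, hy, hξξ,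
      hξy]
    ring
  set κ : ℕ → ℝ := fun k => (a * s k ^ 2 / 2 - B w (s k • α k)) / B η (s k • α k) with hκ
  have hκlim : Tendsto κ atTop (𝓝 0) := by
    have h1 : Tendsto (fun k => a * s k ^ 2 / 2 - B w (s k • α k)) atTop (𝓝 0) := by
      have := (((hs.pow 2).const_mul a).div_const 2).sub (hB1 w)
      simpa [hwξ] using this
    have := h1.div (hB1 η) hηξ
    rw [zero_div] at this
    exact this
  have hr : ∀ k, ∃ g ∈ G, ∀ x, g x = x - (2 * B x (α k)) • α k := fun k => hD.refl _ (hα k)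
  choose g hgG hg using hr
  refine ⟨g, fun k => w + κ k • η, hgG, ?_, ?_, ?_⟩
  · have := (tendsto_const_nhds (x := w)).add (hκlim.smul_const η)
    simpa using this
  · have hzlim : Tendsto (fun k => w + κ k • η) atTop (𝓝 w) := by
      have := (tendsto_const_nhds (x := w)).add (hκlim.smul_const η)
      simpa using this
    have hyw : y = w - a • ξ := by
      rw [hw, ha, neg_smul]
      abel
    have h1 : Tendsto (fun k => (w + κ k • η) - a • (s k • α k)) atTop (𝓝 y) := by
      rw [hyw]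
      exact hzlim.sub (hlim.const_smul a)
    refine h1.congr' ?_
    filter_upwards [hs0, hne] with k hk hk2
    rw [hg k]
    congr 1
    rw [smul_smul]
    congr 1
    have h3 : B (w + κ k • η) (s k • α k) = a * s k ^ 2 / 2 := by
      simp only [map_add, map_smul, LinearMap.add_apply, LinearMap.smul_apply]
      simp only [map_smul, smul_eq_mul] at hk2 ⊢
      have hk3 := right_ne_zero_of_mul hk2
      simp only [hκ, map_smul, smul_eq_mul]
      field_simp
      ring
    have h4 : s k * B (w + κ k • η) (α k) = a * s k ^ 2 / 2 := by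
      rw [← h3, map_smul, smul_eq_mul]
    have h5 : s k * (a * s k) = s k * (2 * B (w + κ k • η) (α k)) := by linarith
    exact mul_left_cancel₀ hk h5
  · intro k
    constructor
    · simp only [map_add, map_smul, LinearMap.add_apply, LinearMap.smul_apply, hwη, hηη,
        smul_eq_mul]
      ring
    · simp only [map_add, map_smul, LinearMap.add_apply, LinearMap.smul_apply, hwη, hηη, hηw, hww,
        smul_eq_mul]
      ring

/-- The points whose orbit meets `O`. -/
def Sat (G : Subgroup (V ≃ₗ[ℝ] V)) (O : Set V) : Set V := {x | ∃ g ∈ G, g x ∈ O}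

theorem isOpen_Sat {O : Set V} (hO : IsOpen O) : IsOpen (Sat G O) := by
  have : Sat G O = ⋃ g ∈ G, (fun x => g x) ⁻¹' O := by
    ext x
    simp [Sat]
  rw [this]
  exact isOpen_biUnion fun g _ => hO.preimage (continuous_equiv g)

theorem Sat_of_map {O : Set V} {g : V ≃ₗ[ℝ] V} (hg : g ∈ G) {x : V} (h : g x ∈ Sat G O) :
    x ∈ Sat G O := by
  obtain ⟨g', hg', h'⟩ := h
  exact ⟨g' * g, G.mul_mem hg' hg, h'⟩

/-- The flagged points of the saturation. -/
def FS (B : LinearMap.BilinForm ℝ V) (G : Subgroup (V ≃ₗ[ℝ] V)) (O : Set V) (ξ : V) : Set V :=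
  {x | x ∈ Sat G O ∧ B x x = 1 ∧ B x ξ = 0}

theorem F_mem (hB : IsLor B) (hD : RootData B G Φ) {O : Set V} (hO : IsOpen O) {ξ η y : V}
    (hξ : ξ ∈ Lam B Φ) (hηη : B η η = 0) (hξη : B ξ η ≠ 0) (hy : y ∈ closure (FS B G O ξ)) :
    y - (B y η / B ξ η) • ξ ∈ closure (FS B G O η) := by
  have hcont : Continuous fun y : V => y - (B y η / B ξ η) • ξ := by
    have h1 : Continuous fun y : V => B y η :=
      (continuous_form B).comp (continuous_id.prodMk continuous_const)
    fun_prop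
  have hmaps : Set.MapsTo (fun y : V => y - (B y η / B ξ η) • ξ) (FS B G O ξ)
      (closure (FS B G O η)) := by
    rintro y ⟨hyS, hyy, hyξ⟩
    obtain ⟨g, z, hg, hz, hgz, hzk⟩ := step hB hD hξ hηη hξη hyξ
    have hev : ∀ᶠ k in atTop, z k ∈ FS B G O η := by
      have h1 : ∀ᶠ k in atTop, g k (z k) ∈ Sat G O :=
        hgz.eventually ((isOpen_Sat hO).mem_nhds hyS)
      filter_upwards [h1] with k hk
      exact ⟨Sat_of_map (hg k) hk, by rw [(hzk k).2, hyy], (hzk k).1⟩
    exact mem_closure_of_tendsto hz hev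
  have := hmaps.closure hcont hy
  rwa [closure_closure] at this

theorem closure_FS {O : Set V} {ξ y : V} (hy : y ∈ closure (FS B G O ξ)) :
    B y y = 1 ∧ B y ξ = 0 := by
  have hc1 : IsClosed {x : V | B x x = 1} :=
    isClosed_eq ((continuous_form B).comp (continuous_id.prodMk continuous_id)) continuous_const
  have hc2 : IsClosed {x : V | B x ξ = 0} :=
    isClosed_eq ((continuous_form B).comp (continuous_id.prodMk continuous_const)) continuous_const
  constructor
  · exact closure_minimal (fun x hx => hx.2.1) hc1 hy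
  · exact closure_minimal (fun x hx => hx.2.2) hc2 hy

end Pool.Agent.H389.Lorentz
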