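import Mathlib
import Pool.Agent.H389.Lorentz

/-!
# Density in the unit sphere of `(ζ, η)^⊥`
-/

open scoped InnerProductSpace
open Filter Topology Module

set_option linter.unusedSectionVars false

namespace Pool.Agent.H389.Lorentz

open Pool.Agent.H389.Sphere

theorem exists_euclid {E : Type*} [AddCommGroup E] [Module ℝ E] [FiniteDimensional ℝ E]
    (b : LinearMap.BilinForm ℝ E) (hs : ∀ x y, b x y = b y x) (hp : ∀ x, x ≠ 0 → 0 < b x x) :
    ∃ e : E ≃ₗ[ℝ] EuclideanSpace ℝ (Fin (finrank ℝ E)), ∀ x y, ⟪e x, e y⟫_ℝ = b x y := by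
  let core : InnerProductSpace.Core ℝ E :=
    { inner := fun x y => b x y
      conj_inner_symm := fun x y => by simp [hs x y]
      re_inner_nonneg := fun x => by
        by_cases hx : x = 0
        · simp [hx]
        · simpa using (hp x hx).le
      add_left := fun x y z => by simp
      smul_left := fun x y r => by simp
      definite := fun x hx => by
        by_contra h
        exact (hp x h).ne' hx }
  let _ : NormedAddCommGroup E := core.toNormedAddCommGroup
  let _ : InnerProductSpace ℝ E := InnerProductSpace.ofCore core.toCore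
  refine ⟨(stdOrthonormalBasis ℝ E).repr.toLinearEquiv, fun x y => ?_⟩
  exact (stdOrthonormalBasis ℝ E).repr.inner_map_map x y

variable {V : Type*} [NormedAddCommGroup V] [NormedSpace ℝ V] [FiniteDimensional ℝ V]
variable {B : LinearMap.BilinForm ℝ V} {G : Subgroup (V ≃ₗ[ℝ] V)} {Φ : Set V}

/-- Elements of `Lam` normalised by `B θ ζ = 1` accumulate at `η`. -/
theorem acc (hB : IsLor B) (hD : RootData B G Φ) {ζ η θ : V}
    (hζ : ζ ∈ Lam B Φ) (hη : η ∈ Lam B Φ) (hθ : θ ∈ Lam B Φ) (hηζ : B η ζ = 1)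
    (hθη : B θ η ≠ 0) (hθζ : B θ ζ ≠ 0) {ε : ℝ} (hε : 0 < ε) :
    ∃ u ∈ Lam B Φ, B u ζ = 1 ∧ u ≠ η ∧ |B u η| < ε := by
  obtain ⟨h0, hηη, α, s, hα, hlim⟩ := id hη
  have hs := scal_tendsto hD hηη hα hlim
  have hs0 := scal_ne h0 hlim
  have hζη : B ζ η = 1 := by rw [hB.symm]; exact hηζ
  have hζζ := hζ.2.1
  have hr : ∀ k, ∃ g ∈ G, ∀ x, g x = x - (2 * B x (α k)) • α k := fun k => hD.refl _ (hα k)
  choose g hgG hg using hr
  -- the rescaled images converge
  have hR : ∀ u, Tendsto (fun k => (s k ^ 2) • g k u) atTop (𝓝 (-((2 * B u η) • η))) := by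
    intro u
    have h1 : Tendsto (fun k => (s k ^ 2) • u - (2 * B u (s k • α k)) • (s k • α k)) atTop
        (𝓝 ((0 : ℝ) ^ 2 • u - (2 * B u η) • η)) :=
      ((hs.pow 2).smul_const u).sub
        (((tendsto_form B tendsto_const_nhds hlim).const_mul 2).smul hlim)
    have h2 : ((0 : ℝ) ^ 2 • u - (2 * B u η) • η) = -((2 * B u η) • η) := by simp
    rw [h2] at h1
    refine h1.congr fun k => ?_
    rw [hg k, map_smul, smul_eq_mul, smul_sub, smul_smul, smul_smul]
    congr 2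
    ring
  have hRζ : ∀ u, Tendsto (fun k => s k ^ 2 * B (g k u) ζ) atTop (𝓝 (-(2 * B u η))) := by
    intro u
    have h1 := tendsto_form B (hR u) (tendsto_const_nhds (x := ζ))
    have h2 : B (-((2 * B u η) • η)) ζ = -(2 * B u η) := by
      simp [hηζ]
    rw [h2] at h1
    refine h1.congr fun k => ?_
    simp
  have hne : ∀ u, B u η ≠ 0 → ∀ᶠ k in atTop, B (g k u) ζ ≠ 0 := by
    intro u hu
    have h0' : -(2 * B u η) ≠ 0 := by simpa using hu
    have h1 := (hRζ u).eventually_ne h0'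
    filter_upwards [h1] with k hk h
    exact hk (by rw [h, mul_zero])
  have hnorm : ∀ u, B u η ≠ 0 →
      Tendsto (fun k => (B (g k u) ζ)⁻¹ • g k u) atTop (𝓝 η) := by
    intro u hu
    have h1 := ((hRζ u).inv₀ (by simpa using hu)).smul (hR u)
    have h2 : (-(2 * B u η))⁻¹ • (-((2 * B u η) • η)) = η := by
      rw [smul_neg, ← neg_smul, smul_smul]
      rw [show -(-(2 * B u η))⁻¹ * (2 * B u η) = 1 by field_simp]
      exact one_smul _ _
    rw [h2] at h1
    refine h1.congr' ?_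
    filter_upwards [hs0] with k hk
    rw [smul_smul]
    congr 1
    field_simp
  have hBlim : ∀ u, B u η ≠ 0 →
      Tendsto (fun k => B ((B (g k u) ζ)⁻¹ • g k u) η) atTop (𝓝 0) := by
    intro u hu
    have := tendsto_form B (hnorm u hu) (tendsto_const_nhds (x := η))
    rwa [hηη] at this
  have hζη0 : B ζ η ≠ 0 := by rw [hζη]; exact one_ne_zero
  have hsm : ∀ u, B u η ≠ 0 → ∀ᶠ k in atTop, |B ((B (g k u) ζ)⁻¹ • g k u) η| < ε := by
    intro u hu
    have := (hBlim u hu).eventually (Metric.ball_mem_nhds 0 hε)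
    filter_upwards [this] with k hk
    simpa using hk
  obtain ⟨k, hk0, hk1, hk2, hk3, hk4⟩ :=
    (hs0.and ((hne ζ hζη0).and ((hne θ hθη).and ((hsm ζ hζη0).and (hsm θ hθη))))).exists
  have hmem : ∀ u ∈ Lam B Φ, B (g k u) ζ ≠ 0 → (B (g k u) ζ)⁻¹ • g k u ∈ Lam B Φ ∧
      B ((B (g k u) ζ)⁻¹ • g k u) ζ = 1 := by
    intro u hu hu2
    refine ⟨Lam.smul (Lam.map hD hu (hgG k)) (inv_ne_zero hu2), ?_⟩
    simp only [map_smul, LinearMap.smul_apply, smul_eq_mul]
    exact inv_mul_cancel₀ hu2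
  by_cases h1 : (B (g k ζ) ζ)⁻¹ • g k ζ = η
  · by_cases h2 : (B (g k θ) ζ)⁻¹ • g k θ = η
    · exfalso
      have h3 : g k ((B (g k ζ) ζ)⁻¹ • ζ) = g k ((B (g k θ) ζ)⁻¹ • θ) := by
        rw [map_smul, map_smul, h1, h2]
      have h4 := (g k).injective h3
      have h5 : B ((B (g k ζ) ζ)⁻¹ • ζ) ζ = B ((B (g k θ) ζ)⁻¹ • θ) ζ := by rw [h4]
      simp only [map_smul, LinearMap.smul_apply, smul_eq_mul, hζζ, mul_zero] at h5
      rcases mul_eq_zero.1 h5.symm with h6 | h6
      · exact inv_ne_zero hk2 h6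
      · exact hθζ h6
    · obtain ⟨h3, h4⟩ := hmem θ hθ hk2
      exact ⟨_, h3, h4, h2, hk4⟩
  · obtain ⟨h3, h4⟩ := hmem ζ hζ hk1
    exact ⟨_, h3, h4, h1, hk3⟩

/-- The core: all of the unit sphere of `(ζ, η)^⊥` lies in the closure of the flagged
saturation. -/
theorem core (hB : IsLor B) (hD : RootData B G Φ) (hspan : Submodule.span ℝ (Lam B Φ) = ⊤)
    {O : Set V} (hO : IsOpen O) {y₀ ξ₀ : V} (hy₀ : y₀ ∈ O) (hy₀1 : B y₀ y₀ = 1)
    (hξ₀ : ξ₀ ∈ Lam B Φ) (hy₀ξ : B y₀ ξ₀ = 0) {ζ η v : V} (hζ : ζ ∈ Lam B Φ)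
    (hη : η ∈ Lam B Φ) (hζη : B ζ η = 1) (hv : B v v = 1) (hvζ : B v ζ = 0) (hvη : B v η = 0) :
    v ∈ closure (FS B G O ζ) := by
  have hηζ : B η ζ = 1 := by rw [hB.symm]; exact hζη
  have hζζ := hζ.2.1
  have hηη := hη.2.1
  have hζη0 : B ζ η ≠ 0 := by rw [hζη]; exact one_ne_zero
  have hηζ0 : B η ζ ≠ 0 := by rw [hηζ]; exact one_ne_zero
  -- the Euclidean space `E`
  let E : Submodule ℝ V :=
    { carrier := {x | B x ζ = 0 ∧ B x η = 0}
      add_mem' := by
        rintro x y ⟨h1, h2⟩ ⟨h3, h4⟩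
        exact ⟨by simp [h1, h3], by simp [h2, h4]⟩
      zero_mem' := ⟨by simp, by simp⟩
      smul_mem' := by
        rintro c x ⟨h1, h2⟩
        exact ⟨by simp [h1], by simp [h2]⟩ }
  have hEmem : ∀ x, x ∈ E ↔ B x ζ = 0 ∧ B x η = 0 := fun x => Iff.rfl
  have hpos : ∀ x : E, x ≠ 0 → 0 < B (x : V) x := by
    intro x hx
    rcases hB.light hζ.1 hζζ x.2.1 with ⟨t, ht⟩ | h
    · exfalso
      have h1 := x.2.2
      rw [ht] at h1
      simp only [map_smul, LinearMap.smul_apply, smul_eq_mul, hζη, mul_one] at h1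
      apply hx
      ext
      rw [ht, h1]
      simp
    · exact h
  obtain ⟨e, he⟩ := exists_euclid (B.restrict E) (fun x y => hB.symm _ _) hpos
  have he' : ∀ a b, ⟪a, b⟫_ℝ = B (e.symm a : V) (e.symm b) := by
    intro a b
    have := he (e.symm a) (e.symm b)
    rw [LinearEquiv.apply_symm_apply, LinearEquiv.apply_symm_apply] at this
    exact this
  have hecont : Continuous fun a => (e.symm a : V) := by
    have h1 : Continuous (E.subtype ∘ₗ e.symm.toLinearMap) :=
      LinearMap.continuous_of_finiteDimensional _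
    exact h1
  let A : Set (EuclideanSpace ℝ (Fin (finrank ℝ E))) := {a | (e.symm a : V) ∈ closure (FS B G O ζ)}
  have hA : IsClosed A := isClosed_closure.preimage hecont
  have hA1 : ∀ a ∈ A, ‖a‖ = 1 := by
    intro a ha
    have h1 := (closure_FS ha).1
    have h2 : ⟪a, a⟫_ℝ = 1 := by rw [he', h1]
    rw [real_inner_self_eq_norm_sq] at h2
    nlinarith [norm_nonneg a]
  -- moving into `E`
  have hmove : ∀ x ∈ closure (FS B G O ζ), x - B x η • ζ ∈ closure (FS B G O ζ) := by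
    intro x hx
    have h1 := F_mem hB hD hO hζ hηη hζη0 hx
    rw [hζη, div_one] at h1
    have h2 := F_mem hB hD hO hη hζζ hηζ0 h1
    have h3 : B (x - B x η • ζ) ζ = 0 := by
      simp [hζζ, (closure_FS hx).2]
    rw [h3] at h2
    simpa using h2
  have hmoveE : ∀ x ∈ closure (FS B G O ζ), x - B x η • ζ ∈ E := by
    intro x hx
    refine ⟨by simp [hζζ, (closure_FS hx).2], by simp [hζη]⟩
  have hne0 : (closure (FS B G O ζ)).Nonempty := by
    have h0 : y₀ ∈ closure (FS B G O ξ₀) := subset_closure ⟨⟨1, G.one_mem, hy₀⟩, hy₀1, hy₀ξ⟩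
    by_cases h1 : B ξ₀ ζ = 0
    · obtain ⟨t, ht⟩ := hB.prop hζ.1 hζζ hξ₀.2.1 h1
      have ht0 : t ≠ 0 := by
        rintro rfl
        exact hξ₀.1 (by rw [ht, zero_smul])
      refine ⟨y₀, subset_closure ⟨⟨1, G.one_mem, hy₀⟩, hy₀1, ?_⟩⟩
      rw [ht] at hy₀ξ
      simp only [map_smul, smul_eq_mul] at hy₀ξ
      exact (mul_eq_zero.1 hy₀ξ).resolve_left ht0
    · exact ⟨_, F_mem hB hD hO hξ₀ hζζ h1 h0⟩
  have hne : A.Nonempty := by
    obtain ⟨x, hx⟩ := hne0
    refine ⟨e ⟨_, hmoveE x hx⟩, ?_⟩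
    show ((e.symm (e ⟨_, hmoveE x hx⟩) : E) : V) ∈ closure (FS B G O ζ)
    rw [LinearEquiv.symm_apply_apply]
    exact hmove x hx
  -- the point set
  let P : Set (EuclideanSpace ℝ (Fin (finrank ℝ E))) :=
    {a | ∃ θ ∈ Lam B Φ, B θ ζ = 1 ∧ (e.symm a : V) = θ - η - B θ η • ζ}
  have hP0 : (0 : EuclideanSpace ℝ (Fin (finrank ℝ E))) ∈ P :=
    ⟨η, hη, hηζ, by simp [hηη]⟩
  have hEθ : ∀ θ, B θ ζ = 1 → θ - η - B θ η • ζ ∈ E := by
    intro θ hθ
    refine ⟨by simp [hθ, hηζ, hζζ], by simp [hηη, hζη]⟩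
  have hPe : ∀ θ (hθ : θ ∈ Lam B Φ) (hθζ : B θ ζ = 1), e ⟨_, hEθ θ hθζ⟩ ∈ P := by
    intro θ hθ hθζ
    exact ⟨θ, hθ, hθζ, by rw [LinearEquiv.symm_apply_apply]⟩
  have hPs : Submodule.span ℝ P = ⊤ := by
    rw [← Submodule.orthogonal_eq_bot_iff, Submodule.eq_bot_iff]
    intro f hf
    have h1 : ∀ θ ∈ Lam B Φ, B (e.symm f : V) θ = 0 := by
      intro θ hθ
      by_cases h : B θ ζ = 0
      · obtain ⟨t, ht⟩ := hB.prop hζ.1 hζζ hθ.2.1 h
        rw [ht, map_smul, (e.symm f).2.1, smul_zero]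
      · have h2 : B ((B θ ζ)⁻¹ • θ) ζ = 1 := by
          simp only [map_smul, LinearMap.smul_apply, smul_eq_mul]
          exact inv_mul_cancel₀ h
        have h3 := Submodule.inner_right_of_mem_orthogonal
          (Submodule.subset_span (hPe _ (Lam.smul hθ (inv_ne_zero h)) h2)) hf
        rw [he', LinearEquiv.symm_apply_apply, hB.symm] at h3
        simp only [map_sub, map_smul, (e.symm f).2.1, (e.symm f).2.2, smul_eq_mul, mul_zero,
          sub_zero] at h3
        exact (mul_eq_zero.1 h3).resolve_left (inv_ne_zero h)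
    have h2 : (e.symm f : V) = 0 := by
      apply hB.nondeg
      intro y
      have hy : y ∈ Submodule.span ℝ (Lam B Φ) := by rw [hspan]; trivial
      induction hy using Submodule.span_induction with
      | mem x hx => exact h1 x hx
      | zero => simp
      | add x y _ _ hx hy => simp [hx, hy]
      | smul a x _ hx => simp [hx]
    have h3 : e.symm f = 0 := by ext; exact h2
    exact (LinearEquiv.map_eq_zero_iff e.symm).1 h3
  have hv0 : v ≠ 0 := by
    rintro rfl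
    simp at hv
  -- a third element
  have h3rd : ∃ θ ∈ Lam B Φ, B θ ζ ≠ 0 ∧ B θ η ≠ 0 := by
    by_contra hcon
    push Not at hcon
    have h1 : ∀ θ ∈ Lam B Φ, B v θ = 0 := by
      intro θ hθ
      by_cases h : B θ ζ = 0
      · obtain ⟨t, ht⟩ := hB.prop hζ.1 hζζ hθ.2.1 h
        rw [ht, map_smul, hvζ, smul_zero]
      · obtain ⟨t, ht⟩ := hB.prop hη.1 hηη hθ.2.1 (hcon θ hθ h)
        rw [ht, map_smul, hvη, smul_zero]
    apply hv0
    apply hB.nondeg
    intro y
    have hy : y ∈ Submodule.span ℝ (Lam B Φ) := by rw [hspan]; trivial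
    induction hy using Submodule.span_induction with
    | mem x hx => exact h1 x hx
    | zero => simp
    | add x y _ _ hx hy => simp [hx, hy]
    | smul a x _ hx => simp [hx]
  obtain ⟨θ₁, hθ₁, hθ₁ζ, hθ₁η⟩ := h3rd
  have hacc : ∀ ε > 0, ∃ p ∈ P, p ≠ 0 ∧ ‖p‖ < ε := by
    intro ε hε
    obtain ⟨u, hu, huζ, huη, hsm⟩ := acc hB hD hζ hη hθ₁ hηζ hθ₁η hθ₁ζ
      (show 0 < ε ^ 2 / 2 by positivity)
    have huu := hu.2.1
    have hζu : B ζ u = 1 := by rw [hB.symm]; exact huζ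
    have hηu : B η u = B u η := hB.symm _ _
    refine ⟨_, hPe u hu huζ, ?_, ?_⟩
    · intro h
      rw [LinearEquiv.map_eq_zero_iff] at h
      have h1 : u - η - B u η • ζ = 0 := congrArg Subtype.val h
      have h2 : u = η + B u η • ζ := by
        rw [sub_sub] at h1
        exact sub_eq_zero.1 h1
      have h3 : B u u = 2 * B u η := by
        conv_lhs => rw [h2]
        simp only [map_add, map_smul, LinearMap.add_apply, LinearMap.smul_apply, smul_eq_mul, hηη,
          hηζ, hζη, hζζ]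
        ring
      rw [huu] at h3
      have h4 : B u η = 0 := by linarith
      rw [h4, zero_smul, add_zero] at h2
      exact huη h2
    · have h1 : ‖e ⟨_, hEθ u huζ⟩‖ ^ 2 = -2 * B u η := by
        rw [← real_inner_self_eq_norm_sq, he', LinearEquiv.symm_apply_apply]
        simp only [map_sub, map_smul, LinearMap.sub_apply, LinearMap.smul_apply, smul_eq_mul, hηη,
          hηζ, hζη, hζζ, huu, huζ, hζu, hηu]
        ring
      have h2 : ‖e ⟨_, hEθ u huζ⟩‖ ^ 2 < ε ^ 2 := by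
        rw [h1]
        have := (abs_lt.1 hsm).1
        linarith
      exact lt_of_pow_lt_pow_left₀ 2 hε.le h2
  have hinv : ∀ p ∈ P, ∀ p' ∈ P, ∀ a ∈ A, rf (p - p') a ∈ A := by
    rintro p ⟨θ, hθ, hθζ, hp⟩ p' ⟨θ', hθ', hθ'ζ, hp'⟩ a ha
    by_cases hpp : p = p'
    · rw [hpp, sub_self, rf_zero]
      exact ha
    have hθθ := hθ.2.1
    have hθθ' := hθ'.2.1
    have hζθ : B ζ θ = 1 := by rw [hB.symm]; exact hθζ
    have hζθ' : B ζ θ' = 1 := by rw [hB.symm]; exact hθ'ζ
    have hne : B θ' θ ≠ 0 := by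
      intro h
      obtain ⟨t, ht⟩ := hB.prop hθ.1 hθθ hθθ' h
      have h1 : t = 1 := by
        have h2 := hθ'ζ
        rw [ht] at h2
        simpa [hθζ] using h2
      rw [h1, one_smul] at ht
      apply hpp
      apply e.symm.injective
      ext
      rw [hp, hp', ht]
    have hθθ'2 : B θ θ' = B θ' θ := hB.symm _ _
    set x : V := (e.symm a : V) with hx
    have hxζ : B x ζ = 0 := (e.symm a).2.1
    have hxη : B x η = 0 := (e.symm a).2.2
    have hζx : B ζ x = 0 := by rw [hB.symm]; exact hxζ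
    have hxA : x ∈ closure (FS B G O ζ) := ha
    -- the chain of moves
    have h1 := F_mem hB hD hO hζ hθθ' (by rw [hζθ']; exact one_ne_zero) hxA
    rw [hζθ', div_one] at h1
    have h2 := F_mem hB hD hO hθ' hθθ hne h1
    have h3 := F_mem hB hD hO hθ hζζ (by rw [hθζ]; exact one_ne_zero) h2
    have h4 := hmove _ h3
    show ((e.symm (rf (p - p') a) : E) : V) ∈ closure (FS B G O ζ)
    convert h4 using 1
    have hD1 : (e.symm (p - p') : V) = (θ - θ') - (B θ η - B θ' η) • ζ := by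
      rw [map_sub, Submodule.coe_sub, hp, hp', sub_smul]
      abel
    have hin1 : ⟪a, p - p'⟫_ℝ = B x θ - B x θ' := by
      rw [he', hD1]
      simp only [map_sub, map_smul, ← hx, hxζ, smul_eq_mul]
      ring
    have hin2 : ⟪p - p', p - p'⟫_ℝ = -2 * B θ' θ := by
      rw [he', hD1]
      simp only [map_sub, map_smul, LinearMap.sub_apply, LinearMap.smul_apply, smul_eq_mul,
        hθθ, hθθ', hθζ, hθ'ζ, hζθ, hζθ', hζζ, hθθ'2]
      ring
    have hlhs : ((e.symm (rf (p - p') a) : E) : V) =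
        x - (2 * (B x θ - B x θ') / (-2 * B θ' θ)) • ((θ - θ') - (B θ η - B θ' η) • ζ) := by
      rw [rf, hin1, hin2, map_sub, map_smul, Submodule.coe_sub, Submodule.coe_smul, hD1]
    rw [hlhs]
    have e1 : (2 * (B x θ - B x θ') / (-2 * B θ' θ)) = -((B x θ - B x θ') / B θ' θ) := by
      field_simp
    rw [e1, hθζ]
    simp only [map_sub, map_smul, LinearMap.sub_apply, LinearMap.smul_apply, smul_eq_mul,
      hθ'ζ, hζθ, hζζ, hxζ, hxη, hζη, mul_one, mul_zero, sub_zero, zero_sub, div_one]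
    generalize (B x θ - B x θ') / B θ' θ = c
    module
  have hfin := SD hA hA1 hne hP0 hPs hacc hinv (e ⟨v, hvζ, hvη⟩) (by
    have h1 : ‖e ⟨v, hvζ, hvη⟩‖ ^ 2 = 1 := by
      rw [← real_inner_self_eq_norm_sq, he', LinearEquiv.symm_apply_apply]
      exact hv
    nlinarith [norm_nonneg (e ⟨v, hvζ, hvη⟩)])
  have h1 : ((e.symm (e ⟨v, hvζ, hvη⟩) : E) : V) ∈ closure (FS B G O ζ) := hfin
  rwa [LinearEquiv.symm_apply_apply] at h1

end Pool.Agent.H389.Lorentz
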