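import Mathlib
import Pool.Agent.H389.Core

/-!
# Base points, when the light-like limits of roots span the space
-/

open Filter Topology Module

set_option linter.unusedSectionVars false

namespace Pool.Agent.H389.Lorentz

variable {V : Type*} [NormedAddCommGroup V] [NormedSpace ℝ V] [FiniteDimensional ℝ V]
variable {B : LinearMap.BilinForm ℝ V} {G : Subgroup (V ≃ₗ[ℝ] V)} {Φ : Set V}

/-- The vectors orthogonal to two non-proportional elements of `Lam`. -/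
def UU (B : LinearMap.BilinForm ℝ V) (Φ : Set V) : Set V :=
  {v | ∃ ζ ∈ Lam B Φ, ∃ η ∈ Lam B Φ, B ζ η ≠ 0 ∧ B v ζ = 0 ∧ B v η = 0}

theorem move (hB : IsLor B) (hD : RootData B G Φ) (hspan : Submodule.span ℝ (Lam B Φ) = ⊤)
    {O : Set V} (hO : IsOpen O) {y₀ ξ₀ : V} (hy₀ : y₀ ∈ O) (hy₀1 : B y₀ y₀ = 1)
    (hξ₀ : ξ₀ ∈ Lam B Φ) (hy₀ξ : B y₀ ξ₀ = 0) {N : Set V} (hN : IsOpen N) {u v : V}
    (huN : u ∈ N) (hu : u ∈ UU B Φ) (hu1 : B u u = 1) :
    ∃ z ∈ N, z ∉ Submodule.span ℝ {v} ∧ B z z = 1 ∧ (∃ θ ∈ Lam B Φ, B z θ = 0) ∧ z ∈ Sat G O := by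
  obtain ⟨ζ, hζ, η, hη, hζη, huζ, huη⟩ := hu
  have hcl : u ∈ closure (FS B G O ζ) := by
    refine core hB hD hspan hO hy₀ hy₀1 hξ₀ hy₀ξ hζ (η := (B ζ η)⁻¹ • η)
      (Lam.smul hη (inv_ne_zero hζη)) ?_ hu1 huζ ?_
    · simp only [map_smul, smul_eq_mul]
      exact inv_mul_cancel₀ hζη
    · rw [map_smul, huη, smul_zero]
  obtain ⟨z, hzN, hzS, hz1, hzζ⟩ := mem_closure_iff.1 hcl N hN huN
  by_cases hzv : z ∈ Submodule.span ℝ {v}
  · have hopen : IsOpen (N ∩ Sat G O) := hN.inter (isOpen_Sat hO)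
    have hcont : Continuous fun t : ℝ => z + t • ζ := by fun_prop
    have h1 : ∀ᶠ t in 𝓝 (0 : ℝ), z + t • ζ ∈ N ∩ Sat G O := by
      apply hcont.continuousAt.eventually_mem
      apply hopen.mem_nhds
      simpa using ⟨hzN, hzS⟩
    have h2 : ∀ᶠ t in 𝓝[≠] (0 : ℝ), z + t • ζ ∈ N ∩ Sat G O ∧ t ≠ 0 :=
      (h1.filter_mono nhdsWithin_le_nhds).and self_mem_nhdsWithin
    obtain ⟨t, ⟨htN, htS⟩, ht0⟩ := h2.exists
    have hζz : B ζ z = 0 := by rw [hB.symm]; exact hzζ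
    refine ⟨z + t • ζ, htN, ?_, ?_, ⟨ζ, hζ, ?_⟩, htS⟩
    · intro h
      have h3 : t • ζ ∈ Submodule.span ℝ {v} := by
        have := Submodule.sub_mem _ h hzv
        rwa [add_sub_cancel_left] at this
      obtain ⟨a, ha⟩ := Submodule.mem_span_singleton.1 hzv
      obtain ⟨b, hb⟩ := Submodule.mem_span_singleton.1 h3
      have h4 : a ^ 2 * B v v = 1 := by
        rw [← hz1, ← ha]
        simp only [map_smul, LinearMap.smul_apply, smul_eq_mul]
        ring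
      have h5 : b ^ 2 * B v v = 0 := by
        have : B (t • ζ) (t • ζ) = 0 := by simp [hζ.2.1]
        rw [← this, ← hb]
        simp only [map_smul, LinearMap.smul_apply, smul_eq_mul]
        ring
      have h6 : B v v ≠ 0 := by
        intro h
        rw [h, mul_zero] at h4
        exact zero_ne_one h4
      have h7 : b = 0 := by
        have := (mul_eq_zero.1 h5).resolve_right h6
        simpa using this
      rw [h7, zero_smul] at hb
      exact (smul_ne_zero ht0 hζ.1) hb.symm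
    · simp only [map_add, map_smul, LinearMap.add_apply, LinearMap.smul_apply, smul_eq_mul,
        hzζ, hζz, hζ.2.1, hz1]
      ring
    · simp only [map_add, map_smul, LinearMap.add_apply, LinearMap.smul_apply, smul_eq_mul,
        hzζ, hζ.2.1]
      ring
  · exact ⟨z, hzN, hzv, hz1, ⟨ζ, hζ, hzζ⟩, hzS⟩

/-- The space-like base point. -/
theorem exists_base (hB : IsLor B) (hD : RootData B G Φ)
    (hspan : Submodule.span ℝ (Lam B Φ) = ⊤) {v : V}
    (hv : v ∈ closure {u | u ∈ UU B Φ ∧ B u u = 1}) :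
    ∃ p, ∀ ε > 0, ∃ g ∈ G, ‖g p - v‖ < ε ∧ g p ∉ Submodule.span ℝ {v} := by
  let X : Set V := {y | B y y = 1 ∧ ∃ θ ∈ Lam B Φ, B y θ = 0}
  let Y : Set V := closure X
  have hX : ∀ y ∈ UU B Φ, B y y = 1 → y ∈ X := by
    rintro y ⟨ζ, hζ, η, hη, hζη, huζ, huη⟩ hy
    exact ⟨hy, ζ, hζ, huζ⟩
  have hvne : {u | u ∈ UU B Φ ∧ B u u = 1}.Nonempty := closure_nonempty_iff.1 ⟨v, hv⟩
  obtain ⟨u₀, hu₀, hu₀1⟩ := hvne
  have : CompleteSpace Y := isClosed_closure.completeSpace_coe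
  have : Nonempty Y := ⟨⟨u₀, subset_closure (hX _ hu₀ hu₀1)⟩⟩
  let N : ℕ → Set V := fun k => Metric.ball v (1 / ((k : ℝ) + 1)) ∩ (Submodule.span ℝ {v} : Set V)ᶜ
  have hN : ∀ k, IsOpen (N k) := fun k =>
    Metric.isOpen_ball.inter (Submodule.closed_of_finiteDimensional _).isOpen_compl
  let U : ℕ → Set Y := fun k => Subtype.val ⁻¹' (Sat G (N k))
  have hU : ∀ k, IsOpen (U k) := fun k => (isOpen_Sat (hN k)).preimage continuous_subtype_val
  have hUd : ∀ k, Dense (U k) := by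
    intro k
    rw [dense_iff_inter_open]
    rintro W hW ⟨⟨y, hy⟩, hyW⟩
    obtain ⟨O, hO, rfl⟩ := isOpen_induced_iff.1 hW
    obtain ⟨y₀, hy₀O, hy₀1, ξ₀, hξ₀, hy₀ξ⟩ := mem_closure_iff.1 hy O hO hyW
    have hball : IsOpen (Metric.ball v (1 / ((k : ℝ) + 1))) := Metric.isOpen_ball
    obtain ⟨u, hub, huU, hu1⟩ := mem_closure_iff.1 hv _ hball
      (Metric.mem_ball_self (by positivity))
    obtain ⟨z, hzN, hzv, hz1, ⟨θ, hθ, hzθ⟩, ⟨g, hg, hgz⟩⟩ := move (v := v) hB hD hspan hO hy₀O hy₀1 hξ₀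
      hy₀ξ hball hub huU hu1
    refine ⟨⟨g z, subset_closure ⟨by rw [hD.isom g hg, hz1], g θ, Lam.map hD hθ hg, by
      rw [hD.isom g hg, hzθ]⟩⟩, hgz, ⟨g⁻¹, G.inv_mem hg, ?_⟩⟩
    have : g⁻¹ (g z) = z := LinearEquiv.symm_apply_apply g z
    simp only [this]
    exact ⟨hzN, hzv⟩
  have hdense := dense_iInter_of_isOpen_nat hU hUd
  obtain ⟨p, hp⟩ := hdense.nonempty
  refine ⟨p, fun ε hε => ?_⟩
  obtain ⟨k, hk⟩ := exists_nat_one_div_lt hε
  obtain ⟨g, hg, hgp1, hgp2⟩ := Set.mem_iInter.1 hp k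
  refine ⟨g, hg, ?_, hgp2⟩
  rw [Metric.mem_ball, dist_eq_norm] at hgp1
  exact hgp1.trans hk

/-! ### Hyperbolic elements -/

/-- Light-like vectors which are contracted by a group element. -/
def Sc (B : LinearMap.BilinForm ℝ V) (G : Subgroup (V ≃ₗ[ℝ] V)) : Set V :=
  {x | x ≠ 0 ∧ B x x = 0 ∧ ∃ μ : ℝ, 0 < μ ∧ μ < 1 ∧ ∃ g ∈ G, g x = μ • x}

theorem Sc.map (hD : RootData B G Φ) {x : V} (hx : x ∈ Sc B G) {g : V ≃ₗ[ℝ] V} (hg : g ∈ G) :
    g x ∈ Sc B G := by
  obtain ⟨h0, h1, μ, hμ0, hμ1, h, hh, hhx⟩ := hx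
  refine ⟨by simpa using h0, by rw [hD.isom g hg, h1], μ, hμ0, hμ1, g * h * g⁻¹,
    G.mul_mem (G.mul_mem hg hh) (G.inv_mem hg), ?_⟩
  have : g⁻¹ (g x) = x := LinearEquiv.symm_apply_apply g x
  rw [LinearEquiv.mul_apply, LinearEquiv.mul_apply, this, hhx, map_smul]

theorem exists_root {b : ℝ} (hb : 1 < |b|) : ∃ m : ℝ, m ^ 2 + 2 * b * m + 1 = 0 ∧ |m| < 1 ∧
    m ≠ 0 := by
  have hb2 : 1 < b ^ 2 := by
    rw [← sq_abs]
    nlinarith
  have hs : √(b ^ 2 - 1) ^ 2 = b ^ 2 - 1 := Real.sq_sqrt (by linarith)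
  have hs0 : 0 < √(b ^ 2 - 1) := Real.sqrt_pos.2 (by linarith)
  set s := √(b ^ 2 - 1)
  have hprod : (-b + s) * (-b - s) = 1 := by nlinarith
  have h1 : (-b + s) ^ 2 + 2 * b * (-b + s) + 1 = 0 := by nlinarith
  have h2 : (-b - s) ^ 2 + 2 * b * (-b - s) + 1 = 0 := by nlinarith
  have hne1 : -b + s ≠ 0 := by
    intro h
    rw [h, zero_mul] at hprod
    exact zero_ne_one hprod
  have hne2 : -b - s ≠ 0 := by
    intro h
    rw [h, mul_zero] at hprod
    exact zero_ne_one hprod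
  by_cases h : |(-b + s)| < 1
  · exact ⟨_, h1, h, hne1⟩
  · refine ⟨_, h2, ?_, hne2⟩
    push Not at h
    have h3 : |(-b + s)| * |(-b - s)| = 1 := by rw [← abs_mul, hprod, abs_one]
    by_contra hcon
    push Not at hcon
    have h4 : |(-b + s)| = 1 := by nlinarith
    have h5 : |(-b - s)| = 1 := by nlinarith
    have h6 : (-b + s) ^ 2 = 1 := by rw [← sq_abs, h4]; norm_num
    have h7 : (-b - s) ^ 2 = 1 := by rw [← sq_abs, h5]; norm_num
    nlinarith

theorem exists_Sc (hB : IsLor B) (hD : RootData B G Φ) {ξ η : V} (hξ : ξ ∈ Lam B Φ)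
    (hη : η ∈ Lam B Φ) (hξη : B ξ η ≠ 0) :
    ∃ x ∈ Sc B G, ∃ x' ∈ Sc B G, B x x' ≠ 0 := by
  obtain ⟨h0, hξξ, α, s, hα, hlim⟩ := hξ
  obtain ⟨h0', hηη, β, t, hβ, hlim'⟩ := hη
  have hs := scal_tendsto hD hξξ hα hlim
  have ht := scal_tendsto hD hηη hβ hlim'
  have h1 := tendsto_form B hlim hlim'
  have h2 : ∃ k, 1 < |B (α k) (β k)| := by
    by_contra hcon
    push Not at hcon
    have h3 : Tendsto (fun k => B (s k • α k) (t k • β k)) atTop (𝓝 0) := by
      rw [tendsto_zero_iff_abs_tendsto_zero]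
      have h4 : Tendsto (fun k => |s k| * |t k|) atTop (𝓝 0) := by
        have := hs.abs.mul ht.abs
        simpa using this
      refine squeeze_zero (fun k => abs_nonneg _) (fun k => ?_) h4
      simp only [Function.comp, map_smul, LinearMap.smul_apply, smul_eq_mul, abs_mul]
      have := hcon k
      nlinarith [abs_nonneg (s k), abs_nonneg (t k),
        mul_nonneg (abs_nonneg (s k)) (abs_nonneg (t k))]
    exact hξη (tendsto_nhds_unique h1 h3)
  obtain ⟨k, hk⟩ := h2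
  have ha := hD.one _ (hα k)
  have hb := hD.one _ (hβ k)
  obtain ⟨m, hm, hm1, hm0⟩ := exists_root hk
  obtain ⟨g, hg, hgx⟩ := hD.refl _ (hα k)
  obtain ⟨h, hh, hhx⟩ := hD.refl _ (hβ k)
  have hβα : B (β k) (α k) = B (α k) (β k) := hB.symm _ _
  set a := α k
  set b := β k
  set c := B a b with hc
  have hmsq : m ^ 2 < 1 := by
    rw [← sq_abs]
    nlinarith [abs_nonneg m]
  have hm2 : 0 < m ^ 2 := by positivity
  have hc2 : 1 < c ^ 2 := by
    rw [← sq_abs]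
    nlinarith
  have hx0 : ∀ r : ℝ, a + r • b ≠ 0 := by
    intro r hr
    have e1 : B (a + r • b) a = 0 := by rw [hr]; simp
    have e2 : B (a + r • b) b = 0 := by rw [hr]; simp
    simp only [map_add, map_smul, LinearMap.add_apply, LinearMap.smul_apply, smul_eq_mul, ha, hb,
      hβα, ← hc] at e1 e2
    have : c ^ 2 = 1 := by
      have e3 : r = -c := by linarith
      rw [e3] at e1
      nlinarith
    linarith
  have hxx : ∀ r : ℝ, r ^ 2 + 2 * c * r + 1 = 0 → B (a + r • b) (a + r • b) = 0 := by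
    intro r hr
    simp only [map_add, map_smul, LinearMap.add_apply, LinearMap.smul_apply, smul_eq_mul, ha, hb,
      hβα, ← hc]
    linarith
  have hm' : m⁻¹ ^ 2 + 2 * c * m⁻¹ + 1 = 0 := by
    field_simp
    linarith
  refine ⟨a + m • b, ⟨hx0 m, hxx m hm, m ^ 2, hm2, hmsq, h * g, G.mul_mem hh hg, ?_⟩,
    a + m⁻¹ • b, ⟨hx0 _, hxx _ hm', m ^ 2, hm2, hmsq, g * h, G.mul_mem hg hh, ?_⟩, ?_⟩
  · rw [LinearEquiv.mul_apply, hgx, hhx]
    simp only [map_add, map_sub, map_smul, LinearMap.add_apply, LinearMap.sub_apply,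
      LinearMap.smul_apply, smul_eq_mul, ha, hb, hβα, ← hc]
    have e1 : 2 * c * m = -1 - m ^ 2 := by linarith
    match_scalars
    · linear_combination (-1 : ℝ) * e1
    · linear_combination (2 * c - m) * e1
  · rw [LinearEquiv.mul_apply, hhx, hgx]
    simp only [map_add, map_sub, map_smul, LinearMap.add_apply, LinearMap.sub_apply,
      LinearMap.smul_apply, smul_eq_mul, ha, hb, hβα, ← hc]
    have hn : m * m⁻¹ = 1 := mul_inv_cancel₀ hm0
    have e : m + m⁻¹ + 2 * c = 0 := by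
      field_simp
      linarith
    generalize m⁻¹ = n at hn e ⊢
    match_scalars
    · linear_combination (2 * c - m) * e + hn
    · linear_combination (-1 : ℝ) * e - m * hn
  · simp only [map_add, map_smul, LinearMap.add_apply, LinearMap.smul_apply, smul_eq_mul, ha, hb,
      hβα, ← hc]
    intro h5
    have e2 : m + m⁻¹ = -2 * c := by
      field_simp
      linarith
    have e3 : m * m⁻¹ = 1 := mul_inv_cancel₀ hm0
    have : 2 - 2 * c ^ 2 = 0 := by
      linear_combination h5 - c * e2 - e3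
    linarith

end Pool.Agent.H389.Lorentz
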