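import Mathlib
import Pool.Agent.H389.Base

/-!
# Light-like base points
-/

open Filter Topology Module

set_option linter.unusedSectionVars false

namespace Pool.Agent.H389.Lorentz

variable {V : Type*} [NormedAddCommGroup V] [NormedSpace ℝ V] [FiniteDimensional ℝ V]
variable {B : LinearMap.BilinForm ℝ V} {G : Subgroup (V ≃ₗ[ℝ] V)} {Φ : Set V}

theorem pow_apply_eig {g : V ≃ₗ[ℝ] V} {x : V} {μ : ℝ} (h : g x = μ • x) (k : ℕ) :
    (g ^ k) x = μ ^ k • x := by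
  induction k with
  | zero => simp
  | succ k ih =>
    rw [pow_succ, LinearEquiv.mul_apply, h, map_smul, ih, smul_smul, pow_succ]
    congr 1
    ring

theorem exists_small {x : V} (hx : x ∈ Sc B G) : ∀ ε > 0, ∃ g ∈ G, ‖g x‖ < ε := by
  obtain ⟨h0, h1, μ, hμ0, hμ1, g, hg, hgx⟩ := hx
  intro ε hε
  have h2 : Tendsto (fun k : ℕ => μ ^ k * ‖x‖) atTop (𝓝 0) := by
    have := (tendsto_pow_atTop_nhds_zero_of_lt_one hμ0.le hμ1).mul_const ‖x‖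
    simpa using this
  obtain ⟨k, hk⟩ := (h2.eventually (gt_mem_nhds hε)).exists
  refine ⟨g ^ k, G.pow_mem hg k, ?_⟩
  rw [pow_apply_eig hgx, norm_smul, Real.norm_eq_abs, abs_of_pos (pow_pos hμ0 k)]
  exact hk

theorem refl_lim {α : ℕ → V} {s : ℕ → ℝ} {ξ : V} (hs : Tendsto s atTop (𝓝 0))
    (hlim : Tendsto (fun k => s k • α k) atTop (𝓝 ξ)) (u : V) :
    Tendsto (fun k => (s k ^ 2) • (u - (2 * B u (α k)) • α k)) atTop
      (𝓝 (-((2 * B u ξ) • ξ))) := by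
  have h1 : Tendsto (fun k => (s k ^ 2) • u - (2 * B u (s k • α k)) • (s k • α k)) atTop
      (𝓝 ((0 : ℝ) ^ 2 • u - (2 * B u ξ) • ξ)) :=
    ((hs.pow 2).smul_const u).sub
      (((tendsto_form B tendsto_const_nhds hlim).const_mul 2).smul hlim)
  have h2 : ((0 : ℝ) ^ 2 • u - (2 * B u ξ) • ξ) = -((2 * B u ξ) • ξ) := by simp
  rw [h2] at h1
  refine h1.congr fun k => ?_
  rw [map_smul, smul_eq_mul, smul_sub, smul_smul, smul_smul]
  congr 2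
  ring

theorem light_aux (hD : RootData B G Φ) {ξ x : V} {α : ℕ → V} {s : ℕ → ℝ} (hξ0 : ξ ≠ 0)
    (hξξ : B ξ ξ = 0)
    (hα : ∀ k, α k ∈ Φ) (hlim : Tendsto (fun k => s k • α k) atTop (𝓝 ξ)) (hx : x ∈ Sc B G)
    (hxξ : B x ξ ≠ 0)
    (hfr : ∃ᶠ k in atTop, x - (2 * B x (α k)) • α k ∉ Submodule.span ℝ {ξ}) :
    ∃ y, ∀ ε > 0, ∃ g ∈ G, ‖g y - ξ‖ < ε ∧ g y ∉ Submodule.span ℝ {ξ} := by
  have hs := scal_tendsto hD hξξ hα hlim
  have hs0 := scal_ne hξ0 hlim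
  have hs1 : ∀ᶠ k in atTop, s k ^ 2 ≤ 1 := by
    have h1 := hs.pow 2
    have h2 : ∀ᶠ k in atTop, s k ^ 2 < 1 := h1.eventually (gt_mem_nhds (by norm_num))
    exact h2.mono fun k hk => hk.le
  have hr : ∀ k, ∃ g ∈ G, ∀ x, g x = x - (2 * B x (α k)) • α k := fun k => hD.refl _ (hα k)
  choose f hfG hf using hr
  obtain ⟨φ, hφ, hφP⟩ := extraction_of_frequently_atTop (hfr.and_eventually (hs0.and hs1))
  obtain ⟨h0, h1, μ, hμ0, hμ1, g₀, hg₀, hg₀x⟩ := hx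
  have hj : ∀ n, ∃ j : ℕ, μ ^ (j + 1) < s (φ n) ^ 2 ∧ s (φ n) ^ 2 ≤ μ ^ j := fun n => by
    have h2 := (hφP n).2.1
    exact exists_nat_pow_near_of_lt_one (by positivity) (hφP n).2.2 hμ0 hμ1
  choose j hj1 hj2 using hj
  have hspos : ∀ n, 0 < s (φ n) ^ 2 := fun n => by
    have h2 := (hφP n).2.1
    positivity
  set b : ℕ → ℝ := fun n => μ ^ (j n) / s (φ n) ^ 2 with hb
  have hbI : ∀ n, b n ∈ Set.Icc 1 (1 / μ) := by
    intro n
    have h2 := hspos n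
    constructor
    · rw [hb]
      simp only
      rw [le_div_iff₀ h2, one_mul]
      exact hj2 n
    · rw [hb]
      simp only
      rw [div_le_div_iff₀ h2 hμ0, one_mul, ← pow_succ]
      exact (hj1 n).le
  obtain ⟨b', hb', ψ, hψ, hψlim⟩ := isCompact_Icc.tendsto_subseq hbI
  have hlim2 : Tendsto (fun n => s (φ (ψ n)) ^ 2 • (x - (2 * B x (α (φ (ψ n)))) • α (φ (ψ n))))
      atTop (𝓝 (-((2 * B x ξ) • ξ))) :=
    (refl_lim (B := B) hs hlim x).comp ((hφ.comp hψ).tendsto_atTop)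
  have hlim3 := hψlim.smul hlim2
  have hb'0 : b' ≠ 0 := by
    have := hb'.1
    linarith
  set c : ℝ := -(b' * (2 * B x ξ)) with hc
  have hc0 : c ≠ 0 := by
    rw [hc]
    simp [hb'0, hxξ]
  have hcξ : b' • -((2 * B x ξ) • ξ) = c • ξ := by
    rw [hc, smul_neg, smul_smul, neg_smul]
  rw [hcξ] at hlim3
  have hlim4 := hlim3.const_smul c⁻¹
  rw [smul_smul, inv_mul_cancel₀ hc0, one_smul] at hlim4
  have hval : ∀ n, (f (φ (ψ n)) * g₀ ^ (j (ψ n))) (c⁻¹ • x) =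
      c⁻¹ • (b ∘ ψ) n • (s (φ (ψ n)) ^ 2 • (x - (2 * B x (α (φ (ψ n)))) • α (φ (ψ n)))) := by
    intro n
    rw [LinearEquiv.mul_apply, map_smul, pow_apply_eig hg₀x, map_smul, map_smul, hf,
      smul_smul ((b ∘ ψ) n)]
    congr 2
    simp only [Function.comp, hb]
    rw [div_mul_cancel₀ _ (hspos (ψ n)).ne']
  refine ⟨c⁻¹ • x, fun ε hε => ?_⟩
  have h5 : ∀ᶠ n in atTop, ‖(f (φ (ψ n)) * g₀ ^ (j (ψ n))) (c⁻¹ • x) - ξ‖ < ε := by
    have h6 : Tendsto (fun n => (f (φ (ψ n)) * g₀ ^ (j (ψ n))) (c⁻¹ • x)) atTop (𝓝 ξ) :=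
      hlim4.congr fun n => (hval n).symm
    have h7 := h6.eventually (Metric.ball_mem_nhds ξ hε)
    filter_upwards [h7] with n hn
    rwa [dist_eq_norm] at hn
  obtain ⟨n, hn⟩ := h5.exists
  refine ⟨_, G.mul_mem (hfG _) (G.pow_mem hg₀ _), hn, ?_⟩
  rw [hval n]
  intro hmem
  apply (hφP (ψ n)).1
  rw [smul_smul, smul_smul] at hmem
  refine (Submodule.smul_mem_iff _ ?_).1 hmem
  refine mul_ne_zero (mul_ne_zero (inv_ne_zero hc0) ?_) (hspos (ψ n)).ne'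
  have := (hbI (ψ n)).1
  simp only [Function.comp]
  linarith

/-- A third element of `Lam`. -/
theorem third (hB : IsLor B) (hspan : Submodule.span ℝ (Lam B Φ) = ⊤) {u : V} (hu0 : u ≠ 0)
    (hu : u ∈ UU B Φ) {x x' : V} (hx0 : x ≠ 0) (hxx : B x x = 0) (hx'0 : x' ≠ 0)
    (hx'x' : B x' x' = 0) : ∃ θ ∈ Lam B Φ, B θ x ≠ 0 ∧ B θ x' ≠ 0 := by
  obtain ⟨ζ, hζ, η, hη, hζη, huζ, huη⟩ := hu
  by_contra hcon
  push Not at hcon
  have hpar : ∀ θ ∈ Lam B Φ, (∃ t : ℝ, θ = t • x) ∨ (∃ t : ℝ, θ = t • x') := by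
    intro θ hθ
    by_cases h : B θ x = 0
    · exact Or.inl (hB.prop hx0 hxx hθ.2.1 h)
    · exact Or.inr (hB.prop hx'0 hx'x' hθ.2.1 (hcon θ hθ h))
  have hu2 : B u x = 0 ∧ B u x' = 0 := by
    have key : ∀ {a b : V}, B a a = 0 → B b b = 0 → ∀ {t t' : ℝ}, ζ = t • a → η = t' • b →
        B u a = 0 ∧ B u b = 0 := by
      intro a b _ _ t t' h1 h2
      have ht : t ≠ 0 := by
        rintro rfl
        exact hζ.1 (by rw [h1, zero_smul])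
      have ht' : t' ≠ 0 := by
        rintro rfl
        exact hη.1 (by rw [h2, zero_smul])
      rw [h1, map_smul, smul_eq_mul] at huζ
      rw [h2, map_smul, smul_eq_mul] at huη
      exact ⟨(mul_eq_zero.1 huζ).resolve_left ht, (mul_eq_zero.1 huη).resolve_left ht'⟩
    rcases hpar ζ hζ with ⟨t, ht⟩ | ⟨t, ht⟩ <;> rcases hpar η hη with ⟨t', ht'⟩ | ⟨t', ht'⟩
    · exfalso
      apply hζη
      rw [ht, ht']
      simp [hxx]
    · exact key hxx hx'x' ht ht'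
    · exact (key hx'x' hxx ht ht').symm
    · exfalso
      apply hζη
      rw [ht, ht']
      simp [hx'x']
  apply hu0
  apply hB.nondeg
  intro y
  have hy : y ∈ Submodule.span ℝ (Lam B Φ) := by rw [hspan]; trivial
  induction hy using Submodule.span_induction with
  | mem θ hθ =>
    rcases hpar θ hθ with ⟨t, ht⟩ | ⟨t, ht⟩
    · rw [ht, map_smul, hu2.1, smul_zero]
    · rw [ht, map_smul, hu2.2, smul_zero]
  | zero => simp
  | add x y _ _ hx hy => simp [hx, hy]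
  | smul a x _ hx => simp [hx]

theorem second_aux (hD : RootData B G Φ) {x' θ ξ : V} (hx' : x' ∈ Sc B G)
    (hθ : θ ∈ Lam B Φ) (hxθ : B x' θ ≠ 0) (hθξ : B θ ξ ≠ 0) :
    ∃ x₂ ∈ Sc B G, B x₂ ξ ≠ 0 ∧ B x' x₂ ≠ 0 := by
  obtain ⟨h0, hθθ, δ, t, hδ, hlim⟩ := hθ
  have ht := scal_tendsto hD hθθ hδ hlim
  have h1 := refl_lim (B := B) ht hlim x'
  have h2 := tendsto_form B h1 (tendsto_const_nhds (x := ξ))
  have h3 := tendsto_form B (tendsto_const_nhds (x := x')) h1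
  have h4 : B (-((2 * B x' θ) • θ)) ξ ≠ 0 := by
    simp [hxθ, hθξ]
  have h5 : B x' (-((2 * B x' θ) • θ)) ≠ 0 := by
    simp [hxθ]
  obtain ⟨k, hk1, hk2⟩ := ((h2.eventually_ne h4).and (h3.eventually_ne h5)).exists
  obtain ⟨g, hg, hgx⟩ := hD.refl _ (hδ k)
  refine ⟨g x', Sc.map hD hx' hg, ?_, ?_⟩
  · rw [hgx]
    intro h
    apply hk1
    rw [map_smul, LinearMap.smul_apply, h, smul_zero]
  · rw [hgx]
    intro h
    apply hk2
    rw [map_smul, h, smul_zero]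

theorem exists_two (hB : IsLor B) (hD : RootData B G Φ)
    (hspan : Submodule.span ℝ (Lam B Φ) = ⊤) {u : V} (hu0 : u ≠ 0) (hu : u ∈ UU B Φ) {ξ : V}
    (hξ : ξ ∈ Lam B Φ) :
    ∃ x₁ ∈ Sc B G, ∃ x₂ ∈ Sc B G, B x₁ ξ ≠ 0 ∧ B x₂ ξ ≠ 0 ∧ B x₁ x₂ ≠ 0 := by
  obtain ⟨ζ, hζ, η, hη, hζη, -, -⟩ := id hu
  obtain ⟨x, hx, x', hx', hxx'⟩ := exists_Sc hB hD hζ hη hζη
  have hx'x : B x' x ≠ 0 := by rwa [hB.symm]
  obtain ⟨θ, hθ, hθx, hθx'⟩ := third hB hspan hu0 hu hx.1 hx.2.1 hx'.1 hx'.2.1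
  have key : ∀ {x x' : V}, x ∈ Sc B G → x' ∈ Sc B G → B x x' ≠ 0 → B θ x ≠ 0 → B θ x' ≠ 0 →
      B x ξ = 0 →
      ∃ x₁ ∈ Sc B G, ∃ x₂ ∈ Sc B G, B x₁ ξ ≠ 0 ∧ B x₂ ξ ≠ 0 ∧ B x₁ x₂ ≠ 0 := by
    intro x x' hx hx' hxx' hθx hθx' h
    obtain ⟨t, ht⟩ := hB.prop hξ.1 hξ.2.1 hx.2.1 h
    have ht0 : t ≠ 0 := by
      rintro rfl
      exact hx.1 (by rw [ht, zero_smul])
    have hθξ : B θ ξ ≠ 0 := by
      intro h1
      apply hθx
      rw [ht, map_smul, h1, smul_zero]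
    have hx'ξ : B x' ξ ≠ 0 := by
      intro h1
      apply hxx'
      rw [hB.symm, ht, map_smul, h1, smul_zero]
    obtain ⟨x₂, hx₂, h2, h3⟩ := second_aux hD hx' hθ (by rwa [hB.symm]) hθξ
    exact ⟨x', hx', x₂, hx₂, hx'ξ, h2, h3⟩
  by_cases h1 : B x ξ = 0
  · exact key hx hx' hxx' hθx hθx' h1
  · by_cases h2 : B x' ξ = 0
    · exact key hx' hx hx'x hθx' hθx h2
    · exact ⟨x, hx, x', hx', h1, h2, hxx'⟩

/-- The light-like base point. -/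
theorem exists_light (hB : IsLor B) (hD : RootData B G Φ)
    (hspan : Submodule.span ℝ (Lam B Φ) = ⊤) {u : V} (hu0 : u ≠ 0) (hu : u ∈ UU B Φ) {ξ : V}
    (hξ : ξ ∈ Lam B Φ) :
    ∃ y, ∀ ε > 0, ∃ g ∈ G, ‖g y - ξ‖ < ε ∧ g y ∉ Submodule.span ℝ {ξ} := by
  obtain ⟨x₁, hx₁, x₂, hx₂, h1, h2, h12⟩ := exists_two hB hD hspan hu0 hu hξ
  obtain ⟨h0, hξξ, α, s, hα, hlim⟩ := id hξ
  have hor : ∀ k, (x₁ - (2 * B x₁ (α k)) • α k ∉ Submodule.span ℝ {ξ}) ∨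
      (x₂ - (2 * B x₂ (α k)) • α k ∉ Submodule.span ℝ {ξ}) := by
    intro k
    by_contra hcon
    push Not at hcon
    obtain ⟨⟨a, ha⟩, ⟨b, hb⟩⟩ := And.imp Submodule.mem_span_singleton.1
      Submodule.mem_span_singleton.1 hcon
    obtain ⟨g, hg, hgx⟩ := hD.refl _ (hα k)
    apply h12
    rw [← hD.isom g hg, hgx, hgx, ← ha, ← hb]
    simp [hξξ]
  have hfr : ∃ᶠ k in atTop, ((x₁ - (2 * B x₁ (α k)) • α k ∉ Submodule.span ℝ {ξ}) ∨
      (x₂ - (2 * B x₂ (α k)) • α k ∉ Submodule.span ℝ {ξ})) := Frequently.of_forall hor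
  rcases frequently_or_distrib.1 hfr with h | h
  · exact light_aux hD h0 hξξ hα hlim hx₁ h1 h
  · exact light_aux hD h0 hξξ hα hlim hx₂ h2 h

/-- `Lam` is closed in the complement of `0`. -/
theorem Lam_closed {ζ : ℕ → V} (hζ : ∀ k, ζ k ∈ Lam B Φ) {ξ : V} (hξ : ξ ≠ 0)
    (hlim : Tendsto ζ atTop (𝓝 ξ)) : ξ ∈ Lam B Φ := by
  have h1 : B ξ ξ = 0 := by
    have := tendsto_form B hlim hlim
    simp only [(hζ _).2.1] at this
    exact tendsto_nhds_unique this tendsto_const_nhds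
  have h2 : ∀ k : ℕ, ∃ α ∈ Φ, ∃ s : ℝ, ‖s • α - ζ k‖ < 1 / ((k : ℝ) + 1) := by
    intro k
    obtain ⟨-, -, α, s, hα, hl⟩ := hζ k
    have := hl.eventually (Metric.ball_mem_nhds (ζ k) (show (0 : ℝ) < 1 / ((k : ℝ) + 1) by
      positivity))
    obtain ⟨j, hj⟩ := this.exists
    rw [dist_eq_norm] at hj
    exact ⟨α j, hα j, s j, hj⟩
  choose α hα s hs using h2
  refine ⟨hξ, h1, α, s, hα, ?_⟩
  have h3 : Tendsto (fun k => s k • α k - ζ k) atTop (𝓝 0) := by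
    rw [tendsto_zero_iff_norm_tendsto_zero]
    exact squeeze_zero (fun k => norm_nonneg _) (fun k => (hs k).le)
      tendsto_one_div_add_atTop_nhds_zero_nat
  have := h3.add hlim
  simpa using this

end Pool.Agent.H389.Lorentz
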