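import Mathlib
import Pool.Agent.H389.Light

/-!
# The span of the light-like limits of roots, and the abstract main statement
-/

open Filter Topology Module

set_option linter.unusedSectionVars false

namespace Pool.Agent.H389.Lorentz

variable {V : Type*} [NormedAddCommGroup V] [NormedSpace ℝ V] [FiniteDimensional ℝ V]
variable {B : LinearMap.BilinForm ℝ V} {G : Subgroup (V ≃ₗ[ℝ] V)} {Φ : Set V}

/-- The span of `Lam`. -/
abbrev LL (B : LinearMap.BilinForm ℝ V) (Φ : Set V) : Submodule ℝ V :=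
  Submodule.span ℝ (Lam B Φ)

theorem root_mem (hD : RootData B G Φ) {α : V} (hα : α ∈ Φ) :
    (∀ x ∈ LL B Φ, B x α = 0) ∨ α ∈ LL B Φ := by
  by_cases h : ∃ x ∈ Lam B Φ, B x α ≠ 0
  · obtain ⟨x, hx, hxα⟩ := h
    right
    obtain ⟨g, hg, hgx⟩ := hD.refl α hα
    have h1 : g x ∈ LL B Φ := Submodule.subset_span (Lam.map hD hx hg)
    have h2 : x ∈ LL B Φ := Submodule.subset_span hx
    have h3 := Submodule.sub_mem _ h2 h1
    rw [hgx, sub_sub_cancel] at h3
    exact (Submodule.smul_mem_iff _ (by simpa using hxα)).1 h3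
  · push Not at h
    left
    intro x hx
    induction hx using Submodule.span_induction with
    | mem x hx => exact h x hx
    | zero => simp
    | add x y _ _ hx hy => simp [hx, hy]
    | smul a x _ hx => simp [hx]

/-- The restriction of the form. -/
abbrev BL (B : LinearMap.BilinForm ℝ V) (Φ : Set V) : LinearMap.BilinForm ℝ (LL B Φ) :=
  B.restrict (LL B Φ)

theorem BL_apply (x y : LL B Φ) : BL B Φ x y = B (x : V) (y : V) := rfl

/-- The roots in `L`. -/
def ΦL (B : LinearMap.BilinForm ℝ V) (Φ : Set V) : Set (LL B Φ) := {α | (α : V) ∈ Φ}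

/-- The group generated by the reflections in the roots in `L`. -/
def GLL (B : LinearMap.BilinForm ℝ V) (Φ : Set V) : Subgroup (LL B Φ ≃ₗ[ℝ] LL B Φ) :=
  Subgroup.closure {g | ∃ α ∈ ΦL B Φ, ∀ x, g x = x - (2 * BL B Φ x α) • α}

theorem transfer (hD : RootData B G Φ) {g : LL B Φ ≃ₗ[ℝ] LL B Φ} (hg : g ∈ GLL B Φ) :
    ∃ g' ∈ G, (∀ x : LL B Φ, g' x = (g x : V)) ∧ ∀ q, (∀ x ∈ LL B Φ, B q x = 0) → g' q = q := by
  induction hg using Subgroup.closure_induction with
  | mem g hg =>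
    obtain ⟨α, hα, hg⟩ := hg
    obtain ⟨g', hg', hg'x⟩ := hD.refl _ hα
    refine ⟨g', hg', fun x => ?_, fun q hq => ?_⟩
    · rw [hg, hg'x]
      rfl
    · rw [hg'x, hq _ α.2]
      simp
  | one => exact ⟨1, G.one_mem, fun x => rfl, fun q _ => rfl⟩
  | mul g h _ _ ihg ihh =>
    obtain ⟨g', hg', h1, h2⟩ := ihg
    obtain ⟨h', hh', h3, h4⟩ := ihh
    refine ⟨g' * h', G.mul_mem hg' hh', fun x => ?_, fun q hq => ?_⟩
    · rw [LinearEquiv.mul_apply, h3, h1, LinearEquiv.mul_apply]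
    · rw [LinearEquiv.mul_apply, h4 q hq, h2 q hq]
  | inv g _ ihg =>
    obtain ⟨g', hg', h1, h2⟩ := ihg
    refine ⟨g'⁻¹, G.inv_mem hg', fun x => ?_, fun q hq => ?_⟩
    · have h3 : g' ((g⁻¹ x : LL B Φ) : V) = x := by
        rw [h1]
        congr 1
        exact LinearEquiv.apply_symm_apply g x
      rw [← h3]
      exact LinearEquiv.symm_apply_apply g' _
    · conv_lhs => rw [← h2 q hq]
      exact LinearEquiv.symm_apply_apply g' _

theorem exists_refl (hD : RootData B G Φ) {α : LL B Φ} (hα : α ∈ ΦL B Φ) :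
    ∃ g : LL B Φ ≃ₗ[ℝ] LL B Φ, ∀ x, g x = x - (2 * BL B Φ x α) • α := by
  let f : LL B Φ →ₗ[ℝ] LL B Φ :=
    LinearMap.id - LinearMap.smulRight ((2 : ℝ) • ((BL B Φ).flip α)) α
  have hf : ∀ x, f x = x - (2 * BL B Φ x α) • α := fun x => by
    simp [f]
  have hαα : BL B Φ α α = 1 := hD.one _ hα
  have hinv : Function.Involutive f := by
    intro x
    rw [hf, hf, map_sub, LinearMap.sub_apply, map_smul, LinearMap.smul_apply, hαα, smul_eq_mul,
      mul_one, sub_sub, ← add_smul]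
    have : 2 * BL B Φ x α + 2 * (BL B Φ x α - 2 * BL B Φ x α) = 0 := by ring
    rw [this, zero_smul, sub_zero]
  exact ⟨LinearEquiv.ofInvolutive f hinv, hf⟩

theorem rootData (hD : RootData B G Φ) : RootData (BL B Φ) (GLL B Φ) (ΦL B Φ) where
  isom g hg x y := by
    obtain ⟨g', hg', h1, -⟩ := transfer hD hg
    rw [BL_apply, BL_apply, ← h1, ← h1, hD.isom g' hg']
  one α hα := hD.one _ hα
  stab g hg α hα := by
    obtain ⟨g', hg', h1, -⟩ := transfer hD hg
    show ((g α : LL B Φ) : V) ∈ Φ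
    rw [← h1]
    exact hD.stab g' hg' _ hα
  refl α hα := by
    obtain ⟨g, hg⟩ := exists_refl hD hα
    exact ⟨g, Subgroup.subset_closure ⟨α, hα, hg⟩, hg⟩

theorem isLor_L (hB : IsLor B) {ζ η : V} (hζ : ζ ∈ Lam B Φ) (hη : η ∈ Lam B Φ)
    (hζη : B ζ η ≠ 0) : IsLor (BL B Φ) where
  symm x y := hB.symm _ _
  ex := by
    have h1 : ζ ∈ LL B Φ := Submodule.subset_span hζ
    have h2 : η ∈ LL B Φ := Submodule.subset_span hη
    have hηζ : B η ζ = B ζ η := hB.symm _ _
    have hc : B (ζ - B ζ η • η) (ζ - B ζ η • η) < 0 := by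
      simp only [map_sub, map_smul, LinearMap.sub_apply, LinearMap.smul_apply, smul_eq_mul,
        hζ.2.1, hη.2.1, hηζ]
      have : 0 < B ζ η ^ 2 := by positivity
      nlinarith
    refine ⟨⟨ζ - B ζ η • η, Submodule.sub_mem _ h1 (Submodule.smul_mem _ _ h2)⟩, hc, ?_⟩
    intro x hx hx0
    exact hB.timelike hc hx (by simpa using hx0)

theorem lam_L (hB : IsLor B) (hD : RootData B G Φ) {ζ η : V} (hζ : ζ ∈ Lam B Φ)
    (hη : η ∈ Lam B Φ) (hζη : B ζ η ≠ 0) {ξ : V} (hξ : ξ ∈ Lam B Φ) :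
    (⟨ξ, Submodule.subset_span hξ⟩ : LL B Φ) ∈ Lam (BL B Φ) (ΦL B Φ) := by
  have hex : ∃ θ ∈ Lam B Φ, B θ ξ ≠ 0 := by
    by_contra hcon
    push Not at hcon
    obtain ⟨t, ht⟩ := hB.prop hξ.1 hξ.2.1 hζ.2.1 (hcon ζ hζ)
    apply hζη
    rw [ht, map_smul, LinearMap.smul_apply, hB.symm, hcon η hη, smul_zero]
  obtain ⟨θ, hθ, hθξ⟩ := hex
  obtain ⟨h0, hξξ, α, s, hα, hlim⟩ := id hξ
  have hev : ∀ᶠ k in atTop, α k ∈ LL B Φ := by
    have h1 := (tendsto_form B (tendsto_const_nhds (x := θ)) hlim).eventually_ne hθξ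
    filter_upwards [h1] with k hk
    rcases root_mem hD (hα k) with h | h
    · exfalso
      apply hk
      rw [map_smul, h θ (Submodule.subset_span hθ), smul_zero]
    · exact h
  obtain ⟨N, hN⟩ := eventually_atTop.1 hev
  refine ⟨fun h => h0 (congrArg Subtype.val h), hξξ,
    fun k => ⟨α (k + N), hN _ (Nat.le_add_left _ _)⟩, fun k => s (k + N), fun k => hα _, ?_⟩
  rw [tendsto_subtype_rng]
  exact hlim.comp (tendsto_add_atTop_nat N)

theorem span_L (hB : IsLor B) (hD : RootData B G Φ) {ζ η : V} (hζ : ζ ∈ Lam B Φ)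
    (hη : η ∈ Lam B Φ) (hζη : B ζ η ≠ 0) :
    Submodule.span ℝ (Lam (BL B Φ) (ΦL B Φ)) = ⊤ := by
  rw [eq_top_iff]
  rintro ⟨x, hx⟩ -
  induction hx using Submodule.span_induction with
  | mem x hx => exact Submodule.subset_span (lam_L hB hD hζ hη hζη hx)
  | zero => exact Submodule.zero_mem _
  | add x y _ _ hx hy => exact Submodule.add_mem _ hx hy
  | smul a x _ hx => exact Submodule.smul_mem _ a hx

/-- The projection onto `L`. -/
theorem exists_proj (hB : IsLor B) {ζ η : V} (hζ : ζ ∈ Lam B Φ) (hη : η ∈ Lam B Φ)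
    (hζη : B ζ η ≠ 0) :
    ∃ π : V →ₗ[ℝ] V, (∀ x, π x ∈ LL B Φ) ∧ ∀ x, ∀ y ∈ LL B Φ, B (x - π x) y = 0 := by
  have hL := isLor_L hB hζ hη hζη
  have hnd : (B.restrict (LL B Φ)).Nondegenerate := by
    constructor
    · intro x hx
      exact hL.nondeg hx
    · intro x hx
      exact hL.nondeg fun y => by rw [hL.symm]; exact hx y
  have hrefl : B.IsRefl := fun x y h => by rw [hB.symm]; exact h
  have hcompl := LinearMap.BilinForm.isCompl_orthogonal_of_restrict_nondegenerate hrefl hnd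
  refine ⟨(LL B Φ).projection _ hcompl, fun x => Submodule.projection_apply_mem _ _, ?_⟩
  intro x y hy
  have := Submodule.sub_projection_mem hcompl x
  rw [hB.symm]
  exact this y hy

end Pool.Agent.H389.Lorentz
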