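import Mathlib
import Pool.Agent.H389.Restrict

/-!
# The abstract main statement
-/

open Filter Topology Module

set_option linter.unusedSectionVars false

namespace Pool.Agent.H389.Lorentz

variable {V : Type*} [NormedAddCommGroup V] [NormedSpace ℝ V] [FiniteDimensional ℝ V]
variable {B : LinearMap.BilinForm ℝ V} {G : Subgroup (V ≃ₗ[ℝ] V)} {Φ : Set V}

theorem glue (hB : IsLor B) (hD : RootData B G Φ) {ζ η : V} (hζ : ζ ∈ Lam B Φ)
    (hη : η ∈ Lam B Φ) (hζη : B ζ η ≠ 0) {a : LL B Φ} {q : V}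
    (hq : ∀ x ∈ LL B Φ, B q x = 0) {y : LL B Φ}
    (H : ∀ ε > 0, ∃ g ∈ GLL B Φ, ‖g y - a‖ < ε ∧ g y ∉ Submodule.span ℝ {a}) :
    ∀ ε > 0, ∃ g ∈ G, ‖g ((y : V) + q) - (a + q)‖ < ε ∧
      g ((y : V) + q) ∉ Submodule.span ℝ {(a : V) + q} := by
  intro ε hε
  obtain ⟨g, hg, h1, h2⟩ := H ε hε
  obtain ⟨g', hg', h3, h4⟩ := transfer hD hg
  have hL := isLor_L hB hζ hη hζη
  refine ⟨g', hg', ?_, ?_⟩
  · rw [map_add, h3, h4 q hq, add_sub_add_right_eq_sub]
    exact h1
  · rw [map_add, h3, h4 q hq]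
    intro hmem
    obtain ⟨c, hc⟩ := Submodule.mem_span_singleton.1 hmem
    apply h2
    have h5 : ((g y - c • a : LL B Φ) : V) = (c - 1) • q := by
      rw [Submodule.coe_sub, Submodule.coe_smul, sub_smul, one_smul]
      rw [smul_add] at hc
      have : (g y : V) = c • (a : V) + c • q - q := by rw [hc, add_sub_cancel_right]
      rw [this]
      abel
    have h6 : g y - c • a = 0 := by
      apply hL.nondeg
      intro x
      rw [BL_apply, h5, map_smul, LinearMap.smul_apply, hq x x.2, smul_zero]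
    rw [sub_eq_zero] at h6
    rw [h6]
    exact Submodule.smul_mem _ _ (Submodule.mem_span_singleton_self a)

theorem UU_L (hB : IsLor B) (hD : RootData B G Φ) {ζ₀ η₀ : V} (hζ₀ : ζ₀ ∈ Lam B Φ)
    (hη₀ : η₀ ∈ Lam B Φ) (hζη₀ : B ζ₀ η₀ ≠ 0) {w : V} (hw : w ∈ UU B Φ) {a : LL B Φ}
    (ha : ∀ x ∈ LL B Φ, B (w - a) x = 0) : a ∈ UU (BL B Φ) (ΦL B Φ) := by
  obtain ⟨ζ, hζ, η, hη, hζη, h1, h2⟩ := hw
  refine ⟨_, lam_L hB hD hζ₀ hη₀ hζη₀ hζ, _, lam_L hB hD hζ₀ hη₀ hζη₀ hη, hζη, ?_, ?_⟩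
  · have := ha ζ (Submodule.subset_span hζ)
    rw [map_sub, LinearMap.sub_apply, h1, zero_sub, neg_eq_zero] at this
    exact this
  · have := ha η (Submodule.subset_span hη)
    rw [map_sub, LinearMap.sub_apply, h2, zero_sub, neg_eq_zero] at this
    exact this

theorem light_case (hD : RootData B G Φ)
    {Δ : Finset V} (hfin : ∀ α ∈ Φ, ∃ δ ∈ Δ, ∃ g ∈ G, g δ = α) {v : V} (hv : v ∈ Lam B Φ) :
    ∃ p ∈ Δ, p ≠ 0 ∧ ∀ ε > 0, ∃ g ∈ G, ∃ t : ℝ, ‖t • g p - v‖ < ε ∧
      g p ∉ Submodule.span ℝ {v} := by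
  obtain ⟨h0, hvv, α, s, hα, hlim⟩ := hv
  have hex : ∃ δ ∈ Δ, ∃ᶠ k in atTop, ∃ g ∈ G, g δ = α k := by
    by_contra hcon
    push Not at hcon
    have h1 : ∀ δ ∈ Δ, ∀ᶠ k in atTop, ¬ ∃ g ∈ G, g δ = α k := fun δ hδ => by
      simpa using hcon δ hδ
    have h2 := (eventually_all_finset Δ).2 h1
    obtain ⟨k, hk⟩ := h2.exists
    obtain ⟨δ, hδ, hg⟩ := hfin _ (hα k)
    exact hk δ hδ hg
  obtain ⟨δ, hδ, hfr⟩ := hex
  refine ⟨δ, hδ, ?_, ?_⟩
  · obtain ⟨k, g, hg, hgk⟩ := hfr.exists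
    rintro rfl
    rw [map_zero] at hgk
    have := hD.one _ (hα k)
    rw [← hgk] at this
    simp at this
  · intro ε hε
    have h1 := hlim.eventually (Metric.ball_mem_nhds v hε)
    obtain ⟨k, ⟨g, hg, hgk⟩, hk⟩ := (hfr.and_eventually h1).exists
    rw [dist_eq_norm] at hk
    refine ⟨g, hg, s k, by rw [hgk]; exact hk, ?_⟩
    rw [hgk]
    intro hmem
    obtain ⟨c, hc⟩ := Submodule.mem_span_singleton.1 hmem
    have := hD.one _ (hα k)
    rw [← hc] at this
    simp [hvv] at this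

/-- The abstract main statement. -/
theorem main_abs (hB : IsLor B) (hD : RootData B G Φ)
    {Δ : Finset V} (hfin : ∀ α ∈ Φ, ∃ δ ∈ Δ, ∃ g ∈ G, g δ = α) {v : V} (hv0 : v ≠ 0)
    (hv : v ∈ closure (UU B Φ)) :
    ∃ p, p ≠ 0 ∧ ∀ ε > 0, ∃ g ∈ G, ∃ t : ℝ, ‖t • g p - v‖ < ε ∧
      g p ∉ Submodule.span ℝ {v} := by
  obtain ⟨u, hu, hulim⟩ := mem_closure_iff_seq_limit.1 hv
  have hu' := hu
  choose ζ hζ η hη hζη huζ huη using hu'
  have hζn : ∀ k, 0 < ‖ζ k‖ := fun k => norm_pos_iff.2 (hζ k).1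
  obtain ⟨ξ, hξ1, φ, hφ, hφlim⟩ := (isCompact_sphere (0 : V) 1).tendsto_subseq
    (x := fun k => (‖ζ k‖)⁻¹ • ζ k)
    (fun k => by simp [norm_smul, (hζn k).ne'])
  have hξn : ‖ξ‖ = 1 := by simpa using hξ1
  have hξ0 : ξ ≠ 0 := by
    rintro rfl
    simp at hξn
  have hξ : ξ ∈ Lam B Φ :=
    Lam_closed (fun k => Lam.smul (hζ (φ k)) (inv_ne_zero (hζn _).ne')) hξ0 hφlim
  have hvξ : B v ξ = 0 := by
    have h1 := tendsto_form B (hulim.comp hφ.tendsto_atTop) hφlim
    refine tendsto_nhds_unique h1 ?_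
    refine tendsto_const_nhds.congr fun k => ?_
    simp only [Function.comp, map_smul, huζ, smul_zero]
  rcases hB.light hξ0 hξ.2.1 hvξ with ⟨t, ht⟩ | hvv
  · have ht0 : t ≠ 0 := by
      rintro rfl
      exact hv0 (by rw [ht, zero_smul])
    have hvL : v ∈ Lam B Φ := by
      rw [ht]
      exact Lam.smul hξ ht0
    obtain ⟨p, -, hp⟩ := light_case hD hfin hvL
    exact ⟨p, hp⟩
  · have hζ₀ := hζ 0
    have hη₀ := hη 0
    have hζη₀ := hζη 0
    obtain ⟨π, hπ1, hπ2⟩ := exists_proj hB hζ₀ hη₀ hζη₀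
    have hπc : Continuous π := LinearMap.continuous_of_finiteDimensional π
    set a : LL B Φ := ⟨π v, hπ1 v⟩ with ha
    set q : V := v - π v with hq
    have hq2 : ∀ x ∈ LL B Φ, B q x = 0 := hπ2 v
    have hvaq : v = (a : V) + q := by
      rw [ha, hq]
      simp
    set b : ℕ → LL B Φ := fun k => ⟨π (u k), hπ1 _⟩ with hb
    have hblim : Tendsto b atTop (𝓝 a) := by
      rw [tendsto_subtype_rng]
      exact (hπc.tendsto v).comp hulim
    have hbU : ∀ k, b k ∈ UU (BL B Φ) (ΦL B Φ) := fun k =>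
      UU_L hB hD hζ₀ hη₀ hζη₀ (hu k) (hπ2 (u k))
    have hL := isLor_L hB hζ₀ hη₀ hζη₀
    have hDL := rootData hD
    have hsL := span_L hB hD hζ₀ hη₀ hζη₀
    have hξL := lam_L hB hD hζ₀ hη₀ hζη₀ hξ
    have haξ : BL B Φ a ⟨ξ, Submodule.subset_span hξ⟩ = 0 := by
      have h1 := hq2 ξ (Submodule.subset_span hξ)
      have h2 : B v ξ = B (a : V) ξ + B q ξ := by
        conv_lhs => rw [hvaq]
        simp
      rw [hvξ, h1, add_zero] at h2
      exact h2.symm
    have key : ∃ y : LL B Φ, ∀ ε > 0, ∃ g ∈ GLL B Φ, ‖g y - a‖ < ε ∧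
        g y ∉ Submodule.span ℝ {a} := by
      rcases hL.light hξL.1 hξL.2.1 haξ with ⟨t, ht⟩ | haa
      · by_cases ht0 : t = 0
        · obtain ⟨x, hx, -, -, -⟩ := exists_Sc hL hDL (lam_L hB hD hζ₀ hη₀ hζη₀ hζ₀)
            (lam_L hB hD hζ₀ hη₀ hζη₀ hη₀) hζη₀
          have ha0 : a = 0 := by rw [ht, ht0, zero_smul]
          refine ⟨x, fun ε hε => ?_⟩
          obtain ⟨g, hg, hgx⟩ := exists_small hx ε hε
          refine ⟨g, hg, by rwa [ha0, sub_zero], ?_⟩
          rw [ha0]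
          intro hmem
          have h1 : g x = 0 := by simpa using hmem
          exact hx.1 ((LinearEquiv.map_eq_zero_iff g).1 h1)
        · have ha0 : a ≠ 0 := by
            rw [ht]
            exact smul_ne_zero ht0 hξL.1
          obtain ⟨k, hk⟩ := (hblim.eventually_ne ha0).exists
          obtain ⟨y, hy⟩ := exists_light hL hDL hsL hk (hbU k) hξL
          refine ⟨t • y, fun ε hε => ?_⟩
          obtain ⟨g, hg, h1, h2⟩ := hy (ε / |t|) (by positivity)
          refine ⟨g, hg, ?_, ?_⟩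
          · rw [ht, map_smul, ← smul_sub, norm_smul, Real.norm_eq_abs]
            rw [lt_div_iff₀ (by positivity)] at h1
            linarith
          · intro hmem
            apply h2
            rw [ht, map_smul] at hmem
            obtain ⟨c, hc⟩ := Submodule.mem_span_singleton.1 hmem
            rw [smul_comm] at hc
            have h3 : c • (⟨ξ, Submodule.subset_span hξ⟩ : LL B Φ) = g y :=
              smul_right_injective _ ht0 hc
            rw [← h3]
            exact Submodule.smul_mem _ _ (Submodule.mem_span_singleton_self _)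
      · set r : ℝ := √(BL B Φ a a) with hr
        have hr0 : 0 < r := Real.sqrt_pos.2 haa
        have hmem : r⁻¹ • a ∈ closure {w | w ∈ UU (BL B Φ) (ΦL B Φ) ∧ BL B Φ w w = 1} := by
          have h1 : Tendsto (fun k => BL B Φ (b k) (b k)) atTop (𝓝 (BL B Φ a a)) :=
            tendsto_form _ hblim hblim
          have h2 : Tendsto (fun k => √(BL B Φ (b k) (b k))) atTop (𝓝 r) :=
            (Real.continuous_sqrt.tendsto _).comp h1
          have h3 := (h2.inv₀ hr0.ne').smul hblim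
          refine mem_closure_of_tendsto h3 ?_
          have h4 : ∀ᶠ k in atTop, 0 < BL B Φ (b k) (b k) := h1.eventually (lt_mem_nhds haa)
          filter_upwards [h4] with k hk
          have h5 : 0 < √(BL B Φ (b k) (b k)) := Real.sqrt_pos.2 hk
          have h6 : √(BL B Φ (b k) (b k)) ^ 2 = BL B Φ (b k) (b k) := Real.sq_sqrt hk.le
          constructor
          · obtain ⟨ζ', hζ', η', hη', h7, h8, h9⟩ := hbU k
            exact ⟨ζ', hζ', η', hη', h7, by rw [map_smul, LinearMap.smul_apply, h8, smul_zero],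
              by rw [map_smul, LinearMap.smul_apply, h9, smul_zero]⟩
          · generalize √(BL B Φ (b k) (b k)) = r' at h5 h6
            rw [map_smul, smul_eq_mul, map_smul, LinearMap.smul_apply, smul_eq_mul, ← h6]
            field_simp
        obtain ⟨p, hp⟩ := exists_base hL hDL hsL hmem
        refine ⟨r • p, fun ε hε => ?_⟩
        obtain ⟨g, hg, h1, h2⟩ := hp (ε / r) (by positivity)
        refine ⟨g, hg, ?_, ?_⟩
        · have h3 : g (r • p) - a = r • (g p - r⁻¹ • a) := by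
            rw [smul_sub, smul_smul, mul_inv_cancel₀ hr0.ne', one_smul, map_smul]
          rw [h3, norm_smul, Real.norm_eq_abs, abs_of_pos hr0]
          rw [lt_div_iff₀ hr0] at h1
          linarith
        · intro hmem2
          apply h2
          obtain ⟨c, hc⟩ := Submodule.mem_span_singleton.1 hmem2
          refine Submodule.mem_span_singleton.2 ⟨c, ?_⟩
          rw [map_smul] at hc
          apply smul_right_injective _ hr0.ne'
          simp only
          rw [← hc, smul_comm c, smul_smul, mul_inv_cancel₀ hr0.ne', one_smul]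
    obtain ⟨y, hy⟩ := key
    have hfinal := glue hB hD hζ₀ hη₀ hζη₀ hq2 hy
    rw [← hvaq] at hfinal
    refine ⟨(y : V) + q, ?_, fun ε hε => ?_⟩
    · rintro h0
      obtain ⟨g, -, -, h2⟩ := hfinal 1 one_pos
      apply h2
      rw [h0, map_zero]
      exact Submodule.zero_mem _
    · obtain ⟨g, hg, h1, h2⟩ := hfinal ε hε
      exact ⟨g, hg, 1, by rwa [one_smul], h2⟩

end Pool.Agent.H389.Lorentz
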