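import Mathlib
import Pool.Agent.H576.CT.Stm

/-! WEIGHT (project CT): the boosted weights. -/

set_option autoImplicit false
set_option linter.unusedSectionVars false

namespace Pool.Agent.H389

open Finset Pool.Agent.TH112.BW Pool.Agent.H576.CT

theorem ct_weight (h : S_BALLS) : S_WEIGHT := by
  classical
  intro V _ _ G _ hG Δ hΔ b hb0 hb1 J L hL
  have hballs := (h V G hG).1 Δ hΔ
  let s : Finset (Σ _ : ℕ, V) := (range (J + 1)).sigma L
  have hs : s.Nonempty := by
    obtain ⟨z, hz⟩ := hL 0 (Nat.zero_le _)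
    exact ⟨⟨0, z⟩, Finset.mem_sigma.2 ⟨Finset.mem_range.2 (Nat.succ_pos _), hz⟩⟩
  let f : V → (Σ _ : ℕ, V) → ℝ := fun x p => (2 : ℝ) ^ p.1 * b ^ G.dist x p.2
  have hf0 : ∀ x p, 0 < f x p := fun x p => by
    show 0 < (2 : ℝ) ^ p.1 * b ^ G.dist x p.2
    positivity
  refine ⟨fun x => s.sup' hs (f x), ?_, ?_, ?_, ?_⟩
  · intro x
    obtain ⟨p, hp⟩ := hs
    exact lt_of_lt_of_le (hf0 x p) (Finset.le_sup' (f x) hp)
  · intro x y hxy
    show b * s.sup' hs (f x) ≤ s.sup' hs (f y)
    obtain ⟨p, hp, hpe⟩ := Finset.exists_mem_eq_sup' hs (f x)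
    rw [hpe]
    refine le_trans ?_ (Finset.le_sup' (f y) hp)
    show b * ((2 : ℝ) ^ p.1 * b ^ G.dist x p.2) ≤ (2 : ℝ) ^ p.1 * b ^ G.dist y p.2
    have h1 : G.dist y p.2 ≤ G.dist x p.2 + 1 := by
      have h2 := hG.dist_triangle (u := y) (v := x) (w := p.2)
      have h3 : G.dist y x = 1 := SimpleGraph.dist_eq_one_iff_adj.2 hxy.symm
      omega
    have h4 : b ^ (G.dist x p.2 + 1) ≤ b ^ G.dist y p.2 := pow_le_pow_of_le_one hb0.le hb1.le h1
    calc b * ((2 : ℝ) ^ p.1 * b ^ G.dist x p.2) = (2 : ℝ) ^ p.1 * b ^ (G.dist x p.2 + 1) := by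
          rw [pow_succ]; ring
      _ ≤ _ := mul_le_mul_of_nonneg_left h4 (by positivity)
  · intro j hj z hz
    have hp : (⟨j, z⟩ : Σ _ : ℕ, V) ∈ s :=
      Finset.mem_sigma.2 ⟨Finset.mem_range.2 (Nat.lt_succ_of_le hj), hz⟩
    refine le_trans (le_of_eq ?_) (Finset.le_sup' (f z) hp)
    show (2 : ℝ) ^ j = (2 : ℝ) ^ j * b ^ G.dist z z
    rw [SimpleGraph.dist_self, pow_zero, mul_one]
  · intro i a r hr
    have hpt : ∀ x, (s.sup' hs (f x)) ^ 2 ≤ ∑ j ∈ range (J + 1), (4 : ℝ) ^ j *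
        ((if ∃ z ∈ L j, G.dist x z ≤ i j then (1 : ℝ) else 0) +
          b ^ i j * b ^ (G.dist x a - r)) := by
      intro x
      obtain ⟨p, hp, hpe⟩ := Finset.exists_mem_eq_sup' hs (f x)
      obtain ⟨hp1, hp2⟩ := Finset.mem_sigma.1 hp
      have hnn : ∀ j ∈ range (J + 1), 0 ≤ (4 : ℝ) ^ j *
          ((if ∃ z ∈ L j, G.dist x z ≤ i j then (1 : ℝ) else 0) +
            b ^ i j * b ^ (G.dist x a - r)) := by
        intro j _
        refine mul_nonneg (by positivity) (add_nonneg ?_ (by positivity))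
        split_ifs
        · exact zero_le_one
        · exact le_refl _
      refine le_trans ?_ (Finset.single_le_sum hnn hp1)
      rw [hpe]
      have h4 : (4 : ℝ) ^ p.1 = ((2 : ℝ) ^ p.1) ^ 2 := by
        rw [← pow_mul, mul_comm, pow_mul]
        norm_num
      have e1 : f x p ^ 2 = (4 : ℝ) ^ p.1 * (b ^ G.dist x p.2 * b ^ G.dist x p.2) := by
        show ((2 : ℝ) ^ p.1 * b ^ G.dist x p.2) ^ 2 = _
        rw [h4]; ring
      rw [e1]
      refine mul_le_mul_of_nonneg_left ?_ (by positivity)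
      by_cases hd : G.dist x p.2 ≤ i p.1
      · rw [if_pos ⟨p.2, hp2, hd⟩]
        have h1 : b ^ G.dist x p.2 ≤ 1 := pow_le_one₀ hb0.le hb1.le
        have h2 : 0 ≤ b ^ G.dist x p.2 := by positivity
        have h3 : 0 ≤ b ^ i p.1 * b ^ (G.dist x a - r) := by positivity
        nlinarith
      · have h1 : b ^ G.dist x p.2 ≤ b ^ i p.1 :=
          pow_le_pow_of_le_one hb0.le hb1.le (not_le.1 hd).le
        have hza : G.dist a p.2 ≤ r := by
          have := hr p.1 (Nat.lt_succ_iff.1 (Finset.mem_range.1 hp1)) hp2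
          unfold ball at this
          exact (Finset.mem_filter.1 this).2
        have htri := hG.dist_triangle (u := x) (v := p.2) (w := a)
        have hsym : G.dist p.2 a = G.dist a p.2 := SimpleGraph.dist_comm
        have h2 : b ^ G.dist x p.2 ≤ b ^ (G.dist x a - r) :=
          pow_le_pow_of_le_one hb0.le hb1.le (by omega)
        have h3 : b ^ G.dist x p.2 * b ^ G.dist x p.2 ≤ b ^ i p.1 * b ^ (G.dist x a - r) :=
          mul_le_mul h1 h2 (by positivity) (by positivity)
        have h5 : (0 : ℝ) ≤ if ∃ z ∈ L p.1, G.dist x z ≤ i p.1 then (1 : ℝ) else 0 := by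
          split_ifs
          · exact zero_le_one
          · exact le_refl _
        linarith
    refine (Finset.sum_le_sum fun x _ => hpt x).trans ?_
    rw [Finset.sum_comm]
    refine Finset.sum_le_sum fun j _ => ?_
    rw [← Finset.mul_sum]
    refine mul_le_mul_of_nonneg_left ?_ (by positivity)
    rw [Finset.sum_add_distrib, ← Finset.mul_sum]
    refine add_le_add ?_ (le_refl _)
    rw [Finset.sum_boole]
    have hsub : (univ.filter fun x => ∃ z ∈ L j, G.dist x z ≤ i j) ⊆
        (L j).biUnion fun z => ball G z (i j) := by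
      intro x hx
      obtain ⟨z, hz, hxz⟩ := (Finset.mem_filter.1 hx).2
      rw [Finset.mem_biUnion]
      refine ⟨z, hz, ?_⟩
      unfold ball
      rw [Finset.mem_filter]
      exact ⟨Finset.mem_univ _, by rw [SimpleGraph.dist_comm]; exact hxz⟩
    have hcard : (univ.filter fun x => ∃ z ∈ L j, G.dist x z ≤ i j).card ≤
        (L j).card * (Δ + 1) ^ i j := by
      refine (Finset.card_le_card hsub).trans (Finset.card_biUnion_le.trans ?_)
      refine (Finset.sum_le_sum fun z _ => hballs z (i j)).trans ?_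
      rw [Finset.sum_const, smul_eq_mul]
    have hcast : ((univ.filter fun x => ∃ z ∈ L j, G.dist x z ≤ i j).card : ℝ) ≤
        (((L j).card * (Δ + 1) ^ i j : ℕ) : ℝ) := Nat.cast_le.2 hcard
    push_cast at hcast
    exact hcast

end Pool.Agent.H389
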