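import Mathlib
import Pool.Agent.H389.Abs

/-!
# Hyperbolic isometries of a Lorentzian form
-/

open scoped InnerProductSpace
open Filter Topology Module

set_option linter.unusedSectionVars false

namespace Pool.Agent.H389.Lorentz

section alg

variable {V : Type*} [AddCommGroup V] [Module ℝ V] {B : LinearMap.BilinForm ℝ V}

/-- A real form of a complex eigenvector for an eigenvalue of modulus `> 1` gives a real
eigenvector. -/
theorem real_eig (hB : IsLor B) {w : V ≃ₗ[ℝ] V} (hw : ∀ x y, B (w x) (w y) = B x y) {u v : V}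
    {p q : ℝ} (hpq : 1 < p ^ 2 + q ^ 2) (huv : ¬ (u = 0 ∧ v = 0)) (h1 : w u = p • u - q • v)
    (h2 : w v = q • u + p • v) : ∃ x, x ≠ 0 ∧ 1 < |p| ∧ w x = p • x := by
  have hvu : B v u = B u v := hB.symm _ _
  have e1 := hw u u
  have e2 := hw v v
  have e3 := hw u v
  rw [h1] at e1 e3
  rw [h2] at e2 e3
  simp only [map_add, map_sub, map_smul, LinearMap.add_apply, LinearMap.sub_apply,
    LinearMap.smul_apply, smul_eq_mul, hvu] at e1 e2 e3
  set A := B u u with hA
  set C := B v v with hC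
  set D := B u v with hD
  have s1 : (p ^ 2 + q ^ 2 - 1) * (A + C) = 0 := by nlinarith
  have hAC : A + C = 0 := (mul_eq_zero.1 s1).resolve_left (by linarith)
  have f1 : A - C = (p ^ 2 - q ^ 2) * (A - C) - 4 * p * q * D := by nlinarith
  have f2 : D = (p ^ 2 - q ^ 2) * D + p * q * (A - C) := by nlinarith
  have s2 : ((p ^ 2 + q ^ 2) ^ 2 - 1) * ((A - C) ^ 2 + 4 * D ^ 2) = 0 := by
    have : (A - C) ^ 2 + 4 * D ^ 2 = (p ^ 2 + q ^ 2) ^ 2 * ((A - C) ^ 2 + 4 * D ^ 2) := by
      calc (A - C) ^ 2 + 4 * D ^ 2 = ((p ^ 2 - q ^ 2) * (A - C) - 4 * p * q * D) ^ 2 +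
            4 * ((p ^ 2 - q ^ 2) * D + p * q * (A - C)) ^ 2 := by rw [← f1, ← f2]
        _ = _ := by ring
    linarith
  have hF : (A - C) ^ 2 + 4 * D ^ 2 = 0 := (mul_eq_zero.1 s2).resolve_left (by nlinarith)
  have hA0 : A = 0 := by nlinarith [sq_nonneg (A - C), sq_nonneg D]
  have hD0 : D = 0 := by nlinarith [sq_nonneg (A - C), sq_nonneg D]
  have hC0 : C = 0 := by linarith
  have key : q = 0 → ∃ x, x ≠ 0 ∧ 1 < |p| ∧ w x = p • x := by
    intro hq
    rw [hq] at hpq
    have hp : 1 < |p| := by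
      by_contra hcon
      push Not at hcon
      have : p ^ 2 ≤ 1 := by
        rw [← sq_abs]
        nlinarith [abs_nonneg p]
      nlinarith
    by_cases hu : u = 0
    · refine ⟨v, fun hv => huv ⟨hu, hv⟩, hp, ?_⟩
      rw [h2, hq, zero_smul, zero_add]
    · refine ⟨u, hu, hp, ?_⟩
      rw [h1, hq, zero_smul, sub_zero]
  apply key
  by_cases hu : u = 0
  · rw [hu, map_zero, smul_zero, zero_sub] at h1
    have h3 : q • v = 0 := by rw [← neg_eq_zero, ← h1]
    exact (smul_eq_zero.1 h3).resolve_right fun hv => huv ⟨hu, hv⟩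
  · obtain ⟨t, ht⟩ := hB.prop hu hA0 hC0 (by rw [hvu, hD0])
    rw [ht, smul_smul, ← sub_smul] at h1
    rw [ht, map_smul, h1, smul_smul, smul_smul, ← add_smul] at h2
    have h3 := smul_left_injective ℝ hu h2
    have h4 : q * (1 + t ^ 2) = 0 := by
      nlinarith
    exact (mul_eq_zero.1 h4).resolve_right (by positivity)

theorem eig_light {w : V ≃ₗ[ℝ] V} (hw : ∀ x y, B (w x) (w y) = B x y)
    {x : V} {a : ℝ} (ha : a ^ 2 ≠ 1) (hx : w x = a • x) : B x x = 0 := by
  have h := hw x x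
  rw [hx] at h
  simp only [map_smul, LinearMap.smul_apply, smul_eq_mul] at h
  have : (a ^ 2 - 1) * B x x = 0 := by linarith
  exact (mul_eq_zero.1 this).resolve_left (sub_ne_zero.2 ha)

/-- The eigenvector of the inverse eigenvalue. -/
theorem inv_eig [FiniteDimensional ℝ V] (hB : IsLor B) {w : V ≃ₗ[ℝ] V}
    (hw : ∀ x y, B (w x) (w y) = B x y) {x : V} {a : ℝ} (ha0 : a ≠ 0) (hx0 : x ≠ 0)
    (hx : w x = a • x) : ∃ y, y ≠ 0 ∧ w y = a⁻¹ • y := by
  let f : V →ₗ[ℝ] V := (w : V →ₗ[ℝ] V) - a • LinearMap.id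
  have hf : f x = 0 := by simp [f, hx]
  have hninj : ¬ Function.Injective f := fun h => hx0 (h (by rw [hf, map_zero]))
  have hnsurj : ¬ Function.Surjective f := fun h => hninj (LinearMap.injective_iff_surjective.2 h)
  have hrange : LinearMap.range f ≠ ⊤ := fun h => hnsurj (LinearMap.range_eq_top.1 h)
  obtain ⟨φ, hφ0, hφ⟩ := Submodule.exists_le_ker_of_lt_top _ (lt_top_iff_ne_top.2 hrange)
  have hnd : B.Nondegenerate :=
    ⟨fun x hx => hB.nondeg hx, fun x hx => hB.nondeg fun y => by rw [hB.symm]; exact hx y⟩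
  set y : V := (LinearMap.BilinForm.toDual B hnd).symm φ with hy
  have hyφ : ∀ z, B y z = φ z := fun z => LinearMap.BilinForm.apply_toDual_symm_apply φ z
  have hy0 : y ≠ 0 := by
    intro h
    apply hφ0
    ext z
    rw [← hyφ, h]
    simp
  refine ⟨y, hy0, ?_⟩
  have h1 : ∀ z, B y (w z) = a * B y z := by
    intro z
    have h2 : f z ∈ LinearMap.ker φ := hφ ⟨z, rfl⟩
    rw [LinearMap.mem_ker, ← hyφ] at h2
    simp only [f, LinearMap.sub_apply, LinearEquiv.coe_coe, LinearMap.smul_apply,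
      LinearMap.id_apply, map_sub, map_smul, smul_eq_mul] at h2
    linarith
  have h3 : w y - a⁻¹ • y = 0 := by
    apply hB.nondeg
    intro z
    obtain ⟨z', rfl⟩ := w.surjective z
    simp only [map_sub, map_smul, LinearMap.sub_apply, LinearMap.smul_apply, smul_eq_mul, hw, h1]
    field_simp
    ring
  exact sub_eq_zero.1 h3

theorem eig_pair (hB : IsLor B) {w : V ≃ₗ[ℝ] V} (hw : ∀ x y, B (w x) (w y) = B x y)
    {x y : V} {a : ℝ} (ha : 1 < |a|) (hx0 : x ≠ 0) (hx : w x = a • x) (hy0 : y ≠ 0)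
    (hy : w y = a⁻¹ • y) : B x x = 0 ∧ B y y = 0 ∧ B x y ≠ 0 := by
  have ha2 : 1 < a ^ 2 := by
    rw [← sq_abs]
    nlinarith
  have ha0 : a ≠ 0 := by
    rintro rfl
    norm_num at ha2
  have hxx := eig_light hw ha2.ne' hx
  have hyy : B y y = 0 := by
    refine eig_light hw (a := a⁻¹) ?_ hy
    rw [inv_pow]
    intro h
    have := inv_eq_one.1 h
    exact ha2.ne' this
  refine ⟨hxx, hyy, fun h => ?_⟩
  obtain ⟨t, ht⟩ := hB.prop hx0 hxx hyy (by rw [hB.symm]; exact h)
  rw [ht, map_smul, hx, smul_smul, smul_smul] at hy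
  have h1 := smul_left_injective ℝ hx0 hy
  have ht0 : t ≠ 0 := by
    rintro rfl
    exact hy0 (by rw [ht, zero_smul])
  have h2 : a = a⁻¹ := by
    apply mul_left_cancel₀ ht0
    rw [h1]
    ring
  have h3 : a ^ 2 = 1 := by
    rw [sq]
    nth_rewrite 2 [h2]
    exact mul_inv_cancel₀ ha0
  linarith

end alg

variable {V : Type*} [NormedAddCommGroup V] [NormedSpace ℝ V] [FiniteDimensional ℝ V]
variable {B : LinearMap.BilinForm ℝ V} {G : Subgroup (V ≃ₗ[ℝ] V)} {Φ : Set V}

theorem eig_mem_Lam (hB : IsLor B) (hD : RootData B G Φ) (hΦ : Submodule.span ℝ Φ = ⊤)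
    {w : V ≃ₗ[ℝ] V} (hwG : w ∈ G) {x y : V} {a : ℝ} (ha : 1 < |a|) (hx0 : x ≠ 0)
    (hx : w x = a • x) (hy0 : y ≠ 0) (hy : w y = a⁻¹ • y) : x ∈ Lam B Φ := by
  have hw := hD.isom w hwG
  obtain ⟨hxx, hyy, hxy⟩ := eig_pair hB hw ha hx0 hx hy0 hy
  have hyx : B y x = B x y := hB.symm _ _
  have hex : ∃ α ∈ Φ, B α y ≠ 0 := by
    by_contra hcon
    push Not at hcon
    apply hy0
    apply hB.nondeg
    intro z
    have hz : z ∈ Submodule.span ℝ Φ := by rw [hΦ]; trivial
    rw [hB.symm]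
    induction hz using Submodule.span_induction with
    | mem x hx => exact hcon x hx
    | zero => simp
    | add x y _ _ hx hy => simp [hx, hy]
    | smul a x _ hx => simp [hx]
  obtain ⟨α, hα, hαy⟩ := hex
  have ha0 : a ≠ 0 := by
    rintro rfl
    simp at ha
    linarith
  -- the Euclidean space orthogonal to `x` and `y`
  let E : Submodule ℝ V :=
    { carrier := {z | B z x = 0 ∧ B z y = 0}
      add_mem' := by
        rintro z z' ⟨h1, h2⟩ ⟨h3, h4⟩
        exact ⟨by simp [h1, h3], by simp [h2, h4]⟩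
      zero_mem' := ⟨by simp, by simp⟩
      smul_mem' := by
        rintro c z ⟨h1, h2⟩
        exact ⟨by simp [h1], by simp [h2]⟩ }
  have hpos : ∀ z : E, z ≠ 0 → 0 < B (z : V) z := by
    intro z hz
    rcases hB.light hx0 hxx z.2.1 with ⟨t, ht⟩ | h
    · exfalso
      have h1 := z.2.2
      rw [ht] at h1
      simp only [map_smul, LinearMap.smul_apply, smul_eq_mul] at h1
      have h2 := (mul_eq_zero.1 h1).resolve_right hxy
      apply hz
      ext
      rw [ht, h2]
      simp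
    · exact h
  obtain ⟨e, he⟩ := exists_euclid (B.restrict E) (fun x y => hB.symm _ _) hpos
  have hecont : Continuous (E.subtype ∘ₗ e.symm.toLinearMap) :=
    LinearMap.continuous_of_finiteDimensional _
  set c₁ : ℝ := B α y / B x y with hc₁
  set c₂ : ℝ := B α x / B x y with hc₂
  have hc₁0 : c₁ ≠ 0 := div_ne_zero hαy hxy
  set u : V := α - c₁ • x - c₂ • y with hu
  have hux : B u x = 0 := by
    rw [hu]
    simp only [map_sub, map_smul, LinearMap.sub_apply, LinearMap.smul_apply, smul_eq_mul, hxx,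
      hyx, hc₂]
    field_simp
    ring
  have huy : B u y = 0 := by
    rw [hu]
    simp only [map_sub, map_smul, LinearMap.sub_apply, LinearMap.smul_apply, smul_eq_mul, hyy,
      hc₁]
    field_simp
    ring
  have hwk : ∀ k : ℕ, B ((w ^ k) u) x = 0 ∧ B ((w ^ k) u) y = 0 := by
    intro k
    have h1 := pow_apply_eig hx k
    have h2 := pow_apply_eig hy k
    have h3 := hD.isom (w ^ k) (G.pow_mem hwG k) u x
    have h4 := hD.isom (w ^ k) (G.pow_mem hwG k) u y
    rw [h1, map_smul, hux, smul_eq_mul] at h3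
    rw [h2, map_smul, huy, smul_eq_mul] at h4
    exact ⟨(mul_eq_zero.1 h3).resolve_left (pow_ne_zero _ ha0),
      (mul_eq_zero.1 h4).resolve_left (pow_ne_zero _ (inv_ne_zero ha0))⟩
  set v : ℕ → E := fun k => ⟨(w ^ k) u, hwk k⟩ with hv
  have hnorm : ∀ k, ‖e (v k)‖ = ‖e (v 0)‖ := by
    intro k
    have h1 : ‖e (v k)‖ ^ 2 = ‖e (v 0)‖ ^ 2 := by
      rw [← real_inner_self_eq_norm_sq, ← real_inner_self_eq_norm_sq, he, he]
      show B ((w ^ k) u) ((w ^ k) u) = B ((w ^ 0) u) ((w ^ 0) u)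
      rw [hD.isom _ (G.pow_mem hwG k), hD.isom _ (G.pow_mem hwG 0)]
    exact (sq_eq_sq₀ (norm_nonneg _) (norm_nonneg _)).1 h1
  have hapow : Tendsto (fun k : ℕ => (|a|⁻¹) ^ k) atTop (𝓝 0) :=
    tendsto_pow_atTop_nhds_zero_of_lt_one (by positivity) (inv_lt_one_of_one_lt₀ ha)
  have hlim1 : Tendsto (fun k => (a⁻¹ ^ k) • e (v k)) atTop (𝓝 0) := by
    rw [tendsto_zero_iff_norm_tendsto_zero]
    have h1 : Tendsto (fun k : ℕ => (|a|⁻¹) ^ k * ‖e (v 0)‖) atTop (𝓝 0) := by
      have := hapow.mul_const ‖e (v 0)‖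
      simpa using this
    refine h1.congr fun k => ?_
    rw [norm_smul, hnorm k, norm_pow, norm_inv, Real.norm_eq_abs]
  have hlim2 : Tendsto (fun k => (a⁻¹ ^ k) • (w ^ k) u) atTop (𝓝 0) := by
    have h1 := (hecont.tendsto 0).comp hlim1
    rw [map_zero] at h1
    refine h1.congr fun k => ?_
    simp [hv]
  have hlim3 : Tendsto (fun k => (a⁻¹ ^ k) • (w ^ k) α) atTop (𝓝 (c₁ • x)) := by
    have hα2 : α = c₁ • x + c₂ • y + u := by
      rw [hu]
      abel
    have h1 : ∀ k : ℕ, (a⁻¹ ^ k) • (w ^ k) α =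
        c₁ • x + ((a⁻¹ ^ k) ^ 2 * c₂) • y + (a⁻¹ ^ k) • (w ^ k) u := by
      intro k
      conv_lhs => rw [hα2]
      rw [map_add, map_add, map_smul, map_smul, pow_apply_eig hx k, pow_apply_eig hy k, smul_add,
        smul_add]
      congr 2
      · rw [smul_smul, smul_smul]
        congr 1
        rw [inv_pow]
        field_simp
      · rw [smul_smul, smul_smul]
        congr 1
        ring
    have h2 : Tendsto (fun k : ℕ => (a⁻¹ ^ k) ^ 2) atTop (𝓝 0) := by
      have h3 := hapow.pow 2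
      rw [zero_pow two_ne_zero] at h3
      refine h3.congr fun k => ?_
      rw [← abs_inv, ← abs_pow, sq_abs]
    have h3 := ((tendsto_const_nhds (x := c₁ • x)).add
      ((h2.mul_const c₂).smul_const y)).add hlim2
    rw [zero_mul, zero_smul, add_zero, add_zero] at h3
    exact h3.congr fun k => (h1 k).symm
  have hmem : c₁ • x ∈ Lam B Φ :=
    ⟨smul_ne_zero hc₁0 hx0, by simp [hxx], fun k => (w ^ k) α, fun k => a⁻¹ ^ k,
      fun k => hD.stab _ (G.pow_mem hwG k) _ hα, hlim3⟩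
  have := Lam.smul hmem (inv_ne_zero hc₁0)
  rwa [smul_smul, inv_mul_cancel₀ hc₁0, one_smul] at this

end Pool.Agent.H389.Lorentz
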