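import Pool.Agent.H666.LRC.Defs2

/-! D3 (project LRC): Dyson's law on short averages from the covariance law. -/

open Filter Topology MeasureTheory

namespace Pool.Agent.H389.LRC

open Pool.Agent.H666.LRC

lemma ct_neg (G : ℝ → ℝ) (x : ℝ) : ct G (-x) = ct G x := by
  unfold ct
  congr 1
  refine intervalIntegral.integral_congr (fun t _ => ?_)
  show G t * Real.cos (2 * Real.pi * -x * t) = G t * Real.cos (2 * Real.pi * x * t)
  rw [show 2 * Real.pi * -x * t = -(2 * Real.pi * x * t) by ring, Real.cos_neg]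

lemma int_gr (G : ℝ → ℝ) (ρ : ℝ) : ∫ t in (0 : ℝ)..1, t * gr G ρ t =
    2 * ∫ t in (0 : ℝ)..1, t * (G t * Real.cos (2 * Real.pi * ρ * t)) := by
  rw [← intervalIntegral.integral_const_mul]
  refine intervalIntegral.integral_congr (fun t _ => ?_)
  show t * gr G ρ t = 2 * (t * (G t * Real.cos (2 * Real.pi * ρ * t)))
  unfold gr
  ring

lemma sum_abs_le (f c : ℕ → ℝ) (K0 : ℝ) (s : Finset ℕ) (hc : ∀ k ∈ s, |c k| ≤ K0) :
    |∑ k ∈ s, f k * c k| ≤ K0 * ∑ k ∈ s, |f k| := by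
  refine (Finset.abs_sum_le_sum_abs _ _).trans ?_
  rw [Finset.mul_sum]
  refine Finset.sum_le_sum (fun k hk => ?_)
  rw [abs_mul, mul_comm]
  exact mul_le_mul_of_nonneg_right (hc k hk) (abs_nonneg _)

lemma core (F : ℝ → ℝ) (G0 I E : ℝ) (c : ℕ → ℝ) (m H K0 C1 : ℝ)
    (hm : 0 < m) (hH : 0 < H) (R N : ℕ) (hRN : R ≤ N) (hc : ∀ k ≤ N, |c k| ≤ K0)
    (h1 : |I + G0 / (2 * Real.pi * (m / H)) ^ 2| ≤ C1 / (m / H) ^ 4)
    (h2 : |2 * F (m / H) * c 0 + 2 * ∑ k ∈ Finset.Icc 1 R, (F ((k - m) / H) + F ((k + m) / H)) * c k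
      - 4 * (1 / H) * I| ≤ E) :
    |1 / H * (∑ k ∈ Finset.Icc 1 N, F ((k - m) / H) * c k) + G0 / (2 * Real.pi ^ 2 * m ^ 2)| ≤
      2 * C1 * H ^ 2 / m ^ 4 + E / (2 * H) +
        (1 / H) * (|F (m / H)| * K0 + K0 * ∑ k ∈ Finset.Icc 1 R, |F ((k + m) / H)| +
          K0 * ∑ k ∈ Finset.Ioc R N, |F ((k - m) / H)|) := by
  have hpi := Real.pi_pos
  have hsplit : ∑ k ∈ Finset.Icc 1 N, F ((k - m) / H) * c k =
      ∑ k ∈ Finset.Icc 1 R, F ((k - m) / H) * c k + ∑ k ∈ Finset.Ioc R N, F ((k - m) / H) * c k := by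
    have e1 : Finset.Icc 1 N = Finset.Ioc 0 N := by
      ext k; simp only [Finset.mem_Icc, Finset.mem_Ioc]; omega
    have e2 : Finset.Icc 1 R = Finset.Ioc 0 R := by
      ext k; simp only [Finset.mem_Icc, Finset.mem_Ioc]; omega
    rw [e1, e2, Finset.sum_Ioc_consecutive _ (Nat.zero_le R) hRN]
  have hadd : ∑ k ∈ Finset.Icc 1 R, (F ((k - m) / H) + F ((k + m) / H)) * c k =
      ∑ k ∈ Finset.Icc 1 R, F ((k - m) / H) * c k + ∑ k ∈ Finset.Icc 1 R, F ((k + m) / H) * c k := by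
    rw [← Finset.sum_add_distrib]
    exact Finset.sum_congr rfl (fun k _ => by ring)
  have b2 : |∑ k ∈ Finset.Icc 1 R, F ((k + m) / H) * c k| ≤
      K0 * ∑ k ∈ Finset.Icc 1 R, |F ((k + m) / H)| :=
    sum_abs_le (fun k : ℕ => F ((k + m) / H)) c K0 _ (fun k hk => hc k (by
      have := (Finset.mem_Icc.1 hk).2; omega))
  have b3 : |∑ k ∈ Finset.Ioc R N, F ((k - m) / H) * c k| ≤
      K0 * ∑ k ∈ Finset.Ioc R N, |F ((k - m) / H)| :=
    sum_abs_le (fun k : ℕ => F ((k - m) / H)) c K0 _ (fun k hk => hc k (by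
      have := (Finset.mem_Ioc.1 hk).2; omega))
  have b0 : |F (m / H) * c 0| ≤ |F (m / H)| * K0 := by
    rw [abs_mul]
    exact mul_le_mul_of_nonneg_left (hc 0 (Nat.zero_le _)) (abs_nonneg _)
  rw [hsplit]
  rw [hadd] at h2
  set S1 := ∑ k ∈ Finset.Icc 1 R, F ((k - m) / H) * c k
  set S2 := ∑ k ∈ Finset.Icc 1 R, F ((k + m) / H) * c k
  set S3 := ∑ k ∈ Finset.Ioc R N, F ((k - m) / H) * c k
  set X := 2 * F (m / H) * c 0 + 2 * (S1 + S2) - 4 * (1 / H) * I with hX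
  set Y := I + G0 / (2 * Real.pi * (m / H)) ^ 2 with hY
  have hid : 1 / H * (S1 + S3) + G0 / (2 * Real.pi ^ 2 * m ^ 2) =
      X / (2 * H) + (2 / H ^ 2) * Y + (1 / H) * (-(F (m / H) * c 0) + -S2 + S3) := by
    rw [hX, hY]
    field_simp
    ring
  rw [hid]
  have t1 : |X / (2 * H)| ≤ E / (2 * H) := by
    rw [abs_div, abs_of_pos (by positivity : (0 : ℝ) < 2 * H)]
    exact div_le_div_of_nonneg_right h2 (by positivity)
  have t2 : |(2 / H ^ 2) * Y| ≤ 2 * C1 * H ^ 2 / m ^ 4 := by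
    rw [abs_mul, abs_of_pos (by positivity : (0 : ℝ) < 2 / H ^ 2)]
    refine (mul_le_mul_of_nonneg_left h1 (by positivity)).trans (le_of_eq ?_)
    field_simp
  have t3 : |(1 / H) * (-(F (m / H) * c 0) + -S2 + S3)| ≤
      (1 / H) * (|F (m / H)| * K0 + K0 * ∑ k ∈ Finset.Icc 1 R, |F ((k + m) / H)| +
          K0 * ∑ k ∈ Finset.Ioc R N, |F ((k - m) / H)|) := by
    rw [abs_mul, abs_of_pos (by positivity : (0 : ℝ) < 1 / H)]
    refine mul_le_mul_of_nonneg_left ?_ (by positivity)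
    refine (abs_add_le _ _).trans (add_le_add ((abs_add_le _ _).trans (add_le_add ?_ ?_)) b3)
    · rw [abs_neg]; exact b0
    · rw [abs_neg]; exact b2
  refine (abs_add_le _ _).trans (add_le_add ((abs_add_le _ _).trans ?_) t3)
  linarith

/-- the sum of the inverse squares from `1` to `R` is at most `2` -/
lemma sum_inv_sq (R : ℕ) : ∑ k ∈ Finset.Icc 1 R, ((k : ℝ) ^ 2)⁻¹ ≤ 2 := by
  rcases Nat.eq_zero_or_pos R with rfl | hR
  · simp
  have e : Finset.Icc 1 R = insert 1 (Finset.Ioc 1 R) := by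
    ext k; simp only [Finset.mem_Icc, Finset.mem_insert, Finset.mem_Ioc]; omega
  rw [e, Finset.sum_insert (by simp)]
  have := sum_Ioc_inv_sq_le_sub (α := ℝ) (k := 1) (n := R) one_ne_zero hR
  have h2 : (0 : ℝ) ≤ (R : ℝ)⁻¹ := by positivity
  simp only [Nat.cast_one, one_pow, inv_one] at this ⊢
  linarith

/-- the sum over `k` of `|F ((k + m) / H)|` -/
lemma sum_far (F : ℝ → ℝ) (B : ℕ) (C : ℝ) (hC : 0 ≤ C)
    (hF : ∀ x, |F x| ≤ C / (1 + |x|) ^ (B + 2)) (m H : ℝ) (hm : 0 < m) (hH : 0 < H) (R : ℕ) :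
    ∑ k ∈ Finset.Icc 1 R, |F ((k + m) / H)| ≤ 2 * C * H ^ 2 / (m / H) ^ B := by
  have hmH : 0 < m / H := by positivity
  have key : ∀ k ∈ Finset.Icc 1 R, |F ((k + m) / H)| ≤ C * H ^ 2 / (m / H) ^ B * ((k : ℝ) ^ 2)⁻¹ := by
    intro k hk
    have hk1 : (1 : ℝ) ≤ k := by exact_mod_cast (Finset.mem_Icc.1 hk).1
    have hkH : 0 < (k : ℝ) / H := by positivity
    refine (hF _).trans ?_
    have hx : |((k : ℝ) + m) / H| = k / H + m / H := by
      rw [abs_of_pos (by positivity)]; ring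
    rw [hx]
    have e1 : (m / H) ^ B * (k / H) ^ 2 ≤ (1 + (k / H + m / H)) ^ (B + 2) := by
      rw [pow_add]
      have a1 : (m / H) ^ B ≤ (1 + (k / H + m / H)) ^ B :=
        pow_le_pow_left₀ hmH.le (by linarith) B
      have a2 : ((k : ℝ) / H) ^ 2 ≤ (1 + (k / H + m / H)) ^ 2 :=
        pow_le_pow_left₀ hkH.le (by linarith) 2
      exact mul_le_mul a1 a2 (by positivity) (by positivity)
    calc C / (1 + (k / H + m / H)) ^ (B + 2) ≤ C / ((m / H) ^ B * (k / H) ^ 2) :=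
          div_le_div_of_nonneg_left hC (by positivity) e1
      _ = C * H ^ 2 / (m / H) ^ B * ((k : ℝ) ^ 2)⁻¹ := by
          have : ((m / H) ^ B) ≠ 0 := by positivity
          have hk0 : (k : ℝ) ≠ 0 := by positivity
          field_simp
  refine (Finset.sum_le_sum key).trans ?_
  rw [← Finset.mul_sum]
  refine (mul_le_mul_of_nonneg_left (sum_inv_sq R) (by positivity)).trans (le_of_eq ?_)
  ring

/-- the tail of the sum of `|F ((k - m) / H)|` -/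
lemma sum_tail (F : ℝ → ℝ) (C : ℝ) (hC : 0 ≤ C)
    (hF : ∀ x, |F x| ≤ C / (1 + |x|) ^ 2) (m H : ℝ) (hm : 0 < m) (hH : 0 < H) (R N : ℕ)
    (hR : 2 * m ≤ R) (hRN : R ≤ N) :
    ∑ k ∈ Finset.Ioc R N, |F ((k - m) / H)| ≤ 4 * C * H ^ 2 / R := by
  have hR0 : (0 : ℝ) < R := by linarith
  have hR1 : R ≠ 0 := by
    rintro rfl; simp at hR0
  have key : ∀ k ∈ Finset.Ioc R N, |F ((k - m) / H)| ≤ 4 * C * H ^ 2 * ((k : ℝ) ^ 2)⁻¹ := by
    intro k hk
    have hk1 : (R : ℝ) < k := by exact_mod_cast (Finset.mem_Ioc.1 hk).1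
    have hk0 : (0 : ℝ) < k := by linarith
    refine (hF _).trans ?_
    have hx : (k : ℝ) / (2 * H) ≤ |((k : ℝ) - m) / H| := by
      refine le_trans ?_ (le_abs_self _)
      rw [div_le_div_iff₀ (by positivity) hH]
      nlinarith
    have e1 : (k / (2 * H)) ^ 2 ≤ (1 + |((k : ℝ) - m) / H|) ^ 2 :=
      pow_le_pow_left₀ (by positivity) (by linarith) 2
    calc C / (1 + |((k : ℝ) - m) / H|) ^ 2 ≤ C / (k / (2 * H)) ^ 2 :=
          div_le_div_of_nonneg_left hC (by positivity) e1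
      _ = 4 * C * H ^ 2 * ((k : ℝ) ^ 2)⁻¹ := by
          field_simp
          ring
  refine (Finset.sum_le_sum key).trans ?_
  rw [← Finset.mul_sum]
  have h2 := sum_Ioc_inv_sq_le_sub (α := ℝ) (k := R) (n := N) hR1 hRN
  have h3 : (0 : ℝ) ≤ (N : ℝ)⁻¹ := by positivity
  rw [div_eq_mul_inv]
  exact mul_le_mul_of_nonneg_left (by linarith) (by positivity)

/-- the asymptotic inequalities -/
lemma asym (δ ε K C1 K0 C : ℝ) (hδ : 0 < δ) (hε : 0 < ε) : ∃ m0 : ℕ, 8 ≤ m0 ∧ ∀ m : ℕ, m0 ≤ m →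
    2 * C1 * (m : ℝ) ^ (-(2 * δ)) ≤ ε / 8 ∧
    K / 2 * (Real.log m ^ 3 * (m : ℝ) ^ (-(3 * δ))) ≤ ε / 8 ∧
    K0 * C * (m : ℝ)⁻¹ ≤ ε / 8 ∧ K0 * (2 * C) * (m : ℝ)⁻¹ ≤ ε / 8 := by
  have hε8 : 0 < ε / 8 := by positivity
  have l1 : Tendsto (fun x : ℝ => 2 * C1 * x ^ (-(2 * δ))) atTop (𝓝 (2 * C1 * 0)) :=
    (tendsto_rpow_neg_atTop (by positivity)).const_mul _
  have l2 : Tendsto (fun x : ℝ => K / 2 * (Real.log x ^ 3 * x ^ (-(3 * δ)))) atTop (𝓝 (K / 2 * 0)) := by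
    refine Tendsto.const_mul _ ?_
    have h3 : (0 : ℝ) < 3 * δ := by positivity
    have := (isLittleO_log_rpow_rpow_atTop (s := 3 * δ) 3 h3).tendsto_div_nhds_zero
    refine this.congr' ?_
    filter_upwards [eventually_gt_atTop 0] with x hx
    rw [Real.rpow_neg hx.le, div_eq_mul_inv]
    congr 1
    exact_mod_cast Real.rpow_natCast (Real.log x) 3
  have l3 : Tendsto (fun x : ℝ => K0 * C * x⁻¹) atTop (𝓝 (K0 * C * 0)) :=
    tendsto_inv_atTop_zero.const_mul _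
  have l4 : Tendsto (fun x : ℝ => K0 * (2 * C) * x⁻¹) atTop (𝓝 (K0 * (2 * C) * 0)) :=
    tendsto_inv_atTop_zero.const_mul _
  rw [mul_zero] at l1 l2 l3 l4
  have hN := tendsto_natCast_atTop_atTop (R := ℝ)
  have hev := (((l1.comp hN).eventually_le_const hε8).and ((l2.comp hN).eventually_le_const hε8)).and
    (((l3.comp hN).eventually_le_const hε8).and ((l4.comp hN).eventually_le_const hε8))
  obtain ⟨m0, hm0⟩ := eventually_atTop.1 hev
  refine ⟨max m0 8, le_max_right _ _, fun m hm => ?_⟩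
  obtain ⟨⟨a, b⟩, c, d⟩ := hm0 m ((le_max_left _ _).trans hm)
  exact ⟨a, b, c, d⟩

theorem D3 : Pool.Agent.H666.LRC.S_dyson := by
  intro hrap hmain hshift G hG c ⟨K0, hK0, hcb⟩ ⟨K, hK, hcov⟩ δ hδ ε hε
  obtain ⟨C1, hC1, hmt⟩ := hmain G hG
  obtain ⟨C2, hC2, hF2⟩ := hrap G hG 2
  obtain ⟨B, hB⟩ := exists_nat_ge (5 / δ)
  obtain ⟨C, hC, hFB⟩ := hrap G hG (B + 2)
  obtain ⟨m0, hm08, hm0⟩ := asym δ ε K C1 K0 C hδ hε
  refine ⟨m0, fun m hm H hH1 hH2 => ?_⟩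
  obtain ⟨q1, q2, q3, q4⟩ := hm0 m hm
  have hm8 : (8 : ℝ) ≤ m := by exact_mod_cast hm08.trans hm
  have hm1 : (1 : ℝ) ≤ m := by linarith
  have hmpos : (0 : ℝ) < m := by linarith
  have hδB : 5 ≤ δ * B := by
    rw [div_le_iff₀ hδ] at hB; linarith
  -- size of H
  have hH3 : (4 : ℝ) ≤ H := by
    refine le_trans ?_ hH1
    have e8 : (4 : ℝ) = (8 : ℝ) ^ ((2 : ℝ) / 3) := by
      rw [show (8 : ℝ) = 2 ^ (3 : ℝ) by norm_num, ← Real.rpow_mul (by norm_num)]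
      norm_num
    rw [e8]
    exact (Real.rpow_le_rpow (by norm_num) hm8 (by norm_num)).trans
      (Real.rpow_le_rpow_of_exponent_le hm1 (by linarith))
  have hHpos : 0 < H := by linarith
  have hHm : H ≤ m := by
    refine hH2.trans ?_
    calc (m : ℝ) ^ (1 - δ) ≤ (m : ℝ) ^ (1 : ℝ) := Real.rpow_le_rpow_of_exponent_le hm1 (by linarith)
      _ = m := Real.rpow_one _
  have hρδ : (m : ℝ) ^ δ ≤ m / H := by
    rw [le_div_iff₀ hHpos]
    calc (m : ℝ) ^ δ * H ≤ (m : ℝ) ^ δ * (m : ℝ) ^ (1 - δ) :=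
          mul_le_mul_of_nonneg_left hH2 (by positivity)
      _ = m := by
          rw [← Real.rpow_add hmpos]
          rw [show δ + (1 - δ) = 1 by ring, Real.rpow_one]
  have hρ1 : 1 ≤ (m : ℝ) / H := (Real.one_le_rpow hm1 hδ.le).trans hρδ
  have hmH2 : (m : ℝ) ≤ H ^ 2 := by
    calc (m : ℝ) = (m : ℝ) ^ (1 : ℝ) := (Real.rpow_one _).symm
      _ ≤ (m : ℝ) ^ ((2 / 3 + δ) * 2) := Real.rpow_le_rpow_of_exponent_le hm1 (by linarith)
      _ = ((m : ℝ) ^ (2 / 3 + δ)) ^ 2 := by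
          rw [Real.rpow_mul hmpos.le]
          exact_mod_cast Real.rpow_natCast ((m : ℝ) ^ (2 / 3 + δ)) 2
      _ ≤ H ^ 2 := pow_le_pow_left₀ (by positivity) hH1 2
  have hρB : (m : ℝ) ^ 5 ≤ ((m : ℝ) / H) ^ B := by
    calc (m : ℝ) ^ 5 = (m : ℝ) ^ (5 : ℝ) := by
          exact_mod_cast (Real.rpow_natCast (m : ℝ) 5).symm
      _ ≤ (m : ℝ) ^ (δ * B) := Real.rpow_le_rpow_of_exponent_le hm1 hδB
      _ = ((m : ℝ) ^ δ) ^ B := by rw [Real.rpow_mul hmpos.le, Real.rpow_natCast]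
      _ ≤ ((m : ℝ) / H) ^ B := pow_le_pow_left₀ (by positivity) hρδ B
  -- the covariance law
  have hh1 : (0 : ℝ) < 1 / H := by positivity
  have hh2 : 1 / H ≤ 1 / 2 := one_div_le_one_div_of_le (by norm_num) (by linarith)
  obtain ⟨R0, hR0⟩ := hcov (1 / H) (m / H) hh1 hh2 (by positivity) (by
    rw [one_div_one_div, div_le_iff₀ hHpos]
    nlinarith)
  obtain ⟨R1, hR1⟩ := exists_nat_ge (K0 * (4 * C2 * H ^ 2) * (8 * m ^ 2) / ε)
  set R : ℕ := max (max R0 (2 * m)) (max R1 1) with hRdef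
  have hRR0 : R0 ≤ R := (le_max_left _ _).trans (le_max_left _ _)
  have hR2m : 2 * m ≤ R := (le_max_right _ _).trans (le_max_left _ _)
  have hRR1 : R1 ≤ R := (le_max_left _ _).trans (le_max_right _ _)
  have hR1' : 1 ≤ R := (le_max_right _ _).trans (le_max_right _ _)
  have hRpos : (0 : ℝ) < R := by exact_mod_cast hR1'
  filter_upwards [hR0 R hRR0, hcb, eventually_ge_atTop R] with N hN1 hN2 hN3
  have hmt1 := hmt (m / H) hρ1
  set I := ∫ t in (0 : ℝ)..1, t * (G t * Real.cos (2 * Real.pi * (m / H) * t)) with hI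
  have hcovN : |2 * ct G (m / H) * c N 0 +
      2 * ∑ k ∈ Finset.Icc 1 R, (ct G ((k - m) / H) + ct G ((k + m) / H)) * c N k
      - 4 * (1 / H) * I| ≤ K * ((1 / H) ^ 2 * Real.log (1 / (1 / H)) ^ 3) := by
    refine le_trans (le_of_eq ?_) hN1
    congr 1
    rw [int_gr, ← hI, hshift G hG.1.continuous, zero_sub, zero_add, ct_neg]
    have : ∑ k ∈ Finset.Icc 1 R, ct (gr G (m / H)) (1 / H * k) * c N k =
        ∑ k ∈ Finset.Icc 1 R, (ct G ((k - m) / H) + ct G ((k + m) / H)) * c N k := by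
      refine Finset.sum_congr rfl (fun k _ => ?_)
      rw [hshift G hG.1.continuous]
      rw [show 1 / H * (k : ℝ) - m / H = (k - m) / H by ring,
        show 1 / H * (k : ℝ) + m / H = (k + m) / H by ring]
    rw [this]
    ring
  have hcore := core (ct G) (G 0) I _ (c N) m H K0 C1 hmpos hHpos R N hN3 hN2 hmt1 hcovN
  refine hcore.trans ?_
  -- the pieces
  have hm2 : (0 : ℝ) < (m : ℝ) ^ 2 := by positivity
  have p1 : 2 * C1 * H ^ 2 / (m : ℝ) ^ 4 ≤ ε / 8 / m ^ 2 := by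
    have : H ^ 2 / (m : ℝ) ^ 2 ≤ (m : ℝ) ^ (-(2 * δ)) := by
      have h1 : H / m ≤ (m : ℝ) ^ (-δ) := by
        rw [div_le_iff₀ hmpos]
        calc H ≤ (m : ℝ) ^ (1 - δ) := hH2
          _ = (m : ℝ) ^ (-δ) * m := by
            rw [show (1 - δ) = -δ + 1 by ring, Real.rpow_add hmpos, Real.rpow_one]
      calc H ^ 2 / (m : ℝ) ^ 2 = (H / m) ^ 2 := by rw [div_pow]
        _ ≤ ((m : ℝ) ^ (-δ)) ^ 2 := pow_le_pow_left₀ (by positivity) h1 2
        _ = (m : ℝ) ^ (-(2 * δ)) := by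
          rw [show -(2 * δ) = -δ * 2 by ring, Real.rpow_mul hmpos.le]
          exact_mod_cast (Real.rpow_natCast ((m : ℝ) ^ (-δ)) 2).symm
    rw [le_div_iff₀ hm2]
    calc 2 * C1 * H ^ 2 / (m : ℝ) ^ 4 * m ^ 2 = 2 * C1 * (H ^ 2 / (m : ℝ) ^ 2) := by
          field_simp
      _ ≤ 2 * C1 * (m : ℝ) ^ (-(2 * δ)) := mul_le_mul_of_nonneg_left this (by positivity)
      _ ≤ ε / 8 := q1
  have p2 : K * ((1 / H) ^ 2 * Real.log (1 / (1 / H)) ^ 3) / (2 * H) ≤ ε / 8 / m ^ 2 := by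
    rw [one_div_one_div, le_div_iff₀ hm2]
    have hlog0 : 0 ≤ Real.log H := Real.log_nonneg (by linarith)
    have hlog : Real.log H ≤ Real.log m := Real.log_le_log hHpos hHm
    have hH3' : (m : ℝ) ^ 2 / H ^ 3 ≤ (m : ℝ) ^ (-(3 * δ)) := by
      rw [div_le_iff₀ (by positivity)]
      have h3 : (m : ℝ) ^ (2 + 3 * δ) ≤ H ^ 3 := by
        calc (m : ℝ) ^ (2 + 3 * δ) = ((m : ℝ) ^ (2 / 3 + δ)) ^ 3 := by
              rw [show 2 + 3 * δ = (2 / 3 + δ) * 3 by ring, Real.rpow_mul hmpos.le]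
              exact_mod_cast Real.rpow_natCast ((m : ℝ) ^ (2 / 3 + δ)) 3
          _ ≤ H ^ 3 := pow_le_pow_left₀ (by positivity) hH1 3
      calc (m : ℝ) ^ 2 = (m : ℝ) ^ (-(3 * δ)) * (m : ℝ) ^ (2 + 3 * δ) := by
            rw [← Real.rpow_add hmpos, show -(3 * δ) + (2 + 3 * δ) = 2 by ring]
            exact_mod_cast (Real.rpow_natCast (m : ℝ) 2).symm
        _ ≤ (m : ℝ) ^ (-(3 * δ)) * H ^ 3 := mul_le_mul_of_nonneg_left h3 (by positivity)
    calc K * ((1 / H) ^ 2 * Real.log H ^ 3) / (2 * H) * (m : ℝ) ^ 2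
        = K / 2 * (Real.log H ^ 3 * ((m : ℝ) ^ 2 / H ^ 3)) := by
          field_simp
      _ ≤ K / 2 * (Real.log m ^ 3 * (m : ℝ) ^ (-(3 * δ))) := by
          refine mul_le_mul_of_nonneg_left ?_ (by positivity)
          exact mul_le_mul (pow_le_pow_left₀ hlog0 hlog 3) hH3' (by positivity)
            (pow_nonneg (hlog0.trans hlog) 3)
      _ ≤ ε / 8 := q2
  have hHinv : 1 / H ≤ 1 := by
    rw [div_le_one hHpos]; linarith
  have p3 : |ct G (m / H)| * K0 ≤ ε / 8 / m ^ 2 := by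
    rw [le_div_iff₀ hm2]
    have h1 : |ct G (m / H)| ≤ C / (m : ℝ) ^ 5 := by
      refine (hFB _).trans ?_
      refine div_le_div_of_nonneg_left hC (by positivity) ?_
      rw [abs_of_pos (by positivity : (0 : ℝ) < m / H)]
      refine hρB.trans ?_
      calc ((m : ℝ) / H) ^ B ≤ (1 + (m : ℝ) / H) ^ B := pow_le_pow_left₀ (by positivity) (by linarith) B
        _ ≤ (1 + (m : ℝ) / H) ^ (B + 2) := pow_le_pow_right₀ (by linarith) (by omega)
    calc |ct G (m / H)| * K0 * (m : ℝ) ^ 2 ≤ C / (m : ℝ) ^ 5 * K0 * (m : ℝ) ^ 2 := by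
          gcongr
      _ = K0 * C * ((m : ℝ) ^ 3)⁻¹ := by
          field_simp
      _ ≤ K0 * C * (m : ℝ)⁻¹ := by
          refine mul_le_mul_of_nonneg_left ?_ (by positivity)
          refine inv_anti₀ hmpos ?_
          calc (m : ℝ) = (m : ℝ) ^ 1 := (pow_one _).symm
            _ ≤ (m : ℝ) ^ 3 := pow_le_pow_right₀ hm1 (by norm_num)
      _ ≤ ε / 8 := q3
  have p4 : K0 * ∑ k ∈ Finset.Icc 1 R, |ct G ((k + m) / H)| ≤ ε / 8 / m ^ 2 := by
    have h1 := sum_far (ct G) B C hC hFB m H hmpos hHpos R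
    have h2 : 2 * C * H ^ 2 / ((m : ℝ) / H) ^ B ≤ 2 * C * (m : ℝ) ^ 2 / (m : ℝ) ^ 5 := by
      refine div_le_div₀ (by positivity) ?_ (by positivity) hρB
      exact mul_le_mul_of_nonneg_left (pow_le_pow_left₀ hHpos.le hHm 2) (by positivity)
    rw [le_div_iff₀ hm2]
    calc K0 * (∑ k ∈ Finset.Icc 1 R, |ct G ((k + m) / H)|) * (m : ℝ) ^ 2
        ≤ K0 * (2 * C * (m : ℝ) ^ 2 / (m : ℝ) ^ 5) * (m : ℝ) ^ 2 := by
          refine mul_le_mul_of_nonneg_right ?_ hm2.le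
          exact mul_le_mul_of_nonneg_left (h1.trans h2) hK0
      _ = K0 * (2 * C) * (m : ℝ)⁻¹ := by
          field_simp
      _ ≤ ε / 8 := q4
  have p5 : K0 * ∑ k ∈ Finset.Ioc R N, |ct G ((k - m) / H)| ≤ ε / 8 / m ^ 2 := by
    have h1 := sum_tail (ct G) C2 hC2 hF2 m H hmpos hHpos R N (by exact_mod_cast hR2m) hN3
    rw [le_div_iff₀ hm2]
    calc K0 * (∑ k ∈ Finset.Ioc R N, |ct G ((k - m) / H)|) * (m : ℝ) ^ 2
        ≤ K0 * (4 * C2 * H ^ 2 / R) * (m : ℝ) ^ 2 := by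
          refine mul_le_mul_of_nonneg_right ?_ hm2.le
          exact mul_le_mul_of_nonneg_left h1 hK0
      _ ≤ ε / 8 := by
          have h2 : K0 * (4 * C2 * H ^ 2) * (8 * (m : ℝ) ^ 2) / ε ≤ R :=
            hR1.trans (by exact_mod_cast hRR1)
          rw [div_le_iff₀ hε] at h2
          rw [show K0 * (4 * C2 * H ^ 2 / (R : ℝ)) * (m : ℝ) ^ 2 =
            K0 * (4 * C2 * H ^ 2) * (m : ℝ) ^ 2 / R by ring, div_le_iff₀ hRpos]
          linarith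
  have hsum0 : 0 ≤ |ct G (m / H)| * K0 + K0 * ∑ k ∈ Finset.Icc 1 R, |ct G ((k + m) / H)| +
      K0 * ∑ k ∈ Finset.Ioc R N, |ct G ((k - m) / H)| := by positivity
  have p6 : 1 / H * (|ct G (m / H)| * K0 + K0 * ∑ k ∈ Finset.Icc 1 R, |ct G ((k + m) / H)| +
      K0 * ∑ k ∈ Finset.Ioc R N, |ct G ((k - m) / H)|) ≤ 3 * (ε / 8 / m ^ 2) := by
    refine (mul_le_of_le_one_left hsum0 hHinv).trans ?_
    linarith
  have p7 : 5 * (ε / 8 / (m : ℝ) ^ 2) ≤ ε / m ^ 2 := by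
    have : 0 ≤ ε / (m : ℝ) ^ 2 := by positivity
    have e : 5 * (ε / 8 / (m : ℝ) ^ 2) = 5 / 8 * (ε / (m : ℝ) ^ 2) := by ring
    rw [e]; linarith
  linarith

end Pool.Agent.H389.LRC
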