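import Pool.Agent.H666.TK.SpecC

/-!
# `S_dich`: large matching or small cover
-/

set_option autoImplicit false

open Finset

namespace Pool.Agent.H389.TKdich

theorem dich : Pool.Agent.H666.TK.S_dich := by
  intro ι _ _ hv p hne
  induction p with
  | zero =>
    left
    refine ⟨Fin.elim0, Fin.elim0, ?_, fun l => l.elim0⟩
    intro x
    rcases x with x | x
    · exact x.elim0
    · exact x.elim0
  | succ p ih =>
    rcases ih with ⟨a, b, hinj, hab⟩ | ⟨A, hA, hcov⟩
    · by_cases hex : ∃ i j, hv i j ∧ (i ∉ Set.range a ∧ i ∉ Set.range b) ∧
          (j ∉ Set.range a ∧ j ∉ Set.range b)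
      · left
        obtain ⟨i, j, hij, ⟨hia, hib⟩, hja, hjb⟩ := hex
        have ha : Function.Injective a := by
          intro x y hxy
          have := @hinj (Sum.inl x) (Sum.inl y) (by simpa using hxy)
          exact Sum.inl_injective this
        have hb : Function.Injective b := by
          intro x y hxy
          have := @hinj (Sum.inr x) (Sum.inr y) (by simpa using hxy)
          exact Sum.inr_injective this
        have hdis : ∀ x y, a x ≠ b y := by
          intro x y hxy
          have := @hinj (Sum.inl x) (Sum.inr y) (by simpa using hxy)
          exact absurd this (by simp)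
        refine ⟨Fin.cons i a, Fin.cons j b, ?_, ?_⟩
        · apply Function.Injective.sumElim
          · exact Fin.cons_injective_iff.2 ⟨hia, ha⟩
          · exact Fin.cons_injective_iff.2 ⟨hjb, hb⟩
          · intro x y
            refine Fin.cases ?_ (fun x => ?_) x
            · refine Fin.cases ?_ (fun y => ?_) y
              · simpa using hne i j hij
              · simp only [Fin.cons_zero, Fin.cons_succ]
                intro h
                exact hib ⟨y, h.symm⟩
            · refine Fin.cases ?_ (fun y => ?_) y
              · simp only [Fin.cons_zero, Fin.cons_succ]
                intro h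
                exact hja ⟨x, h⟩
              · simpa using hdis x y
        · intro l
          refine Fin.cases ?_ (fun l => ?_) l
          · simpa using hij
          · simpa using hab l
      · right
        refine ⟨Finset.univ.image a ∪ Finset.univ.image b, ?_, ?_⟩
        · have h1 : (Finset.univ.image a).card ≤ p :=
            Finset.card_image_le.trans (by simp)
          have h2 : (Finset.univ.image b).card ≤ p :=
            Finset.card_image_le.trans (by simp)
          have h3 := Finset.card_union_le (Finset.univ.image a) (Finset.univ.image b)
          omega
        · intro i j hij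
          by_contra hcon
          push Not at hcon
          obtain ⟨hi, hj⟩ := hcon
          apply hex
          refine ⟨i, j, hij, ⟨?_, ?_⟩, ?_, ?_⟩
          · rintro ⟨x, hx⟩
            exact hi (Finset.mem_union_left _ (Finset.mem_image.2 ⟨x, Finset.mem_univ _, hx⟩))
          · rintro ⟨x, hx⟩
            exact hi (Finset.mem_union_right _ (Finset.mem_image.2 ⟨x, Finset.mem_univ _, hx⟩))
          · rintro ⟨x, hx⟩
            exact hj (Finset.mem_union_left _ (Finset.mem_image.2 ⟨x, Finset.mem_univ _, hx⟩))
          · rintro ⟨x, hx⟩
            exact hj (Finset.mem_union_right _ (Finset.mem_image.2 ⟨x, Finset.mem_univ _, hx⟩))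
    · right
      exact ⟨A, by omega, hcov⟩

end Pool.Agent.H389.TKdich
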