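import Mathlib
import Pool.Agent.H812.Tm.Spec1
import Pool.Graph.R_seed8.W811.Stu.Grow

/-!
Growth of later level functions relative to an earlier one (`SRGY`), for project TM of helper812.
-/

set_option autoImplicit false

open Real Filter Topology

namespace Pool.Agent.H389.TmRGY

open Pool.Agent.W811.Stu Pool.Agent.H812.Tm

lemma dRk_succ' (k : ℕ) (p u : P3) : dRk (k + 1) p u = dRk k (stepR p) (dR p u) := by
  rw [← drun_rep, ← drun_rep, List.replicate_succ]; rfl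

lemma gr_pos {d : ℕ → ℕ} {α β : ℝ} (hα : 0 ≤ α) (hβ : 0 ≤ β) (n : ℕ) :
    0 ≤ (gr d α β n).1 ∧ 0 ≤ (gr d α β n).2 := by
  induction n with
  | zero => exact ⟨hα, hβ⟩
  | succ n ih =>
    refine ⟨ih.2, ?_⟩
    show 0 ≤ (gr d α β n).1 + d n * (gr d α β n).2
    have := ih.1
    have := ih.2
    positivity

lemma gr_mono {d : ℕ → ℕ} (hd : ∀ k, 1 ≤ d k) {α β : ℝ} (hα : 0 ≤ α) (hβ : 0 ≤ β) (n : ℕ) :
    (gr d α β n).1 + (gr d α β n).2 ≤ (gr d α β (n + 1)).2 := by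
  show _ ≤ (gr d α β n).1 + d n * (gr d α β n).2
  have h1 : (1:ℝ) ≤ d n := by exact_mod_cast hd n
  nlinarith [(gr_pos (d := d) hα hβ n).2]

lemma gr_low {d : ℕ → ℕ} (hd : ∀ k, 1 ≤ d k) {α β : ℝ} (hα : 0 ≤ α) (hβ : 0 ≤ β) (n : ℕ) :
    (α + β) * 2 ^ (n / 2) ≤ (gr d α β (n + 1)).2 ∧
    (α + β) * 2 ^ ((n + 1) / 2) ≤ (gr d α β (n + 2)).2 := by
  induction n with
  | zero =>
    have h0 := gr_mono hd hα hβ 0
    have h1 := gr_mono hd hα hβ 1
    have h2 := (gr_pos (d := d) hα hβ 1).1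
    have e : (gr d α β 0) = (α, β) := rfl
    rw [e] at h0
    simp only at h0
    norm_num
    constructor
    · exact h0
    · have h3 : (gr d α β (1 + 1)).2 = (gr d α β 2).2 := rfl
      linarith
  | succ n ih =>
    refine ⟨ih.2, ?_⟩
    have h1 := gr_mono hd hα hβ (n + 1)
    have h2 := gr_mono hd hα hβ (n + 2)
    have h3 := (gr_pos (d := d) hα hβ (n + 1)).1
    have e1 : (gr d α β (n + 2)).1 = (gr d α β (n + 1)).2 := rfl
    have e2 : (n + 1 + 1) / 2 = n / 2 + 1 := by omega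
    have e3 : (gr d α β (n + 1 + 1)).2 = (gr d α β (n + 2)).2 := rfl
    have e4 : (gr d α β (n + 2 + 1)).2 = (gr d α β (n + 1 + 2)).2 := rfl
    rw [e2, pow_succ]
    rw [e3] at h1
    rw [e1, e4] at h2
    nlinarith [ih.1]

lemma bd_of_sq {w D B : ℝ} (h : w ^ 2 ≤ D) (hB : D ≤ B ^ 2) (hB0 : 0 ≤ B) : |w| ≤ B :=
  abs_le_of_sq_le_sq (le_trans h hB) hB0

/-- crude bound: `|u| ≤ |s t| + (1 + |δ| + |s t|)` when `(u - s t)² = δ² + (1 - s²)(1 - t²)` -/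
lemma crude {δ u s t B : ℝ} (h : (u - s * t) ^ 2 = δ ^ 2 + (1 - s ^ 2) * (1 - t ^ 2))
    (hB : |s * t| ≤ B) : |u| ≤ 1 + |δ| + 2 * B := by
  have hB0 : 0 ≤ B := le_trans (abs_nonneg _) hB
  have h1 : (s * t) ^ 2 ≤ B ^ 2 := by
    rw [← sq_abs]; exact pow_le_pow_left₀ (abs_nonneg _) hB 2
  have h2 : (u - s * t) ^ 2 ≤ (1 + |δ| + B) ^ 2 := by
    rw [h]
    have e : δ ^ 2 = |δ| ^ 2 := (sq_abs δ).symm
    have h3 : (1 - s ^ 2) * (1 - t ^ 2) ≤ 1 + (s * t) ^ 2 := by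
      nlinarith [sq_nonneg s, sq_nonneg t]
    rw [e]
    nlinarith [abs_nonneg δ, mul_nonneg (abs_nonneg δ) hB0]
  have h4 : |u - s * t| ≤ 1 + |δ| + B := abs_le_of_sq_le_sq h2 (by positivity)
  have h5 : |u| ≤ |u - s * t| + |s * t| := by
    have := abs_add_le (u - s * t) (s * t)
    simpa using this
  linarith

/-- bounds for the traces at a stage -/
lemma bounds (hAl : SAl) (hWin : SWin) {δ κ : ℝ} (hδ : δ ≠ 0) (h1 : 1 ≤ κ) (hκ : κ < cc δ)
    {d : ℕ → ℕ} (hd : ∀ k, 1 ≤ d k) {p : P3} (hS : OnS δ p) (hz : |p.z| ≤ κ) {m M : ℕ}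
    (hm : 1 ≤ m) (hmM : m < M) (hym : |(orb d p m).y| ≤ κ) (hyM : |(orb d p M).y| ≤ κ) :
    |(orb d p m).z| ≤ 1 + |δ| + 2 * κ ^ 2 := by
  obtain ⟨j, rfl⟩ : ∃ j, m = j + 1 := ⟨m - 1, by omega⟩
  rw [orb_succ_z]
  have hκ0 : 0 ≤ κ := by linarith
  have hal := hAl κ h1 d hd p hz M hyM
  rcases le_or_gt |(orb d p j).y| κ with h | h
  · have : κ ≤ κ ^ 2 := by nlinarith
    have := abs_nonneg δ
    linarith
  · have hzj : |(orb d p j).z| ≤ κ := by
      rcases Nat.eq_zero_or_pos j with h0 | h0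
      · subst h0; exact hz
      · obtain ⟨i, rfl⟩ : ∃ i, j = i + 1 := ⟨j - 1, by omega⟩
        rw [orb_succ_z]
        rcases hal i (by omega) with h2 | h2
        · exact h2
        · linarith
    obtain ⟨K, hK⟩ := hWin δ κ hδ h1 hκ
    have hw := (hK (orb d p j) 0 (d j) (hS.orb d j) (by linarith) (Nat.zero_le _) hzj hym).1
    have hx := hw 1 (by omega) (hd j)
    have hx' : |(orb d p j).x| ≤ κ := hx
    have hB := (hS.orb d j).B2
    unfold gB at hB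
    apply crude (s := (orb d p j).x) (t := (orb d p j).z) hB
    rw [abs_mul, pow_two]
    exact mul_le_mul hx' hzj (abs_nonneg _) hκ0

/-- the main estimate for the derivatives along `fV` -/
theorem main (hAl : SAl) (hWin : SWin) {δ κ : ℝ} (hδ : δ ≠ 0) (h1 : 1 ≤ κ) (hκ : κ < cc δ) :
    ∃ C : ℝ, 0 < C ∧ ∀ d : ℕ → ℕ, (∀ k, 1 ≤ d k) → ∀ m M, 1 ≤ m → m + 4 ≤ M → ∀ p : P3,
      OnS δ p → |p.z| ≤ 1 → |(orb d p m).y| ≤ κ → |(orb d p M).y| ≤ κ →
      |Vy d m p| * 2 ^ ((M - m) / 2) ≤ C * |Vy d M p| := by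
  have hc := cc_sq δ
  have hcp := cc_pos δ
  have hδ0 : 0 < |δ| := abs_pos.2 hδ
  have hκ0 : 0 ≤ κ := by linarith
  have hgap : 0 < cc δ ^ 2 - κ ^ 2 := by nlinarith
  have hsq : 0 < √(cc δ ^ 2 - κ ^ 2) := Real.sqrt_pos.2 hgap
  set C1 : ℝ := 1 + |δ| + 2 * κ ^ 2 with hC1
  set C2 : ℝ := 1 + |δ| + 2 * (κ * C1) with hC2
  set C4 : ℝ := 1 + |δ| + κ ^ 2 + C2 * κ + C2 with hC4
  have C1p : 0 < C1 := by positivity
  have C2p : 0 < C2 := by positivity
  have C4p : 0 < C4 := by positivity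
  refine ⟨4 * C4 * cc δ / (|δ| * √(cc δ ^ 2 - κ ^ 2)), by positivity, ?_⟩
  intro d hd m M hm hmM p hS hz hym hyM
  -- bounds at the stage `m`
  have bz : |(orb d p m).z| ≤ C1 :=
    bounds hAl hWin hδ h1 hκ hd hS (le_trans hz h1) hm (by omega) hym hyM
  have hSm := hS.orb d m
  have bx : |(orb d p m).x| ≤ C2 := by
    have hX := hSm.X2
    unfold gX at hX
    apply crude (s := (orb d p m).y) (t := (orb d p m).z) hX
    rw [abs_mul]
    exact mul_le_mul hym bz (abs_nonneg _) hκ0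
  have bA : |gA (orb d p m)| ≤ C4 := by
    have : |gA (orb d p m)| ≤ |(orb d p m).z| + |(orb d p m).x| * |(orb d p m).y| := by
      unfold gA
      rw [← abs_mul]
      exact abs_sub _ _
    have h2 : |(orb d p m).x| * |(orb d p m).y| ≤ C2 * κ :=
      mul_le_mul bx hym (abs_nonneg _) C2p.le
    have h3 : C1 ≤ C2 := by
      rw [hC2, hC1]; nlinarith [sq_nonneg κ]
    have h4 : 0 ≤ κ ^ 2 := sq_nonneg _
    linarith
  have by2 : |1 - (orb d p m).y ^ 2| ≤ C4 := by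
    have h2 : (orb d p m).y ^ 2 ≤ κ ^ 2 := by
      rw [← sq_abs]; exact pow_le_pow_left₀ (abs_nonneg _) hym 2
    have h3 : 0 ≤ C2 * κ := by positivity
    rw [abs_le]
    constructor <;> nlinarith [sq_nonneg (orb d p m).y]
  -- data at the stage `m`
  obtain ⟨t1, t2, t3, a, b, η, hη, hT, hD, ha, hb, na, nb⟩ := stage hδ hd hS hz m
  have hη2 : η ^ 2 = 1 := by rcases hη with h | h <;> rw [h] <;> norm_num
  have hηa : |η| = 1 := by rcases hη with h | h <;> rw [h] <;> norm_num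
  set α0 : ℝ := |ip b t1| with hα0
  set β0 : ℝ := |ip b t2| with hβ0
  have α0p : 0 ≤ α0 := abs_nonneg _
  have β0p : 0 ≤ β0 := abs_nonneg _
  have up : |δ| * |Vy d m p| ≤ C4 * (α0 + β0) := by
    have e := hD.uy
    have e1 : (lc η (dorb d p (fV p) m) 0 (dorb d p (fV p) m)).y = η * Vy d m p := by
      show η * _ + 0 * _ = _
      rw [zero_mul, add_zero]; rfl
    rw [e1] at e
    have e2 : |δ| * |Vy d m p| = |δ * (η * Vy d m p)| := by
      rw [abs_mul, abs_mul, hηa, one_mul]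
    rw [e2, e, abs_neg]
    refine le_trans (abs_sub _ _) ?_
    rw [abs_mul, abs_mul, mul_add]
    exact add_le_add (mul_le_mul_of_nonneg_right by2 α0p) (mul_le_mul_of_nonneg_right bA β0p)
  -- one step `R`
  obtain ⟨k, hk⟩ : ∃ k, d m = k + 1 := ⟨d m - 1, by have := hd m; omega⟩
  have c1 := Cn_pr hT.n1 hb
  have c3 := Cn_pr hT.R.n3 hb
  have D1 := hD.R hT
  have na1 : α0 ^ 2 ≤ ip (a + pr t1 b) (a + pr t1 b) := by
    have h2 : α0 ^ 2 ≤ ip (pr t1 b) (pr t1 b) := by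
      rw [norm_pr hT.n1, hα0, sq_abs]; have := hb.2; linarith
    have := norm_add ha c1 (m := 0) (n := α0) (by simpa using ha.2) h2
    rwa [zero_add] at this
  have nb1 : β0 ^ 2 ≤ ip (pr (s3R (orb d p m) t2 t3) b) (pr (s3R (orb d p m) t2 t3) b) := by
    rw [norm_pr hT.R.n3]
    have e4 : ip b (s3R (orb d p m) t2 t3) = -ip b t2 := by
      rw [s3R, ip_sub_right, ip_smul_right, hD.b3]; ring
    rw [e4, neg_sq, hβ0, sq_abs]
    have := hb.2
    linarith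
  obtain ⟨r1, r2, r3, hR, K⟩ := growR (δ := δ) k hT.R
  obtain ⟨a2, b2, D2, ha2, hb2, na2, nb2⟩ := K _ _ _ α0 β0 D1 (Cn_add ha c1) c3 na1 nb1
  rw [← dRk_succ', ← Function.iterate_succ_apply] at D2
  rw [← Function.iterate_succ_apply] at hR
  have D3 := D2.S
  have hR3 := hR.S
  -- the stage `m + 1`
  have eo : orb d p (m + 1) = stepS (stepR^[k + 1] (orb d p m)) := by
    show stepT (d m) (orb d p m) = _
    rw [hk]; rfl
  have eu : dS (dRk (k + 1) (orb d p m) (lc η (dorb d p (fV p) m) 0 (dorb d p (fV p) m))) =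
      lc η (dorb d p (fV p) (m + 1)) 0 (dorb d p (fV p) (m + 1)) := by
    rw [dRk_lc]
    have : dorb d p (fV p) (m + 1) = dS (dRk (k + 1) (orb d p m) (dorb d p (fV p) m)) := by
      show dS (dRk (d m) _ _) = _
      rw [hk]
    rw [this]
    unfold lc dS
    ext <;> simp
  rw [← eo, eu] at D3
  rw [← eo] at hR3
  -- up to the stage `M - 1`
  obtain ⟨n, hn⟩ : ∃ n, M = m + 1 + (n + 2) + 1 := ⟨M - m - 4, by omega⟩
  subst hn
  set d' : ℕ → ℕ := fun i => d (m + 1 + i) with hd'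
  have hd1 : ∀ i, 1 ≤ d' i := fun i => hd _
  obtain ⟨q1, q2, q3, hQ, H⟩ := grow (δ := δ) d' (n + 2) hR3
  obtain ⟨a4, b4, D4, ha4, hb4, na4, nb4⟩ := H _ _ _ β0 (α0 + k * β0) D3 hb2 ha2 nb2 na2
  rw [dorb_lc] at D4
  have eorb : orb d' (orb d p (m + 1)) (n + 2) = orb d p (m + 1 + (n + 2)) := (orb_add _ _ _ _).symm
  have edorb : dorb d' (orb d p (m + 1)) (dorb d p (fV p) (m + 1)) (n + 2) =
      dorb d p (fV p) (m + 1 + (n + 2)) := (dorb_add _ _ _ _ _).symm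
  rw [eorb] at hQ D4
  rw [edorb] at D4
  have hk0 : (0:ℝ) ≤ k := Nat.cast_nonneg k
  have βp : 0 ≤ α0 + k * β0 := by positivity
  obtain ⟨g1, g2⟩ := gr_low hd1 β0p βp n
  set N : ℝ := (α0 + β0) * 2 ^ (n / 2) with hN
  have N0 : 0 ≤ N := by positivity
  have hle : N ≤ (β0 + (α0 + k * β0)) * 2 ^ (n / 2) := by
    apply mul_le_mul_of_nonneg_right _ (by positivity)
    linarith [mul_nonneg hk0 β0p]
  have N1 : N ≤ (gr d' β0 (α0 + k * β0) (n + 2)).1 := le_trans hle g1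
  have N2 : N ≤ (gr d' β0 (α0 + k * β0) (n + 2)).2 := by
    refine le_trans hle (le_trans ?_ g2)
    apply mul_le_mul_of_nonneg_left _ (by positivity)
    exact pow_le_pow_right₀ (by norm_num) (by omega)
  -- the last stage
  set m' : ℕ := m + 1 + (n + 2) with hm'
  obtain ⟨l, hl⟩ : ∃ l, d m' = l + 1 := ⟨d m' - 1, by have := hd m'; omega⟩
  obtain ⟨r1', r2', r3', hR', K'⟩ := growR (δ := δ) l hQ
  obtain ⟨a5, b5, D5, ha5, hb5, na5, nb5⟩ := K' a4 b4 _ N N D4 ha4 hb4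
    (le_trans (pow_le_pow_left₀ N0 N1 2) na4) (le_trans (pow_le_pow_left₀ N0 N2 2) nb4)
  have ex : (stepR^[l] (orb d p m')).x = (orb d p (m' + 1)).y := by
    rw [iter_x, orb_succ_y, hl]; rfl
  have eu' : (dRk l (orb d p m') (lc η (dorb d p (fV p) m') 0 (dorb d p (fV p) m'))).x =
      η * Vy d (m' + 1) p := by
    rw [dRk_lc]
    have e2 : Vy d (m' + 1) p = (dRk (d m') (orb d p m') (dorb d p (fV p) m')).z := rfl
    rw [e2, hl]
    show η * _ + 0 * _ = _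
    rw [zero_mul, add_zero]; rfl
  have hy2 : (orb d p (m' + 1)).y ^ 2 ≤ κ ^ 2 := by
    rw [← sq_abs]; exact pow_le_pow_left₀ (abs_nonneg _) hyM 2
  have hl0 : (0:ℝ) ≤ l := Nat.cast_nonneg l
  have hna : N ^ 2 ≤ (N + l * N) ^ 2 := by
    apply pow_le_pow_left₀ N0
    nlinarith [mul_nonneg hl0 N0]
  have main := LBx hδ ((hS.orb d m').iter l) hR' D5 ha5 hb5 (n := N)
    (le_trans hna na5) nb5 (by rw [ex, ← hc]; linarith)
  rw [ex, eu', ← hc, mul_pow η, hη2, one_mul] at main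
  have h6 : (N * √(cc δ ^ 2 - κ ^ 2)) ^ 2 ≤ (cc δ * |Vy d (m' + 1) p|) ^ 2 := by
    rw [mul_pow, mul_pow (cc δ), Real.sq_sqrt hgap.le, sq_abs]
    refine le_trans ?_ main
    apply mul_le_mul_of_nonneg_left _ (sq_nonneg N)
    linarith
  have h8 : N * √(cc δ ^ 2 - κ ^ 2) ≤ cc δ * |Vy d (m' + 1) p| :=
    (abs_le_of_sq_le_sq' h6 (by positivity)).2
  have e7 : (m' + 1 - m) / 2 = n / 2 + 2 := by omega
  rw [e7, pow_add]
  have e8 : 4 * C4 * cc δ / (|δ| * √(cc δ ^ 2 - κ ^ 2)) * |Vy d (m' + 1) p| =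
      (4 * C4 * (cc δ * |Vy d (m' + 1) p|)) / (|δ| * √(cc δ ^ 2 - κ ^ 2)) := by ring
  rw [e8, le_div_iff₀ (by positivity)]
  have h9 : |δ| * |Vy d m p| * 2 ^ (n / 2) ≤ C4 * N := by
    have := mul_le_mul_of_nonneg_right up (show (0:ℝ) ≤ 2 ^ (n / 2) by positivity)
    rw [hN]; linarith
  have h10 : C4 * N * √(cc δ ^ 2 - κ ^ 2) ≤ C4 * (cc δ * |Vy d (m' + 1) p|) := by
    rw [mul_assoc]; exact mul_le_mul_of_nonneg_left h8 C4p.le
  have h11 := mul_le_mul_of_nonneg_right h9 hsq.le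
  have e12 : |Vy d m p| * (2 ^ (n / 2) * 2 ^ 2) * (|δ| * √(cc δ ^ 2 - κ ^ 2)) =
      4 * (|δ| * |Vy d m p| * 2 ^ (n / 2) * √(cc δ ^ 2 - κ ^ 2)) := by ring
  rw [e12]
  linarith

/-- **Growth of later level functions relative to an earlier one.** -/
theorem tSRGY (hAl : SAl) (hWin : SWin) (hDt : SDt) (hCo : SCoord) : SRGY := by
  intro δ κ hδ h1 hκ
  obtain ⟨C, hC, H⟩ := main hAl hWin hδ h1 hκ
  refine ⟨C, hC, ?_⟩
  intro d hd m M hm hmM v hv hym hyM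
  have hv1 : |v.1| < 1 := hv
  have hpos : 0 < 1 - v.1 ^ 2 := by
    have : v.1 ^ 2 < 1 := by
      rw [← sq_abs]; nlinarith [abs_nonneg v.1]
    linarith
  have hs : 0 < √(1 - v.1 ^ 2) := Real.sqrt_pos.2 hpos
  have hS := (hCo δ).1 v hv
  rw [(hDt δ d m).2.2 v hv, (hDt δ d M).2.2 v hv, abs_div, abs_div, abs_neg, abs_neg,
    abs_of_pos hs]
  have h := H d hd m M hm hmM (ze δ v) hS hv1.le hym hyM
  rw [div_mul_eq_mul_div, mul_div_assoc']
  exact div_le_div_of_nonneg_right h hs.le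

end Pool.Agent.H389.TmRGY
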